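import Pool.Agent.H274R2.Ric

/-! Splitting off one basis vector; the Weyl inequality. -/

namespace Pool.Agent.H274R2

open Finset

section split
variable {ι ι' : Type} [Fintype ι] [Fintype ι']

/-- restriction of a tensor -/
def rs (e : ι → ι') (T : ι' → ι' → ι' → ι' → ℝ) : ι → ι → ι → ι → ℝ :=
  fun a b c d => T (e a) (e b) (e c) (e d)

theorem rs_curv {T : ι' → ι' → ι' → ι' → ℝ} (h : IsCurv T) (e : ι → ι') : IsCurv (rs e T) :=
  ⟨fun _ _ _ _ => h.a1 _ _ _ _, fun _ _ _ _ => h.a2 _ _ _ _, fun _ _ _ _ => h.pr _ _ _ _,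
    fun _ _ _ _ => h.bi _ _ _ _⟩

theorem IsCurv.z1 {T : ι' → ι' → ι' → ι' → ℝ} (h : IsCurv T) (a c d : ι') : T a a c d = 0 := by
  have := h.a1 a a c d; linarith

theorem IsCurv.z2 {T : ι' → ι' → ι' → ι' → ℝ} (h : IsCurv T) (a b c : ι') : T a b c c = 0 := by
  have := h.a2 a b c c; linarith

variable {p : ι'} {e : ι → ι'} (hs : ∀ f : ι' → ℝ, ∑ i, f i = f p + ∑ i, f (e i))
  {T : ι' → ι' → ι' → ι' → ℝ} (h : IsCurv T)
include hs h

theorem sp_ric (a b : ι) : ric T (e a) (e b) = ric (rs e T) a b + T p (e a) p (e b) := by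
  unfold ric
  rw [hs, h.sw p (e a) p (e b)]
  unfold rs; ring

theorem sp_ricp (a : ι) : ric T p (e a) = ∑ c, T p (e c) (e a) (e c) := by
  unfold ric
  rw [hs, h.z1, zero_add]

theorem sp_ricpp : ric T p p = ∑ c, T p (e c) p (e c) := by
  unfold ric
  rw [hs, h.z1, zero_add]

theorem sp_sc : sc T = sc (rs e T) + 2 * ric T p p := by
  unfold sc
  rw [hs]
  simp only [sp_ric hs h, Finset.sum_add_distrib]
  rw [sp_ricpp hs h]; ring

theorem sp_nr : nr T = (∑ a, ∑ b, ric T (e a) (e b) ^ 2) + 2 * (∑ a, ric T p (e a) ^ 2)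
    + ric T p p ^ 2 := by
  unfold nr
  simp only [hs (fun b => ric T _ b ^ 2)]
  rw [hs]
  simp only [Finset.sum_add_distrib, ric_symm h _ p]
  ring

theorem sp_4 : n4 T = n4 (rs e T) + 4 * (∑ a, ∑ b, ∑ c, T p (e a) (e b) (e c) ^ 2)
    + 4 * (∑ a, ∑ b, T p (e a) p (e b) ^ 2) := by
  unfold n4
  have e1 : ∀ a b c, ∑ d, T a b c d ^ 2 = T a b c p ^ 2 + ∑ d, T a b c (e d) ^ 2 :=
    fun a b c => hs _
  have e2 : ∀ a b, ∑ c, ∑ d, T a b c d ^ 2 = 2 * (∑ d, T a b p (e d) ^ 2) +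
      ∑ c, ∑ d, T a b (e c) (e d) ^ 2 := by
    intro a b
    rw [hs]
    simp only [e1, Finset.sum_add_distrib, h.z2 a b p]
    have : ∀ c, T a b (e c) p ^ 2 = T a b p (e c) ^ 2 := fun c => by rw [h.a2 a b p (e c)]; ring
    simp only [this]; ring
  simp only [e2, Finset.sum_add_distrib]
  have e3 : ∀ f : ι' → ι' → ℝ, (∀ a b, f b a = f a b) → (∀ a, f a a = 0) →
      ∑ a, ∑ b, f a b = 2 * (∑ a, f p (e a)) + ∑ a, ∑ b, f (e a) (e b) := by
    intro f hf h0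
    rw [hs]
    simp only [hs (f _), Finset.sum_add_distrib, h0 p, hf p (e _)]; ring
  have e4 := e3 (fun a b => 2 * ∑ d, T a b p (e d) ^ 2)
    (fun a b => by
      congr 1; exact Finset.sum_congr rfl fun d _ => by rw [h.a1 a b]; ring)
    (fun a => by simp only [h.z1]; simp)
  have e5 := e3 (fun a b => ∑ c, ∑ d, T a b (e c) (e d) ^ 2)
    (fun a b => Finset.sum_congr rfl fun c _ => Finset.sum_congr rfl fun d _ => by
      rw [h.a1 a b]; ring)
    (fun a => by simp only [h.z1]; simp)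
  rw [e4, e5]
  have e6 : ∑ a, ∑ b, ∑ d, T (e a) (e b) p (e d) ^ 2 =
      ∑ a, ∑ b, ∑ c, T p (e a) (e b) (e c) ^ 2 := by
    simp only [h.pr p (e _) (e _) (e _)]
    calc _ = ∑ a, ∑ d, ∑ b, T p (e d) (e a) (e b) ^ 2 :=
          Finset.sum_congr rfl fun a _ => Finset.sum_comm
      _ = _ := Finset.sum_comm
  simp only [← Finset.mul_sum]
  rw [e6]
  unfold rs
  ring

end split

/-! ### the Weyl inequality in dimension four -/

def d4 (a b : Fin 4) : ℝ := if a = b then 1 else 0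

theorem d4c (F : Fin 4 → ℝ) (a : Fin 4) : ∑ b, d4 a b * F b = F a := by simp [d4]
theorem d4c' (F : Fin 4 → ℝ) (a : Fin 4) : ∑ b, d4 b a * F b = F a := by simp [d4]
theorem d4s (a b : Fin 4) : d4 a b * d4 a b = d4 a b := by simp [d4]
theorem d4d (a : Fin 4) : d4 a a = 1 := by simp [d4]

theorem weyl_nonneg {D : Fin 4 → Fin 4 → Fin 4 → Fin 4 → ℝ} (h : IsCurv D) :
    0 ≤ n4 D - 2 * nr D + 1 / 3 * sc D ^ 2 := by
  set s := sc D with hs
  let k : Fin 4 → Fin 4 → ℝ := fun a b => - (1 / 2) * ric D a b + s / 12 * d4 a b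
  have key : ∀ hh : Fin 4 → Fin 4 → ℝ, (∀ a b, hh a b = hh b a) →
      ∑ a, ∑ b, ∑ c, ∑ d, (D a b c d + (d4 a c * hh b d + d4 b d * hh a c - d4 a d * hh b c
        - d4 b c * hh a d)) ^ 2 = n4 D + 8 * (∑ a, ∑ b, ric D a b * hh a b)
        + 8 * (∑ a, ∑ b, hh a b ^ 2) + 4 * (∑ a, hh a a) ^ 2 := by
    intro hh hsym
    have e : ∀ a b c d, (D a b c d + (d4 a c * hh b d + d4 b d * hh a c - d4 a d * hh b c
        - d4 b c * hh a d)) ^ 2 = D a b c d ^ 2
        + 2 * (d4 a c * (D a b c d * hh b d)) + 2 * (d4 b d * (D a b c d * hh a c))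
        - 2 * (d4 a d * (D a b c d * hh b c)) - 2 * (d4 b c * (D a b c d * hh a d))
        + d4 a c * hh b d ^ 2 + d4 b d * hh a c ^ 2 + d4 a d * hh b c ^ 2 + d4 b c * hh a d ^ 2
        + 2 * (d4 a c * (d4 b d * (hh b d * hh a c)))
        - 2 * (d4 a c * (d4 a d * (hh b d * hh b c)))
        - 2 * (d4 b c * (d4 a c * (hh b d * hh a d)))
        - 2 * (d4 b d * (d4 a d * (hh a c * hh b c)))
        - 2 * (d4 b c * (d4 b d * (hh a c * hh a d)))
        + 2 * (d4 b c * (d4 a d * (hh b c * hh a d))) := by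
      intro a b c d
      have h1 := d4s a c
      have h2 := d4s b d
      have h3 := d4s a d
      have h4 := d4s b c
      linear_combination (hh b d ^ 2) * h1 + (hh a c ^ 2) * h2 + (hh b c ^ 2) * h3
        + (hh a d ^ 2) * h4
    simp only [e, Finset.sum_add_distrib, Finset.sum_sub_distrib, ← Finset.mul_sum, d4c]
    have f1 : ∑ i, ∑ b, ∑ c, D i b i c * hh b c = ∑ a, ∑ b, ric D a b * hh a b := by
      rw [Finset.sum_comm]
      refine Finset.sum_congr rfl fun b _ => ?_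
      rw [Finset.sum_comm]
      refine Finset.sum_congr rfl fun c _ => ?_
      rw [← Finset.sum_mul, trJ h]
    have f2 : ∑ i, ∑ b, ∑ c, D i b c b * hh i c = ∑ a, ∑ b, ric D a b * hh a b := by
      refine Finset.sum_congr rfl fun b _ => ?_
      rw [Finset.sum_comm]
      refine Finset.sum_congr rfl fun c _ => ?_
      rw [← Finset.sum_mul]; rfl
    have f3 : ∑ i, ∑ b, ∑ c, D i b c i * hh b c = - ∑ a, ∑ b, ric D a b * hh a b := by
      rw [← f1]
      simp only [← Finset.sum_neg_distrib]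
      refine Finset.sum_congr rfl fun i _ => Finset.sum_congr rfl fun b _ =>
        Finset.sum_congr rfl fun c _ => ?_
      rw [h.a2 i b i c]; ring
    have f4 : ∑ i, ∑ b, ∑ c, D i b b c * hh i c = - ∑ a, ∑ b, ric D a b * hh a b := by
      rw [← f2]
      simp only [← Finset.sum_neg_distrib]
      refine Finset.sum_congr rfl fun i _ => Finset.sum_congr rfl fun b _ =>
        Finset.sum_congr rfl fun c _ => ?_
      rw [h.a2 i b c b]; ring
    have f5 : ∑ x : Fin 4, ∑ x, ∑ i, hh x i ^ 2 = 4 * ∑ a, ∑ b, hh a b ^ 2 := by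
      simp
    have f6 : ∑ x, ∑ x_1 : Fin 4, ∑ i, hh x i ^ 2 = 4 * ∑ a, ∑ b, hh a b ^ 2 := by
      simp [← Finset.mul_sum]
    have f7 : ∑ i, ∑ j, hh j j * hh i i = (∑ a, hh a a) ^ 2 := by
      rw [sq, Finset.sum_mul_sum]
      exact Finset.sum_congr rfl fun _ _ => Finset.sum_congr rfl fun _ _ => mul_comm _ _
    have f8 : ∑ i, ∑ j, hh j i * hh j i = ∑ a, ∑ b, hh a b ^ 2 := by
      rw [Finset.sum_comm]
      exact Finset.sum_congr rfl fun _ _ => Finset.sum_congr rfl fun _ _ => by ring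
    have f9 : ∑ i, ∑ j, hh i j * hh i j = ∑ a, ∑ b, hh a b ^ 2 :=
      Finset.sum_congr rfl fun _ _ => Finset.sum_congr rfl fun _ _ => by ring
    have f0 : ∑ a, ∑ b, ∑ c, ∑ d, D a b c d ^ 2 = n4 D := rfl
    rw [f0, f1, f2, f3, f4, f5, f6, f7, f8, f9]
    ring
  have hk : ∀ a b, k a b = k b a := by
    intro a b
    simp only [k, d4, ric_symm h a b, eq_comm]
  have k2 := key k hk
  have g1 : ∑ a, ∑ b, ric D a b * k a b = - (1 / 2) * nr D + s ^ 2 / 12 := by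
    have e : ∀ a b, ric D a b * k a b = - (1 / 2) * ric D a b ^ 2
        + s / 12 * (d4 a b * ric D a b) := fun a b => by simp only [k]; ring
    simp only [e, Finset.sum_add_distrib, ← Finset.mul_sum, d4c]
    have : ∑ a, ric D a a = s := rfl
    rw [this]; unfold nr; ring
  have g2 : ∑ a, ∑ b, k a b ^ 2 = 1 / 4 * nr D - s ^ 2 / 18 := by
    have e : ∀ a b, k a b ^ 2 = 1 / 4 * ric D a b ^ 2
        - s / 12 * (d4 a b * ric D a b) + s ^ 2 / 144 * (d4 a b * 1) := fun a b => by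
      have := d4s a b
      simp only [k]
      linear_combination (s ^ 2 / 144) * this
    simp only [e, Finset.sum_add_distrib, Finset.sum_sub_distrib, ← Finset.mul_sum, d4c]
    have : ∑ a, ric D a a = s := rfl
    rw [this]; unfold nr; simp; ring
  have g3 : ∑ a, k a a = - s / 6 := by
    have e : ∀ a, k a a = - (1 / 2) * ric D a a + s / 12 := fun a => by
      simp only [k, d4d]; ring
    simp only [e, Finset.sum_add_distrib, ← Finset.mul_sum]
    have : ∑ a, ric D a a = s := rfl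
    rw [this]; simp; ring
  have pos : 0 ≤ ∑ a, ∑ b, ∑ c, ∑ d, (D a b c d + (d4 a c * k b d + d4 b d * k a c - d4 a d * k b c
        - d4 b c * k a d)) ^ 2 :=
    Finset.sum_nonneg fun _ _ => Finset.sum_nonneg fun _ _ => Finset.sum_nonneg fun _ _ =>
      Finset.sum_nonneg fun _ _ => sq_nonneg _
  rw [k2, g1, g2, g3] at pos
  linarith [pos, show (-s / 6) ^ 2 = s ^ 2 / 36 by ring]

theorem cod_nonneg {C : Fin 4 → Fin 4 → Fin 4 → ℝ} (h : ∀ a b c, C a c b = - C a b c) :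
    0 ≤ (∑ a, ∑ b, ∑ c, C a b c ^ 2) - 2 / 3 * ∑ b, (∑ c, C c b c) ^ 2 := by
  let z : Fin 4 → ℝ := fun b => ∑ c, C c b c
  have e : ∀ a b c, (C a b c - 1 / 3 * (d4 a c * z b - d4 a b * z c)) ^ 2 =
      C a b c ^ 2 - 2 / 3 * (d4 a c * (C a b c * z b)) + 2 / 3 * (d4 a b * (C a b c * z c))
      + 1 / 9 * (d4 a c * z b ^ 2) + 1 / 9 * (d4 a b * z c ^ 2)
      - 2 / 9 * (d4 a b * (d4 a c * (z b * z c))) := by
    intro a b c
    have h1 := d4s a c
    have h2 := d4s a b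
    linear_combination (1 / 9 * z b ^ 2) * h1 + (1 / 9 * z c ^ 2) * h2
  have pos : 0 ≤ ∑ a, ∑ b, ∑ c, (C a b c - 1 / 3 * (d4 a c * z b - d4 a b * z c)) ^ 2 :=
    Finset.sum_nonneg fun _ _ => Finset.sum_nonneg fun _ _ => Finset.sum_nonneg fun _ _ =>
      sq_nonneg _
  simp only [e, Finset.sum_add_distrib, Finset.sum_sub_distrib, ← Finset.mul_sum, d4c] at pos
  have f1 : ∑ i, ∑ b, C i b i * z b = ∑ b, z b ^ 2 := by
    rw [Finset.sum_comm]
    refine Finset.sum_congr rfl fun b _ => ?_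
    rw [← Finset.sum_mul]
    show z b * z b = z b ^ 2
    ring
  have f2 : ∑ i, ∑ c, C i i c * z c = - ∑ b, z b ^ 2 := by
    rw [← f1]
    simp only [← Finset.sum_neg_distrib]
    refine Finset.sum_congr rfl fun i _ => Finset.sum_congr rfl fun c _ => ?_
    rw [h i c i]; ring
  have f3 : ∑ _i : Fin 4, ∑ i, z i ^ 2 = 4 * ∑ b, z b ^ 2 := by simp
  have f4 : ∑ i, z i * z i = ∑ b, z b ^ 2 := Finset.sum_congr rfl fun _ _ => by ring
  rw [f1, f2, f3, f4] at pos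
  show 0 ≤ (∑ a, ∑ b, ∑ c, C a b c ^ 2) - 2 / 3 * ∑ b, z b ^ 2
  linarith

/-- the quadratic expression in dimension five -/
noncomputable def q5 (S : Fin 5 → Fin 5 → Fin 5 → Fin 5 → ℝ) : ℝ :=
  n4 S - 3 * (∑ c, ∑ d, ∑ e, S 0 c d e ^ 2) - 2 * nr S + 1 / 3 * sc S ^ 2
    + 4 * (∑ c, ∑ e, S 0 c 0 e * ric S c e) - 4 / 3 * sc S * ric S 0 0
    + 10 / 3 * ∑ a, ric S 0 a ^ 2

theorem q5_nonneg {S : Fin 5 → Fin 5 → Fin 5 → Fin 5 → ℝ} (h : IsCurv S) : 0 ≤ q5 S := by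
  have hs : ∀ f : Fin 5 → ℝ, ∑ i, f i = f 0 + ∑ i : Fin 4, f i.succ := fun f =>
    Fin.sum_univ_succ f
  have hD : IsCurv (rs Fin.succ S) := rs_curv h _
  have w := weyl_nonneg hD
  have c := cod_nonneg (C := fun a b c => S 0 (Fin.succ a) (Fin.succ b) (Fin.succ c))
    (fun a b c => h.a2 _ _ _ _)
  have e1 := sp_4 hs h
  have e2 := sp_nr hs h
  have e3 := sp_sc hs h
  have e4 := sp_ricpp hs h
  have e5 := sp_ricp hs h
  have e6 := sp_ric hs h
  set K : Fin 4 → Fin 4 → ℝ := fun a b => S 0 (Fin.succ a) 0 (Fin.succ b) with hK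
  have e7 : ∑ c, ∑ d, ∑ e, S 0 c d e ^ 2 = (∑ a, ∑ b, ∑ c, S 0 (Fin.succ a) (Fin.succ b) (Fin.succ c) ^ 2)
      + 2 * ∑ a, ∑ b, K a b ^ 2 := by
    have g1 : ∀ c d, ∑ e, S 0 c d e ^ 2 = S 0 c d 0 ^ 2 + ∑ e : Fin 4, S 0 c d e.succ ^ 2 :=
      fun c d => hs _
    have g2 : ∀ c, ∑ d, ∑ e, S 0 c d e ^ 2 = 2 * (∑ e : Fin 4, S 0 c 0 e.succ ^ 2)
        + ∑ d : Fin 4, ∑ e : Fin 4, S 0 c d.succ e.succ ^ 2 := by
      intro c
      rw [hs]
      simp only [g1, Finset.sum_add_distrib, h.z2]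
      have : ∀ d : Fin 4, S 0 c d.succ 0 ^ 2 = S 0 c 0 d.succ ^ 2 := fun d => by
        rw [h.a2 0 c 0 d.succ]; ring
      simp only [this]; ring
    rw [hs]
    simp only [g2, Finset.sum_add_distrib, h.z1, ← Finset.mul_sum]
    simp
    ring
  have e8 : ∑ c, ∑ e, S 0 c 0 e * ric S c e = ∑ c : Fin 4, ∑ e : Fin 4, K c e * ric S c.succ e.succ := by
    have g1 : ∀ c, ∑ e, S 0 c 0 e * ric S c e = ∑ e : Fin 4, S 0 c 0 e.succ * ric S c e.succ := by
      intro c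
      rw [hs]
      have : S 0 c 0 0 = 0 := h.z2 0 c 0
      rw [this]; ring
    rw [hs]
    simp only [g1, h.z1]
    simp [hK]
  have e9 : ∑ a, ric S 0 a ^ 2 = ric S 0 0 ^ 2 + ∑ a : Fin 4, ric S 0 a.succ ^ 2 := hs _
  unfold q5
  rw [e7, e8, e9, e1, e2, e3]
  have e10 : ∑ a, ∑ b, ric S (Fin.succ a) (Fin.succ b) ^ 2 = nr (rs Fin.succ S)
      + 2 * (∑ c : Fin 4, ∑ e : Fin 4, K c e * ric (rs Fin.succ S) c e) + ∑ a, ∑ b, K a b ^ 2 := by
    simp only [e6]
    unfold nr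
    simp only [Finset.mul_sum, ← Finset.sum_add_distrib]
    exact Finset.sum_congr rfl fun a _ => Finset.sum_congr rfl fun b _ => by
      simp only [hK]; ring
  have e11 : ∑ c : Fin 4, ∑ e : Fin 4, K c e * ric S c.succ e.succ =
      (∑ c : Fin 4, ∑ e : Fin 4, K c e * ric (rs Fin.succ S) c e) + ∑ a, ∑ b, K a b ^ 2 := by
    simp only [e6, ← Finset.sum_add_distrib]
    exact Finset.sum_congr rfl fun a _ => Finset.sum_congr rfl fun b _ => by
      simp only [hK]; ring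
  have e12 : ∑ a, (∑ c, S 0 (Fin.succ c) (Fin.succ a) (Fin.succ c)) ^ 2 =
      ∑ a : Fin 4, ric S 0 a.succ ^ 2 :=
    Finset.sum_congr rfl fun a _ => by rw [e5]
  rw [e10, e11]
  simp only [e12] at c
  have e13 : ∑ a, ∑ b, S 0 (Fin.succ a) 0 (Fin.succ b) ^ 2 = ∑ a, ∑ b, K a b ^ 2 := rfl
  rw [e13]
  nlinarith [w, c]

end Pool.Agent.H274R2
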