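import Pool.Agent.H274R2.UV
import Pool.Agent.H274R2.Sp

/-! Evaluation of the form in an adapted frame. -/

namespace Pool.Agent.H274R2

open Finset

/-- `r e_k` -/
def ek (k : Fin 6) (r : ℝ) : V6 := fun i => r * dl k i

theorem ek_sum (k : Fin 6) (r : ℝ) (f : V6) : ∑ a, ek k r a * f a = r * f k := by
  unfold ek
  simp only [mul_assoc, ← Finset.mul_sum, coll]

theorem ek_sum' (k : Fin 6) (r : ℝ) (f : V6) : ∑ a, f a * ek k r a = r * f k := by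
  rw [← ek_sum]; exact Finset.sum_congr rfl fun _ _ => mul_comm _ _

theorem nn_ek (k : Fin 6) (r : ℝ) : nn (ek k r) = r ^ 2 := by
  unfold nn
  have : ∀ a, ek k r a ^ 2 = ek k r a * ek k r a := fun a => by ring
  simp only [this, ek_sum]
  unfold ek; rw [dl_self]; ring

theorem Rx_ek (T : T4) (k : Fin 6) (r : ℝ) (b c d : Fin 6) :
    Rx T (ek k r) b c d = r * T k b c d := ek_sum k r fun p => T p b c d

theorem Jf_ek (T : T4) (k : Fin 6) (r : ℝ) (a b : Fin 6) :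
    Jf T a b (ek k r) = r ^ 2 * T k a k b := by
  rw [Jf_eq]
  simp only [Rx_ek]
  rw [ek_sum k r fun q => r * T k a q b]; ring

theorem ux_ek (T : T4) (k : Fin 6) (r : ℝ) (a : Fin 6) : ux T (ek k r) a = r * ric T a k :=
  ek_sum' k r fun p => ric T a p

theorem ax_ek (T : T4) (k : Fin 6) (r : ℝ) : ax T (ek k r) = r ^ 2 * ric T k k := by
  rw [← ux_x]
  simp only [ux_ek]
  rw [ek_sum' k r fun a => r * ric T a k]; ring

theorem N1_ek (T : T4) (k j : Fin 6) (r t : ℝ) (b c : Fin 6) :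
    N1 T (ek k r) (ek j t) b c = t * r * T k j b c := by
  unfold N1
  simp only [Rx_ek]
  rw [ek_sum j t fun a => r * T k a b c]; ring

theorem N2_ek (T : T4) (k j : Fin 6) (r t : ℝ) (b c : Fin 6) :
    N2 T (ek k r) (ek j t) b c = t * r * T k b j c := by
  unfold N2
  simp only [Rx_ek]
  rw [ek_sum j t fun a => r * T k b a c]; ring

theorem Jv_ek (T : T4) (k j : Fin 6) (r t : ℝ) (b : Fin 6) :
    Jv T (ek k r) (ek j t) b = t * r ^ 2 * T k j k b := by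
  unfold Jv
  simp only [Jf_ek]
  rw [ek_sum j t fun a => r ^ 2 * T k a k b]; ring

theorem bx_ek (T : T4) (k : Fin 6) (r : ℝ) :
    bx T (ek k r) = r ^ 2 * ∑ a, ∑ b, T k a k b * ric T a b := by
  unfold bx JC
  simp only [Jf_ek, Finset.mul_sum]
  exact Finset.sum_congr rfl fun _ _ => Finset.sum_congr rfl fun _ _ => by ring

theorem cx_ek (T : T4) (k : Fin 6) (r : ℝ) :
    cx T (ek k r) = r ^ 4 * ∑ a, ∑ b, T k a k b ^ 2 := by
  unfold cx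
  simp only [Jf_ek, Finset.mul_sum]
  exact Finset.sum_congr rfl fun _ _ => Finset.sum_congr rfl fun _ _ => by ring

theorem dx_ek (T : T4) (k : Fin 6) (r : ℝ) :
    dx T (ek k r) = r ^ 2 * ∑ a, ric T a k ^ 2 := by
  unfold dx
  simp only [ux_ek, Finset.mul_sum]
  exact Finset.sum_congr rfl fun _ _ => by ring

theorem rx_ek (T : T4) (k : Fin 6) (r : ℝ) :
    rx T (ek k r) = r ^ 2 * ∑ b, ∑ c, ∑ d, T k b c d ^ 2 := by
  rw [rx_eq]
  simp only [Rx_ek, Finset.mul_sum]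
  exact Finset.sum_congr rfl fun _ _ => Finset.sum_congr rfl fun _ _ =>
    Finset.sum_congr rfl fun _ _ => by ring

/-- the scalar expression in the adapted frame -/
noncomputable def q6 (T : T4) : ℝ :=
  (n4 T - 4 * (∑ b, ∑ c, ∑ d, T 5 b c d ^ 2) + 4 * (∑ a, ∑ b, T 5 a 5 b ^ 2)
    - 2 * (nr T - 2 * (∑ a, ric T a 5 ^ 2) + ric T 5 5 ^ 2
        - 2 * (∑ a, ∑ b, T 5 a 5 b * ric T a b) + ∑ a, ∑ b, T 5 a 5 b ^ 2)
    + 1 / 3 * (sc T - 2 * ric T 5 5) ^ 2)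
  - 3 * ((∑ b, ∑ c, ∑ d, T 0 b c d ^ 2) - (∑ b, ∑ c, T 5 0 b c ^ 2) - 2 * (∑ b, ∑ c, T 5 b 0 c ^ 2)
      + 2 * ∑ b, T 5 0 5 b ^ 2)
  + 4 * ((∑ a, ∑ b, T 0 a 0 b * ric T a b) + 2 * (∑ e, T 5 0 0 e * ric T e 5)
      + ric T 5 5 * T 5 0 5 0 - ∑ c, ∑ e, T 0 c 0 e * T 5 c 5 e)
  - 4 / 3 * (sc T - 2 * ric T 5 5) * (ric T 0 0 - T 5 0 5 0)
  + 10 / 3 * ((∑ a, ric T a 0 ^ 2) - ric T 0 5 ^ 2 - 2 * (∑ c, ric T c 0 * T 5 0 5 c)
      + ∑ b, T 5 0 5 b ^ 2)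

theorem UV_ek (T : T4) (r t : ℝ) : UV T (ek 5 r) (ek 0 t) = t ^ 2 * r ^ 4 * q6 T := by
  unfold UV Q0 q6
  simp only [nn_ek, rx_ek, cx_ek, dx_ek, ax_ek, bx_ek, N1_ek, N2_ek, Jv_ek, ux_ek, Jf_ek]
  have e1 : ∑ b, ∑ c, (t * r * T 5 0 b c) * (t * r * T 5 0 b c) =
      t ^ 2 * r ^ 2 * ∑ b, ∑ c, T 5 0 b c ^ 2 := by
    simp only [Finset.mul_sum]
    exact Finset.sum_congr rfl fun _ _ => Finset.sum_congr rfl fun _ _ => by ring
  have e2 : ∑ b, ∑ c, (t * r * T 5 b 0 c) * (t * r * T 5 b 0 c) =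
      t ^ 2 * r ^ 2 * ∑ b, ∑ c, T 5 b 0 c ^ 2 := by
    simp only [Finset.mul_sum]
    exact Finset.sum_congr rfl fun _ _ => Finset.sum_congr rfl fun _ _ => by ring
  have e3 : ∑ b, (t * r ^ 2 * T 5 0 5 b) * (t * r ^ 2 * T 5 0 5 b) =
      t ^ 2 * r ^ 4 * ∑ b, T 5 0 5 b ^ 2 := by
    simp only [Finset.mul_sum]
    exact Finset.sum_congr rfl fun _ _ => by ring
  have e4 : ∑ e, (∑ b, ek 0 t b * (t * r * T 5 0 b e)) * (r * ric T e 5) =
      t ^ 2 * r ^ 2 * ∑ e, T 5 0 0 e * ric T e 5 := by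
    have : ∀ e, ∑ b, ek 0 t b * (t * r * T 5 0 b e) = t * (t * r * T 5 0 0 e) := fun e =>
      ek_sum 0 t fun b => t * r * T 5 0 b e
    simp only [this, Finset.mul_sum]
    exact Finset.sum_congr rfl fun _ _ => by ring
  have e5 : ∑ b, (t * r ^ 2 * T 5 0 5 b) * ek 0 t b = t ^ 2 * r ^ 2 * T 5 0 5 0 := by
    rw [ek_sum' 0 t fun b => t * r ^ 2 * T 5 0 5 b]; ring
  have e6 : ∑ c, ∑ e, (t ^ 2 * T 0 c 0 e) * (r ^ 2 * T 5 c 5 e) =
      t ^ 2 * r ^ 2 * ∑ c, ∑ e, T 0 c 0 e * T 5 c 5 e := by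
    simp only [Finset.mul_sum]
    exact Finset.sum_congr rfl fun _ _ => Finset.sum_congr rfl fun _ _ => by ring
  have e7 : ∑ b, (r * ric T b 5) * ek 0 t b = r * t * ric T 0 5 := by
    rw [ek_sum' 0 t fun b => r * ric T b 5]; ring
  have e8 : ∑ c, (t * ric T c 0) * (t * r ^ 2 * T 5 0 5 c) =
      t ^ 2 * r ^ 2 * ∑ c, ric T c 0 * T 5 0 5 c := by
    simp only [Finset.mul_sum]
    exact Finset.sum_congr rfl fun _ _ => by ring
  rw [e1, e2, e3, e4, e5, e6, e7, e8]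
  ring

theorem q6_eq {T : T4} (h : IsCurv T) : q6 T = q5 (rs Fin.castSucc T) := by
  have hs : ∀ f : Fin 6 → ℝ, ∑ i, f i = f 5 + ∑ i : Fin 5, f i.castSucc := fun f => by
    rw [Fin.sum_univ_castSucc, add_comm]; rfl
  have e1 := sp_4 hs h
  have e2 := sp_nr hs h
  have e3 := sp_sc hs h
  have e4 := sp_ricpp hs h
  have e6 := sp_ric hs h
  set S := rs Fin.castSucc T with hS
  set K : Fin 5 → Fin 5 → ℝ := fun a b => T 5 (Fin.castSucc a) 5 (Fin.castSucc b) with hK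
  -- |T_5|^2
  have a1 : ∑ b, ∑ c, ∑ d, T 5 b c d ^ 2 = (∑ a : Fin 5, ∑ b : Fin 5, ∑ c : Fin 5,
      T 5 a.castSucc b.castSucc c.castSucc ^ 2) + 2 * ∑ a, ∑ b, K a b ^ 2 := by
    have g2 : ∀ b, ∑ c, ∑ d, T 5 b c d ^ 2 = 2 * (∑ e : Fin 5, T 5 b 5 e.castSucc ^ 2)
        + ∑ d : Fin 5, ∑ e : Fin 5, T 5 b d.castSucc e.castSucc ^ 2 := by
      intro b
      have g1 : ∀ c, ∑ d, T 5 b c d ^ 2 = T 5 b c 5 ^ 2 + ∑ e : Fin 5, T 5 b c e.castSucc ^ 2 :=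
        fun c => hs _
      rw [hs]
      simp only [g1, Finset.sum_add_distrib, h.z2]
      have : ∀ d : Fin 5, T 5 b d.castSucc 5 ^ 2 = T 5 b 5 d.castSucc ^ 2 := fun d => by
        rw [h.a2 5 b 5 d.castSucc]; ring
      simp only [this]; ring
    rw [hs]
    simp only [g2, Finset.sum_add_distrib, h.z1, ← Finset.mul_sum]
    simp
    ring
  have a2 : ∑ a, ∑ b, T 5 a 5 b ^ 2 = ∑ a, ∑ b, K a b ^ 2 := by
    have g1 : ∀ a, ∑ b, T 5 a 5 b ^ 2 = ∑ b : Fin 5, T 5 a 5 b.castSucc ^ 2 := by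
      intro a
      rw [hs, h.z2]; simp
    rw [hs]
    simp only [g1, h.z1]
    simp [hK]
  have a3 : ∑ a, ric T a 5 ^ 2 = ric T 5 5 ^ 2 + ∑ a : Fin 5, ric T 5 a.castSucc ^ 2 := by
    rw [hs]
    congr 1
    exact Finset.sum_congr rfl fun a _ => by rw [ric_symm h]
  have a4 : ∑ a, ∑ b, T 5 a 5 b * ric T a b = (∑ a, ∑ b, K a b * ric S a b)
      + ∑ a, ∑ b, K a b ^ 2 := by
    have g1 : ∀ a, ∑ b, T 5 a 5 b * ric T a b =
        ∑ b : Fin 5, T 5 a 5 b.castSucc * ric T a b.castSucc := by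
      intro a
      rw [hs, h.z2]; simp
    rw [hs]
    simp only [g1, h.z1, e6, ← Finset.sum_add_distrib]
    simp only [zero_mul, Finset.sum_const_zero, zero_add]
    exact Finset.sum_congr rfl fun a _ => Finset.sum_congr rfl fun b _ => by
      simp only [hK]; ring
  have a5 : ∑ a : Fin 5, ∑ b : Fin 5, ric T a.castSucc b.castSucc ^ 2 = nr S
      + 2 * (∑ a, ∑ b, K a b * ric S a b) + ∑ a, ∑ b, K a b ^ 2 := by
    simp only [e6]
    unfold nr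
    simp only [Finset.mul_sum, ← Finset.sum_add_distrib]
    exact Finset.sum_congr rfl fun a _ => Finset.sum_congr rfl fun b _ => by
      simp only [hK]; ring
  -- the v-terms
  have c0 : (0 : Fin 6) = Fin.castSucc (0 : Fin 5) := rfl
  have b1 : ∑ b, ∑ c, ∑ d, T 0 b c d ^ 2 = (∑ b : Fin 5, ∑ c : Fin 5, ∑ d : Fin 5, S 0 b c d ^ 2)
      + (∑ b, ∑ c, T 5 0 b c ^ 2) + 2 * (∑ b, ∑ c, T 5 b 0 c ^ 2) - 2 * ∑ b, T 5 0 5 b ^ 2 := by
    have s1 : ∑ b, T 5 0 5 b ^ 2 = ∑ b : Fin 5, T 5 0 5 b.castSucc ^ 2 := by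
      rw [hs, h.z2]; simp
    have s2 : ∑ b, ∑ c, T 5 0 b c ^ 2 = 2 * (∑ b, T 5 0 5 b ^ 2)
        + ∑ b : Fin 5, ∑ c : Fin 5, T 5 0 b.castSucc c.castSucc ^ 2 := by
      have g1 : ∀ b, ∑ c, T 5 0 b c ^ 2 = T 5 0 b 5 ^ 2 + ∑ c : Fin 5, T 5 0 b c.castSucc ^ 2 :=
        fun b => hs _
      rw [hs, s1]
      simp only [g1, Finset.sum_add_distrib, h.z2]
      have : ∀ d : Fin 5, T 5 0 d.castSucc 5 ^ 2 = T 5 0 5 d.castSucc ^ 2 := fun d => by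
        rw [h.a2 5 0 5 d.castSucc]; ring
      simp only [this]; ring
    have s3 : ∑ b, ∑ c, T 5 b 0 c ^ 2 = (∑ b, T 5 0 5 b ^ 2)
        + ∑ b : Fin 5, ∑ c : Fin 5, T 5 b.castSucc 0 c.castSucc ^ 2 := by
      have g1 : ∀ b, ∑ c, T 5 b 0 c ^ 2 = T 5 b 0 5 ^ 2 + ∑ c : Fin 5, T 5 b 0 c.castSucc ^ 2 :=
        fun b => hs _
      rw [hs]
      simp only [g1, Finset.sum_add_distrib, h.z1]
      have : ∀ d : Fin 5, T 5 d.castSucc 0 5 ^ 2 = T 5 0 5 d.castSucc ^ 2 := fun d => by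
        rw [h.a2 5 d.castSucc 5 0, ← h.pr 5 d.castSucc 5 0]; ring
      simp only [this]
      rw [s1]; simp
    have g2 : ∀ b, ∑ c, ∑ d, T 0 b c d ^ 2 = 2 * (∑ e : Fin 5, T 0 b 5 e.castSucc ^ 2)
        + ∑ d : Fin 5, ∑ e : Fin 5, T 0 b d.castSucc e.castSucc ^ 2 := by
      intro b
      have g1 : ∀ c, ∑ d, T 0 b c d ^ 2 = T 0 b c 5 ^ 2 + ∑ e : Fin 5, T 0 b c e.castSucc ^ 2 :=
        fun c => hs _
      rw [hs]
      simp only [g1, Finset.sum_add_distrib, h.z2]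
      have : ∀ d : Fin 5, T 0 b d.castSucc 5 ^ 2 = T 0 b 5 d.castSucc ^ 2 := fun d => by
        rw [h.a2 0 b 5 d.castSucc]; ring
      simp only [this]; ring
    rw [hs]
    simp only [g2, Finset.sum_add_distrib, ← Finset.mul_sum]
    have t1 : ∑ e : Fin 5, T 0 5 5 e.castSucc ^ 2 = ∑ b, T 5 0 5 b ^ 2 := by
      rw [s1]
      exact Finset.sum_congr rfl fun e _ => by rw [h.a1 0 5 5 e.castSucc]; ring
    have t2 : ∑ d : Fin 5, ∑ e : Fin 5, T 0 5 d.castSucc e.castSucc ^ 2 =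
        ∑ b : Fin 5, ∑ c : Fin 5, T 5 0 b.castSucc c.castSucc ^ 2 :=
      Finset.sum_congr rfl fun d _ => Finset.sum_congr rfl fun e _ => by
        rw [h.a1 0 5 d.castSucc e.castSucc]; ring
    have t3 : ∑ b : Fin 5, ∑ e : Fin 5, T 0 b.castSucc 5 e.castSucc ^ 2 =
        ∑ b : Fin 5, ∑ c : Fin 5, T 5 b.castSucc 0 c.castSucc ^ 2 := by
      rw [Finset.sum_comm]
      exact Finset.sum_congr rfl fun d _ => Finset.sum_congr rfl fun e _ => by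
        rw [h.pr 5 d.castSucc 0 e.castSucc]
    rw [t1, t2, t3, s2, s3]
    simp only [hS, rs, ← c0]
    ring
  have b2 : ∑ a, ∑ b, T 0 a 0 b * ric T a b = (∑ c : Fin 5, ∑ e : Fin 5, S 0 c 0 e * ric S c e)
      + (∑ c, ∑ e, T 0 c 0 e * T 5 c 5 e) - 2 * (∑ e, T 5 0 0 e * ric T e 5)
      - ric T 5 5 * T 5 0 5 0 := by
    have s1 : ∑ c, ∑ e, T 0 c 0 e * T 5 c 5 e =
        ∑ c : Fin 5, ∑ e : Fin 5, T 0 c.castSucc 0 e.castSucc * K c e := by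
      have g1 : ∀ c, ∑ e, T 0 c 0 e * T 5 c 5 e =
          ∑ e : Fin 5, T 0 c 0 e.castSucc * T 5 c 5 e.castSucc := by
        intro c
        rw [hs, h.z2 5 c 5]; simp
      rw [hs]
      simp only [g1, h.z1]
      simp [hK]
    have s2 : ∑ e, T 5 0 0 e * ric T e 5 = - T 5 0 5 0 * ric T 5 5
        - ∑ e : Fin 5, T 0 5 0 e.castSucc * ric T 5 e.castSucc := by
      rw [hs, h.a2 5 0 5 0]
      have : ∑ i : Fin 5, T 5 0 0 i.castSucc * ric T i.castSucc 5 =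
          - ∑ e : Fin 5, T 0 5 0 e.castSucc * ric T 5 e.castSucc := by
        rw [← Finset.sum_neg_distrib]
        exact Finset.sum_congr rfl fun e _ => by
          rw [h.a1 0 5 0 e.castSucc, ric_symm h 5]; ring
      rw [this]; ring
    have g1 : ∀ a, ∑ b, T 0 a 0 b * ric T a b = T 0 a 0 5 * ric T a 5
        + ∑ b : Fin 5, T 0 a 0 b.castSucc * ric T a b.castSucc := fun a => hs _
    rw [hs]
    simp only [g1, Finset.sum_add_distrib]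
    have t1 : ∑ i : Fin 5, T 0 i.castSucc 0 5 * ric T i.castSucc 5 =
        ∑ e : Fin 5, T 0 5 0 e.castSucc * ric T 5 e.castSucc :=
      Finset.sum_congr rfl fun e _ => by
        rw [ric_symm h 5, ← h.pr 0 5 0 e.castSucc]
    have t2 : T 0 5 0 5 = T 5 0 5 0 := (h.sw 0 5 0 5).symm
    have t3 : ∑ a : Fin 5, ∑ b : Fin 5, T 0 a.castSucc 0 b.castSucc * ric T a.castSucc b.castSucc =
        (∑ c : Fin 5, ∑ e : Fin 5, S 0 c 0 e * ric S c e)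
        + ∑ c : Fin 5, ∑ e : Fin 5, T 0 c.castSucc 0 e.castSucc * K c e := by
      simp only [e6, ← Finset.sum_add_distrib]
      exact Finset.sum_congr rfl fun c _ => Finset.sum_congr rfl fun e _ => by
        simp only [hK, hS, rs, ← c0]; ring
    rw [t1, t2, t3, s1, s2]
    ring
  have b3 : ric T 0 0 - T 5 0 5 0 = ric S 0 0 := by
    have := e6 0 0
    rw [← c0] at this
    rw [this]; ring
  have b4 : (∑ a, ric T a 0 ^ 2) - ric T 0 5 ^ 2 - 2 * (∑ c, ric T c 0 * T 5 0 5 c)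
      + ∑ b, T 5 0 5 b ^ 2 = ∑ a, ric S 0 a ^ 2 := by
    rw [hs, hs (fun c => ric T c 0 * T 5 0 5 c), hs (fun b => T 5 0 5 b ^ 2), h.z2, ric_symm h 0 5]
    have t : ∑ a, ric S 0 a ^ 2 = (∑ i : Fin 5, ric T i.castSucc 0 ^ 2)
        - 2 * (∑ i : Fin 5, ric T i.castSucc 0 * T 5 0 5 i.castSucc)
        + ∑ i : Fin 5, T 5 0 5 i.castSucc ^ 2 := by
      simp only [Finset.mul_sum, ← Finset.sum_add_distrib, ← Finset.sum_sub_distrib]
      refine Finset.sum_congr rfl fun a _ => ?_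
      have := e6 0 a
      rw [← c0] at this
      rw [ric_symm h a.castSucc 0, this]; ring
    rw [t]; ring
  unfold q6 q5
  rw [b4, b3, b2, b1, a1, a2, a3, a4, e1, e2, e3, a5]
  have k1 : (∑ a : Fin 5, ∑ b : Fin 5, T 5 a.castSucc 5 b.castSucc ^ 2) = ∑ a, ∑ b, K a b ^ 2 := rfl
  rw [k1]
  ring

theorem UV_ek_nonneg {T : T4} (h : IsCurv T) (r t : ℝ) : 0 ≤ UV T (ek 5 r) (ek 0 t) := by
  rw [UV_ek, q6_eq h]
  exact mul_nonneg (by positivity) (q5_nonneg (rs_curv h _))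

end Pool.Agent.H274R2
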