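import Pool.Agent.H274R2.PermS

/-! Evaluation of the alternating double sum. -/

namespace Pool.Agent.H274R2

open Finset Equiv

noncomputable def Vc (R : T4) (c : ℕ) : ℝ := sgb (reps c) * g3 R (labf (repc c))

theorem chk_z (z : Z6) : chkz z = true := by
  have h := chk_all
  obtain ⟨p, q, r, s, t⟩ := z
  simp only [List.all_eq_true, List.mem_finRange, forall_const] at h
  exact h p q r s t

theorem H_z {R : T4} (h : IsCurv R) (z : Z6) :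
    sgb (sz z) * g3 R (labf (fz z)) = Vc R (ent z).1 := by
  have hc := chk_z z
  unfold chkz at hc
  rw [Bool.and_eq_true, beq_iff_eq, List.all_eq_true] at hc
  obtain ⟨h1, h2⟩ := hc
  have h3 : mvs (ent z).2 (repc (ent z).1) = fz z := by
    funext k
    have := h2 k (List.mem_finRange k)
    exact beq_iff_eq.mp this
  unfold Vc
  rw [← h1, ← h3, g3_mvs h, sgb_xor]; ring

def cz (z : Z6) : Fin 8 := Fin.ofNat 8 (ent z).1

theorem cz_eq (z : Z6) : ((cz z : Fin 8) : ℕ) = (ent z).1 := by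
  revert z
  decide +kernel

theorem cz0 : (univ.filter fun z : Z6 => cz z = 0).card = 8 := by decide +kernel
theorem cz1 : (univ.filter fun z : Z6 => cz z = 1).card = 96 := by decide +kernel
theorem cz2 : (univ.filter fun z : Z6 => cz z = 2).card = 24 := by decide +kernel
theorem cz3 : (univ.filter fun z : Z6 => cz z = 3).card = 192 := by decide +kernel
theorem cz4 : (univ.filter fun z : Z6 => cz z = 4).card = 128 := by decide +kernel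
theorem cz5 : (univ.filter fun z : Z6 => cz z = 5).card = 192 := by decide +kernel
theorem cz6 : (univ.filter fun z : Z6 => cz z = 6).card = 16 := by decide +kernel
theorem cz7 : (univ.filter fun z : Z6 => cz z = 7).card = 64 := by decide +kernel

theorem sum_cz (V : ℕ → ℝ) : ∑ z : Z6, V (ent z).1 =
    8 * V 0 + 96 * V 1 + 24 * V 2 + 192 * V 3 + 128 * V 4 + 192 * V 5 + 16 * V 6 + 64 * V 7 := by
  have e : ∑ z : Z6, V (ent z).1 = ∑ z : Z6, (fun j : Fin 8 => V j) (cz z) :=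
    Finset.sum_congr rfl fun z _ => by
      show V (ent z).1 = V ((cz z : Fin 8) : ℕ)
      rw [cz_eq]
  rw [e, ← Finset.sum_fiberwise' univ cz (fun j : Fin 8 => V j)]
  simp only [Finset.sum_const, Fin.sum_univ_eight, cz0, cz1, cz2, cz3, cz4, cz5, cz6, cz7,
    nsmul_eq_mul]
  norm_num

theorem Vc0 {R : T4} (h : IsCurv R) : Vc R 0 = (sc R ^ 3) := by
  have e : g3 R (labf (repc 0)) = sc R ^ 3 := by
    show g3 R ![0, 1, 0, 1, 2, 3, 2, 3, 4, 5, 4, 5] = _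
    exact (g3_pos h [] ![0, 1, 2, 3, 4, 5] ![0, 1, 2, 3, 4, 5] ![0, 1, 0, 1, 2, 3, 2, 3, 4, 5, 4, 5] ![0, 1, 0, 1, 2, 3, 2, 3, 4, 5, 4, 5] (by decide) (by decide) (by decide) (by decide)).trans (by rw [g_s3 h])
  unfold Vc
  rw [e]
  simp [reps, sgb]

theorem Vc1 {R : T4} (h : IsCurv R) : Vc R 1 = -(sc R * nr R) := by
  have e : g3 R (labf (repc 1)) = sc R * nr R := by
    show g3 R ![0, 1, 0, 1, 2, 3, 2, 4, 4, 5, 3, 5] = _
    exact (g3_pos h [.A 1, .B 1, .P 1] ![0, 1, 4, 3, 2, 5] ![0, 1, 4, 3, 2, 5] ![0, 1, 0, 1, 2, 4, 3, 4, 2, 5, 3, 5] ![0, 1, 0, 1, 2, 3, 2, 4, 4, 5, 3, 5] (by decide) (by decide) (by decide) (by decide)).trans (by rw [g_sQ h])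
  unfold Vc
  rw [e]
  simp [reps, sgb]

theorem Vc2 {R : T4} (h : IsCurv R) : Vc R 2 = (sc R * n4 R) := by
  have e : g3 R (labf (repc 2)) = sc R * n4 R := by
    show g3 R ![0, 1, 0, 1, 2, 3, 4, 5, 4, 5, 2, 3] = _
    exact (g3_pos h [.P 1] ![0, 1, 4, 5, 2, 3] ![0, 1, 4, 5, 2, 3] ![0, 1, 0, 1, 2, 3, 4, 5, 2, 3, 4, 5] ![0, 1, 0, 1, 2, 3, 4, 5, 4, 5, 2, 3] (by decide) (by decide) (by decide) (by decide)).trans (by rw [g_sN h])
  unfold Vc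
  rw [e]
  simp [reps, sgb]

theorem Vc3 {R : T4} (h : IsCurv R) : Vc R 3 = (i5 R) := by
  have e : g3 R (labf (repc 3)) = i5 R := by
    show g3 R ![0, 1, 0, 2, 2, 3, 1, 4, 4, 5, 3, 5] = _
    exact (g3_pos h [.A 0, .B 0, .P 2, .Y] ![1, 2, 4, 3, 0, 5] ![4, 0, 1, 3, 2, 5] ![0, 4, 1, 4, 2, 5, 3, 5, 0, 2, 1, 3] ![0, 1, 0, 2, 2, 3, 1, 4, 4, 5, 3, 5] (by decide) (by decide) (by decide) (by decide)).trans (by rw [g_5 h])
  unfold Vc
  rw [e]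
  simp [reps, sgb]

theorem Vc4 {R : T4} (h : IsCurv R) : Vc R 4 = -(-(i4 R)) := by
  have e : g3 R (labf (repc 4)) = -(i4 R) := by
    show g3 R ![0, 1, 0, 2, 2, 3, 3, 4, 4, 5, 1, 5] = _
    exact (g3_neg h [.A 0, .B 0, .B 1] ![1, 2, 4, 0, 3, 5] ![3, 0, 1, 4, 2, 5] ![0, 3, 1, 3, 1, 4, 2, 4, 2, 5, 0, 5] ![0, 1, 0, 2, 2, 3, 3, 4, 4, 5, 1, 5] (by decide) (by decide) (by decide) (by decide)).trans (by rw [g_4 h])
  unfold Vc
  rw [e]
  simp [reps, sgb]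

theorem Vc5 {R : T4} (h : IsCurv R) : Vc R 5 = -(i6 R) := by
  have e : g3 R (labf (repc 5)) = i6 R := by
    show g3 R ![0, 1, 0, 2, 2, 3, 4, 5, 4, 5, 1, 3] = _
    exact (g3_pos h [.A 0, .B 0, .P 0, .P 2] ![2, 1, 3, 4, 5, 0] ![5, 1, 0, 2, 3, 4] ![0, 5, 1, 5, 0, 2, 3, 4, 1, 2, 3, 4] ![0, 1, 0, 2, 2, 3, 4, 5, 4, 5, 1, 3] (by decide) (by decide) (by decide) (by decide)).trans (by rw [g_6 h])
  unfold Vc
  rw [e]
  simp [reps, sgb]

theorem Vc6 {R : T4} (h : IsCurv R) : Vc R 6 = (i7 R) := by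
  have e : g3 R (labf (repc 6)) = i7 R := by
    show g3 R ![0, 1, 2, 3, 2, 3, 4, 5, 4, 5, 0, 1] = _
    exact (g3_pos h [] ![0, 1, 2, 3, 4, 5] ![0, 1, 2, 3, 4, 5] ![0, 1, 2, 3, 2, 3, 4, 5, 4, 5, 0, 1] ![0, 1, 2, 3, 2, 3, 4, 5, 4, 5, 0, 1] (by decide) (by decide) (by decide) (by decide)).trans (by rw [g_7 h])
  unfold Vc
  rw [e]
  simp [reps, sgb]

theorem Vc7 {R : T4} (h : IsCurv R) : Vc R 7 = -(i8 R - i7 R / 4) := by
  have e : g3 R (labf (repc 7)) = i8 R - i7 R / 4 := by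
    show g3 R ![0, 1, 2, 4, 2, 3, 0, 5, 4, 5, 1, 3] = _
    exact (g3_pos h [.P 0] ![2, 4, 0, 1, 3, 5] ![2, 3, 0, 4, 1, 5] ![0, 1, 2, 3, 0, 4, 2, 5, 1, 5, 3, 4] ![0, 1, 2, 4, 2, 3, 0, 5, 4, 5, 1, 3] (by decide) (by decide) (by decide) (by decide)).trans (by rw [g_8b h])
  unfold Vc
  rw [e]
  simp [reps, sgb]

theorem gb_eq {R : T4} (h : IsCurv R) : gb R =
    8 * (sc R ^ 3 - 12 * (sc R * nr R) + 3 * (sc R * n4 R) + 16 * i4 R + 24 * i5 R - 24 * i6 R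
      + 4 * i7 R - 8 * i8 R) := by
  rw [gb_eq1, sum_perm (fun f => g3 R (labf f))]
  simp only [H_z h]
  rw [sum_cz (Vc R), Vc0 h, Vc1 h, Vc2 h, Vc3 h, Vc4 h, Vc5 h, Vc6 h, Vc7 h]
  ring

end Pool.Agent.H274R2
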