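import Pool.Agent.H274R2.UPos
import Pool.Agent.H274R2.PermE

/-! Final assembly: the Gauss-Bonnet integrand of a pinched curvature tensor in dimension six. -/

namespace Pool.Agent.H274R2

open Finset

theorem pr_xx_xx (x v : V6) : pr (xx x) (xx v) = (∑ a, x a * v a) ^ 2 := by
  unfold pr xx
  rw [sq, Finset.sum_mul_sum]
  exact Finset.sum_congr rfl fun a _ => Finset.sum_congr rfl fun b _ => by ring

theorem pr_dl_xx (v : V6) : pr dl (xx v) = nn v := by
  rw [pr_comm, px_dl]

theorem pr_J_xx (R : T4) (x v : V6) : pr (Jm R x) (xx v) =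
    ∑ a, ∑ b, ∑ c, ∑ d, R a b c d * x a * v b * x c * v d := by
  unfold pr Jm xx Jf qf
  simp only [Finset.sum_mul]
  calc _ = ∑ a, ∑ p, ∑ b, ∑ q, R p a q b * (x p * x q) * (v a * v b) :=
        Finset.sum_congr rfl fun a _ => Finset.sum_comm
    _ = ∑ p, ∑ a, ∑ b, ∑ q, R p a q b * (x p * x q) * (v a * v b) := Finset.sum_comm
    _ = ∑ p, ∑ a, ∑ q, ∑ b, R p a q b * (x p * x q) * (v a * v b) :=
        Finset.sum_congr rfl fun p _ => Finset.sum_congr rfl fun a _ => Finset.sum_comm
    _ = _ := by
        refine Finset.sum_congr rfl fun p _ => Finset.sum_congr rfl fun a _ =>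
          Finset.sum_congr rfl fun q _ => Finset.sum_congr rfl fun b _ => by ring

theorem cs6 (x v : V6) : (∑ a, x a * v a) ^ 2 ≤ nn x * nn v := by
  unfold nn
  exact Finset.sum_mul_sq_le_sq_mul_sq _ _ _

/-- sectional curvature bounded below by `m` -/
def LB (R : T4) (m : ℝ) : Prop := ∀ x y : V6, m * (nn x * nn y - (∑ a, x a * y a) ^ 2) ≤
  ∑ a, ∑ b, ∑ c, ∑ d, R a b c d * x a * y b * x c * y d

/-- sectional curvature bounded above by `M` -/
def UB (R : T4) (M : ℝ) : Prop := ∀ x y : V6,
  ∑ a, ∑ b, ∑ c, ∑ d, R a b c d * x a * y b * x c * y d ≤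
    M * (nn x * nn y - (∑ a, x a * y a) ^ 2)

theorem X_lo {R : T4} {m m' : ℝ} (h : LB R m) (hm : m' ≤ m) (x v : V6) :
    0 ≤ pr (Xm R m' x) (xx v) := by
  unfold Xm
  rw [pr_sub_l, pr_smul_l, pr_sub_l, pr_smul_l, pr_J_xx, pr_dl_xx, pr_xx_xx]
  have h1 := h x v
  have h2 : m' * (nn x * nn v - (∑ a, x a * v a) ^ 2) ≤ m * (nn x * nn v - (∑ a, x a * v a) ^ 2) :=
    mul_le_mul_of_nonneg_right hm (by linarith [cs6 x v])
  linarith

theorem X_hi {R : T4} {M : ℝ} (h : UB R M) (x v : V6) : pr (Xm R M x) (xx v) ≤ 0 := by
  unfold Xm
  rw [pr_sub_l, pr_smul_l, pr_sub_l, pr_smul_l, pr_J_xx, pr_dl_xx, pr_xx_xx]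
  linarith [h x v]

theorem PFv_nonpos {R : T4} {m : ℝ} {x : V6} (hX : ∀ v : V6, pr (Xm R m x) (xx v) ≤ 0)
    (φ ε ζ : ℝ) : PFv R m x φ ε ζ ≤ 0 := by
  have e : PFv R m x φ ε ζ = ∑ c, pr (Xm R m x) (xx (fun a => Fm R x φ ε ζ a c)) := by
    unfold PFv pr xx
    simp only [Finset.mul_sum]
    calc _ = ∑ a, ∑ c, ∑ b, Xm R m x a b * (Fm R x φ ε ζ a c * Fm R x φ ε ζ b c) :=
          Finset.sum_congr rfl fun a _ => Finset.sum_comm
      _ = _ := Finset.sum_comm
  rw [e]
  exact Finset.sum_nonpos fun c _ => hX _

theorem APF_nonneg {R : T4} (h : IsCurv R) {m m' : ℝ} (hl : LB R m) (hm : m' ≤ m)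
    (κ γ ε ζ : ℝ) : 0 ≤ APF R m' κ γ ε ζ := by
  rw [← Av_APF h]
  exact Av_nonneg fun x => PFv_nonneg (X_lo hl hm x) _ _ _

theorem APF_nonpos {R : T4} (h : IsCurv R) {M : ℝ} (hu : UB R M)
    (κ γ ε ζ : ℝ) : APF R M κ γ ε ζ ≤ 0 := by
  rw [← Av_APF h]
  have := Av_nonneg (f := fun x => - PFv R M x (κ * nn x + γ * ax R x) ε ζ)
    fun x => neg_nonneg.mpr (PFv_nonpos (X_hi hu x) _ _ _)
  rw [Av_neg] at this
  linarith

theorem AU_nonneg {R : T4} (h : IsCurv R) {m m' : ℝ} (hl : LB R m) (hm : m' ≤ m) :
    0 ≤ AU R m' := by
  rw [← Av_AU h]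
  exact Av_nonneg fun x => Uv_nonneg h (X_lo hl hm x)

theorem gb_pos {R : T4} (h : IsCurv R) {m M : ℝ} (hM : 0 < M) (hm : (57/250) * M ≤ m)
    (hl : LB R m) (hu : UB R M) : (324/3125) * M ^ 3 ≤ gb R := by
  have l0 := APF_nonneg h hl hm (1 * M + (-8642/2311455) * sc R) (-96083/770485) (-2117035270817/27007618083750) (-187626263/520077375)
  have l1 := APF_nonneg h hl hm (0 * M + (1/30) * sc R) (-35923034051933/536395777543125) (-2932182443769696889/69637581819536203125) (-345839010958373/1787985925143750)
  have l2 := APF_nonneg h hl hm (0 * M + 0 * sc R) (1/5) (6799018544683893237312347/190978512733035463839264000) (-12438034970028627579/19054996585981673600)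
  have l3 := APF_nonneg h hl hm (0 * M + 0 * sc R) 0 (1/5) (-683949300647670496836250090387531160274/1066470017846498898262130446010262600769)
  have l4 := APF_nonneg h hl hm (0 * M + 0 * sc R) 0 0 1
  have u0 := APF_nonpos h hu (1 * M + (-18900510968249/307839524942250) * sc R) (1307900/8782179) (185550/2927393) (-3013000/1254597)
  have u1 := APF_nonpos h hu (0 * M + (1/30) * sc R) (1469266203706785734130000/1771678620605050626530249) (630699340322301670473750/1771678620605050626530249) (-24691388510552683308637500/1771678620605050626530249)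
  have u2 := APF_nonpos h hu (0 * M + 0 * sc R) (1/5) (831562090801616298556105890069381367/10185761425071385761881869675159501500) (-2121089960743923913645297855/752807781600764012246226361)
  have u3 := APF_nonpos h hu (0 * M + 0 * sc R) 0 (1/5) (-51852971088861242674633521383336144043100257540/29254235725903717424790436185906368165797446439)
  have u4 := APF_nonpos h hu (0 * M + 0 * sc R) 0 0 1
  have w := AU_nonneg h hl hm
  have key : 480 * (gb R / 384 - (27/100000) * M ^ 3) =
      (154097/100000) * APF R ((57/250) * M) (1 * M + (-8642/2311455) * sc R) (-96083/770485) (-2117035270817/27007618083750) (-187626263/520077375) +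
      (31786416447/616388000) * APF R ((57/250) * M) (0 * M + (1/30) * sc R) (-35923034051933/536395777543125) (-2932182443769696889/69637581819536203125) (-345839010958373/1787985925143750) +
      (47637491464954184/45258393730201171875) * APF R ((57/250) * M) (0 * M + 0 * sc R) (1/5) (6799018544683893237312347/190978512733035463839264000) (-12438034970028627579/19054996585981673600) +
      (1066470017846498898262130446010262600769/1744205613306967902194158374406800000000000) * APF R ((57/250) * M) (0 * M + 0 * sc R) 0 (1/5) (-683949300647670496836250090387531160274/1066470017846498898262130446010262600769) +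
      (365460015684256376565199938932639735752273/34553628578226564303693026450732508264915600000) * APF R ((57/250) * M) (0 * M + 0 * sc R) 0 0 1 +
      (-8782179/25000000) * APF R M (1 * M + (-18900510968249/307839524942250) * sc R) (1307900/8782179) (185550/2927393) (-3013000/1254597) +
      (-1771678620605050626530249/299739497442207046875000000) * APF R M (0 * M + (1/30) * sc R) (1469266203706785734130000/1771678620605050626530249) (630699340322301670473750/1771678620605050626530249) (-24691388510552683308637500/1771678620605050626530249) +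
      (-752807781600764012246226361/17716786206050506265302490000) * APF R M (0 * M + 0 * sc R) (1/5) (831562090801616298556105890069381367/10185761425071385761881869675159501500) (-2121089960743923913645297855/752807781600764012246226361) +
      (-29254235725903717424790436185906368165797446439/55126813693588405065685846800318250181916900000000) * APF R M (0 * M + 0 * sc R) 0 (1/5) (-51852971088861242674633521383336144043100257540/29254235725903717424790436185906368165797446439) +
      (-786324031460620551928519168536009620646394850077/3656779465737964678098804523238296020724680804875000) * APF R M (0 * M + 0 * sc R) 0 0 1 +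
      (16/27) * AU R ((57/250) * M) := by
    rw [gb_eq h]
    unfold APF AU
    ring
  have pos : 0 ≤ 480 * (gb R / 384 - (27/100000) * M ^ 3) := by
    rw [key]
    have p0 := mul_nonneg (show (0:ℝ) ≤ (154097/100000) by norm_num) l0
    have p1 := mul_nonneg (show (0:ℝ) ≤ (31786416447/616388000) by norm_num) l1
    have p2 := mul_nonneg (show (0:ℝ) ≤ (47637491464954184/45258393730201171875) by norm_num) l2
    have p3 := mul_nonneg (show (0:ℝ) ≤ (1066470017846498898262130446010262600769/1744205613306967902194158374406800000000000) by norm_num) l3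
    have p4 := mul_nonneg (show (0:ℝ) ≤ (365460015684256376565199938932639735752273/34553628578226564303693026450732508264915600000) by norm_num) l4
    have n0 := mul_nonneg_of_nonpos_of_nonpos (show (-8782179/25000000) ≤ (0:ℝ) by norm_num) u0
    have n1 := mul_nonneg_of_nonpos_of_nonpos (show (-1771678620605050626530249/299739497442207046875000000) ≤ (0:ℝ) by norm_num) u1
    have n2 := mul_nonneg_of_nonpos_of_nonpos (show (-752807781600764012246226361/17716786206050506265302490000) ≤ (0:ℝ) by norm_num) u2
    have n3 := mul_nonneg_of_nonpos_of_nonpos (show (-29254235725903717424790436185906368165797446439/55126813693588405065685846800318250181916900000000) ≤ (0:ℝ) by norm_num) u3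
    have n4 := mul_nonneg_of_nonpos_of_nonpos (show (-786324031460620551928519168536009620646394850077/3656779465737964678098804523238296020724680804875000) ≤ (0:ℝ) by norm_num) u4
    have ww := mul_nonneg (show (0:ℝ) ≤ (16/27) by norm_num) w
    linarith
  linarith

end Pool.Agent.H274R2
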