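import Pool.Agent.H274R2.Cls

/-! Averages of the scalars used in the certificate. -/

namespace Pool.Agent.H274R2

open Finset


/-- the Jacobi operator `R_{xaxb}` -/
def Jf (R : T4) (a b : Fin 6) : (Fin 6 → ℝ) → ℝ := qf (fun p q => R p a q b)

theorem Jf_symm {R : T4} (h : IsCurv R) (a b : Fin 6) (x : Fin 6 → ℝ) : Jf R a b x = Jf R b a x := by
  unfold Jf qf
  rw [Finset.sum_comm]
  refine Finset.sum_congr rfl fun p _ => Finset.sum_congr rfl fun q _ => ?_
  show R q a p b * _ = R p b q a * _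
  rw [h.pr p b q a]; ring

/-- `Ric_{ab} R_{paqb}` -/
def Bm (R : T4) (p q : Fin 6) : ℝ := ∑ a, ∑ b, ric R a b * R p a q b

/-- `Ric^2` -/
def R2 (R : T4) (p q : Fin 6) : ℝ := ∑ c, ric R p c * ric R c q

/-- contraction of the Jacobi operator with a matrix -/
def JC (R : T4) (C : Fin 6 → Fin 6 → ℝ) (x : Fin 6 → ℝ) : ℝ := ∑ a, ∑ b, C a b * Jf R a b x

theorem JC_qf (R : T4) (C : Fin 6 → Fin 6 → ℝ) (x : Fin 6 → ℝ) :
    JC R C x = qf (fun p q => ∑ a, ∑ b, C a b * R p a q b) x := by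
  unfold JC Jf
  rw [qf_sum]
  refine Finset.sum_congr rfl fun a _ => ?_
  rw [qf_sum]
  refine Finset.sum_congr rfl fun b _ => ?_
  rw [qf_smul]

theorem tr_JC {R : T4} (h : IsCurv R) (C : Fin 6 → Fin 6 → ℝ) :
    ∑ p, ∑ a, ∑ b, C a b * R p a p b = ∑ a, ∑ b, C a b * ric R a b := by
  rw [Finset.sum_comm]
  refine Finset.sum_congr rfl fun a _ => ?_
  rw [Finset.sum_comm]
  refine Finset.sum_congr rfl fun b _ => ?_
  rw [← Finset.mul_sum, trJ h]

theorem Av_n2JC {R : T4} (h : IsCurv R) (C : Fin 6 → Fin 6 → ℝ) :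
    Av (fun x => nn x ^ 2 * JC R C x) = 80 * ∑ a, ∑ b, C a b * ric R a b := by
  simp only [JC_qf]
  rw [Av_nn1, tr_JC h]

/-- value at `x` -/
def ax (R : T4) : (Fin 6 → ℝ) → ℝ := qf (ric R)

theorem Av_n2a (R : T4) : Av (fun x => nn x ^ 2 * ax R x) = 80 * sc R := by
  unfold ax; rw [Av_nn1]; rfl

theorem nr_eq {R : T4} : nr R = ∑ a, ∑ b, ric R a b * ric R a b := by
  unfold nr
  exact Finset.sum_congr rfl fun a _ => Finset.sum_congr rfl fun b _ => by ring

theorem Av_a2 {R : T4} (h : IsCurv R) : Av (fun x => ax R x * ax R x) = sc R ^ 2 + 2 * nr R := by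
  unfold ax
  rw [Av_qf2, nr_eq]
  have : ∀ a b, ric R a a * ric R b b + ric R a b * ric R a b + ric R a b * ric R b a =
      ric R a a * ric R b b + 2 * (ric R a b * ric R a b) := by
    intro a b; rw [ric_symm h b a]; ring
  simp only [this, Finset.sum_add_distrib, ← Finset.mul_sum, ← Finset.sum_mul]
  unfold sc; ring

theorem Av_na2 {R : T4} (h : IsCurv R) :
    Av (fun x => nn x * (ax R x * ax R x)) = 10 * (sc R ^ 2 + 2 * nr R) := by
  rw [← Av_a2 h]
  unfold ax
  rw [← Av_nnM2]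
  congr 1; funext x; ring

theorem Av_a3 {R : T4} (h : IsCurv R) : Av (fun x => ax R x * ax R x * ax R x) =
    sc R ^ 3 + 6 * (sc R * nr R) + 8 * i4 R := by
  unfold ax
  rw [Av_qf3]
  have key : ∀ a b c, (ric R a a * ric R b b * ric R c c
        + ric R a a * ric R b c * ric R b c
        + ric R a a * ric R b c * ric R c b
        + ric R a b * ric R a b * ric R c c
        + ric R a b * ric R a c * ric R b c
        + ric R a b * ric R a c * ric R c b
        + ric R a b * ric R b a * ric R c c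
        + ric R a b * ric R c a * ric R b c
        + ric R a b * ric R c a * ric R c b
        + ric R a b * ric R b c * ric R a c
        + ric R a b * ric R c b * ric R a c
        + ric R a b * ric R c c * ric R a b
        + ric R a b * ric R b c * ric R c a
        + ric R a b * ric R c b * ric R c a
        + ric R a b * ric R c c * ric R b a) =
      ric R a a * (ric R b b * ric R c c) + 2 * (ric R a a * (ric R b c * ric R b c))
        + 4 * (ric R c c * (ric R a b * ric R a b)) + 8 * (ric R a b * ric R b c * ric R c a) := by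
    intro a b c
    rw [ric_symm h b a, ric_symm h c a, ric_symm h c b]; ring
  simp only [key, Finset.sum_add_distrib]
  have e1 : ∑ a, ∑ b, ∑ c, ric R a a * (ric R b b * ric R c c) = sc R ^ 3 := by
    simp only [← Finset.mul_sum, ← Finset.sum_mul]
    unfold sc; ring
  have e2 : ∑ a, ∑ b, ∑ c, 2 * (ric R a a * (ric R b c * ric R b c)) = 2 * (sc R * nr R) := by
    simp only [← Finset.mul_sum, ← Finset.sum_mul]
    rw [nr_eq]; unfold sc; ring
  have e3 : ∑ a, ∑ b, ∑ c, 4 * (ric R c c * (ric R a b * ric R a b)) = 4 * (sc R * nr R) := by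
    simp only [← Finset.mul_sum, ← Finset.sum_mul]
    rw [nr_eq]; unfold sc; ring
  have e4 : ∑ a, ∑ b, ∑ c, 8 * (ric R a b * ric R b c * ric R c a) = 8 * i4 R := by
    simp only [← Finset.mul_sum]
    rfl
  rw [e1, e2, e3, e4]; ring

theorem Bm_symm {R : T4} (h : IsCurv R) (p q : Fin 6) : Bm R p q = Bm R q p := by
  unfold Bm
  rw [Finset.sum_comm]
  refine Finset.sum_congr rfl fun a _ => Finset.sum_congr rfl fun b _ => ?_
  rw [ric_symm h b a, h.pr q a p b]

theorem Bm_tr {R : T4} (h : IsCurv R) : ∑ p, Bm R p p = nr R := by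
  unfold Bm
  rw [tr_JC h, nr_eq]

theorem i5_eq {R : T4} : ∑ a, ∑ b, ric R a b * Bm R a b = i5 R := by
  unfold Bm i5
  refine Finset.sum_congr rfl fun a _ => Finset.sum_congr rfl fun b _ => ?_
  rw [Finset.mul_sum]
  refine Finset.sum_congr rfl fun c _ => ?_
  rw [Finset.mul_sum]
  exact Finset.sum_congr rfl fun d _ => by ring

/-- `Ric_{ab} R_{xaxb}` -/
def bx (R : T4) (x : Fin 6 → ℝ) : ℝ := JC R (ric R) x

theorem bx_qf (R : T4) (x : Fin 6 → ℝ) : bx R x = qf (Bm R) x := JC_qf R _ x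

theorem Av_n2b {R : T4} (h : IsCurv R) : Av (fun x => nn x ^ 2 * bx R x) = 80 * nr R := by
  unfold bx
  rw [Av_n2JC h, nr_eq]

theorem Av_ab {R : T4} (h : IsCurv R) : Av (fun x => ax R x * bx R x) =
    sc R * nr R + 2 * i5 R := by
  simp only [bx_qf]
  unfold ax
  rw [Av_qf2]
  have key : ∀ a b, ric R a a * Bm R b b + ric R a b * Bm R a b + ric R a b * Bm R b a =
      ric R a a * Bm R b b + 2 * (ric R a b * Bm R a b) := by
    intro a b; rw [Bm_symm h b a]; ring
  simp only [key, Finset.sum_add_distrib, ← Finset.mul_sum, ← Finset.sum_mul]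
  rw [Bm_tr h, i5_eq]; unfold sc; ring

theorem Av_nab {R : T4} (h : IsCurv R) : Av (fun x => nn x * (ax R x * bx R x)) =
    10 * (sc R * nr R + 2 * i5 R) := by
  rw [← Av_ab h]
  simp only [bx_qf]
  unfold ax
  rw [← Av_nnM2]
  congr 1; funext x; ring

/-- `Σ_b Σ_p Σ_q R_{paqb} R_{pcqb}` -/
theorem RR_b {R : T4} (h : IsCurv R) (a c : Fin 6) :
    ∑ b, ∑ p, ∑ q, R p a q b * R p c q b = RR R a c := by
  unfold RR
  rw [Finset.sum_comm]
  refine Finset.sum_congr rfl fun p _ => ?_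
  refine Finset.sum_congr rfl fun b _ => Finset.sum_congr rfl fun q _ => ?_
  rw [h.sw a p b q, h.sw c p b q]

theorem RR_c {R : T4} (h : IsCurv R) (a c : Fin 6) :
    ∑ b, ∑ p, ∑ q, R p a q b * R q c p b = RR R a c / 2 := by
  rw [← RR_a h, Finset.sum_comm]
  refine Finset.sum_congr rfl fun p _ => ?_
  refine Finset.sum_congr rfl fun b _ => Finset.sum_congr rfl fun q _ => ?_
  rw [h.sw a p b q, h.sw c q b p]

theorem RR_tr {R : T4} : ∑ a, RR R a a = n4 R := by
  unfold RR n4
  simp only [sq]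

/-- `|J|^2` -/
def cx (R : T4) (x : Fin 6 → ℝ) : ℝ := ∑ a, ∑ b, Jf R a b x * Jf R a b x

theorem Av_c {R : T4} (h : IsCurv R) : Av (cx R) = nr R + 3 / 2 * n4 R := by
  have e : Av (cx R) = ∑ a, ∑ b, Av (fun x => Jf R a b x * Jf R a b x) := by
    unfold cx; rw [Av_sum]; exact Finset.sum_congr rfl fun a _ => by rw [Av_sum]
  rw [e]
  unfold Jf
  simp only [Av_qf2, Finset.sum_add_distrib, ← Finset.mul_sum, ← Finset.sum_mul, trJ h, RR_b h]
  have h1 : ∀ a, ∑ b, ∑ p, ∑ q, R p a q b * R q a p b = RR R a a / 2 := fun a => RR_c h a a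
  simp only [h1, ← Finset.sum_div, RR_tr, nr_eq]
  ring

end Pool.Agent.H274R2
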