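import Pool.Agent.H274R2.Aver

/-! More averages. -/

namespace Pool.Agent.H274R2

open Finset

/-- quartic functions, for which multiplication by `|x|^2` multiplies the average by ten -/
def Q4 (f : (Fin 6 → ℝ) → ℝ) : Prop := Av (fun x => nn x * f x) = 10 * Av f

theorem Q4.qq (M N : Fin 6 → Fin 6 → ℝ) : Q4 (fun x => qf M x * qf N x) := by
  unfold Q4
  rw [← Av_nnM2]
  congr 1; funext x; ring

theorem Q4.smul {f : (Fin 6 → ℝ) → ℝ} (c : ℝ) (h : Q4 f) : Q4 (fun x => c * f x) := by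
  unfold Q4 at *
  have : (fun x => nn x * (c * f x)) = fun x => c * (nn x * f x) := by funext x; ring
  rw [this, Av_smul, Av_smul, h]; ring

theorem Q4.sum {ι : Type} (s : Finset ι) {f : ι → (Fin 6 → ℝ) → ℝ} (h : ∀ i, Q4 (f i)) :
    Q4 (fun x => ∑ i ∈ s, f i x) := by
  unfold Q4 at *
  simp only [Finset.mul_sum, Av_sum, h]

theorem Q4.congr {f g : (Fin 6 → ℝ) → ℝ} (h : Q4 g) (e : ∀ x, f x = g x) : Q4 f := by
  have : f = g := funext e
  rw [this]; exact h

/-- `Ric x` -/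
def ux (R : T4) (x : Fin 6 → ℝ) (a : Fin 6) : ℝ := ∑ p, ric R a p * x p

theorem uu_qf (R : T4) (x : Fin 6 → ℝ) (a b : Fin 6) :
    ux R x a * ux R x b = qf (fun p q => ric R a p * ric R b q) x := by
  unfold ux qf
  rw [Finset.sum_mul_sum]
  refine Finset.sum_congr rfl fun p _ => Finset.sum_congr rfl fun q _ => by ring

/-- `|Ric x|^2` -/
def dx (R : T4) (x : Fin 6 → ℝ) : ℝ := ∑ a, ux R x a * ux R x a

theorem R2_eq {R : T4} (h : IsCurv R) (p q : Fin 6) : R2 R p q = ∑ a, ric R a p * ric R a q := by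
  unfold R2
  exact Finset.sum_congr rfl fun a _ => by rw [ric_symm h p a]

theorem R2_symm {R : T4} (h : IsCurv R) (p q : Fin 6) : R2 R p q = R2 R q p := by
  rw [R2_eq h, R2_eq h]
  exact Finset.sum_congr rfl fun a _ => by ring

theorem R2_tr {R : T4} (h : IsCurv R) : ∑ p, R2 R p p = nr R := by
  rw [nr_eq, Finset.sum_comm]
  refine Finset.sum_congr rfl fun p _ => ?_
  rw [R2_eq h]

theorem dx_qf {R : T4} (h : IsCurv R) (x : Fin 6 → ℝ) : dx R x = qf (R2 R) x := by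
  have e : R2 R = fun p q => ∑ a, ric R a p * ric R a q := by
    funext p q; exact R2_eq h p q
  rw [e, qf_sum]
  unfold dx
  simp only [uu_qf]

theorem Av_n2d {R : T4} (h : IsCurv R) : Av (fun x => nn x ^ 2 * dx R x) = 80 * nr R := by
  simp only [dx_qf h]
  rw [Av_nn1, R2_tr h]

theorem Av_ad {R : T4} (h : IsCurv R) : Av (fun x => ax R x * dx R x) =
    sc R * nr R + 2 * i4 R := by
  simp only [dx_qf h]
  unfold ax
  rw [Av_qf2]
  have key : ∀ a b, ric R a a * R2 R b b + ric R a b * R2 R a b + ric R a b * R2 R b a =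
      ric R a a * R2 R b b + 2 * (ric R a b * R2 R b a) := by
    intro a b; rw [R2_symm h b a]; ring
  simp only [key, Finset.sum_add_distrib, ← Finset.mul_sum, ← Finset.sum_mul]
  rw [R2_tr h]
  have e : ∑ a, ∑ b, ric R a b * R2 R b a = i4 R := by
    unfold R2 i4
    simp only [Finset.mul_sum, mul_assoc]
  rw [e]; unfold sc; ring

theorem Q4_ad {R : T4} (h : IsCurv R) : Q4 (fun x => ax R x * dx R x) := by
  refine (Q4.qq (ric R) (R2 R)).congr fun x => ?_
  rw [dx_qf h]; rfl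

/-- `|R_x|^2` -/
def rx (R : T4) : (Fin 6 → ℝ) → ℝ := qf (RR R)

theorem Av_n2r (R : T4) : Av (fun x => nn x ^ 2 * rx R x) = 80 * n4 R := by
  unfold rx
  rw [Av_nn1, RR_tr]

theorem Av_ar (R : T4) : Av (fun x => ax R x * rx R x) =
    sc R * n4 R + 2 * i6 R := by
  unfold ax rx
  rw [Av_qf2]
  have key : ∀ a b, ric R a a * RR R b b + ric R a b * RR R a b + ric R a b * RR R b a =
      ric R a a * RR R b b + 2 * (ric R a b * RR R a b) := by
    intro a b; rw [RR_symm b a]; ring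
  simp only [key, Finset.sum_add_distrib, ← Finset.mul_sum, ← Finset.sum_mul]
  rw [RR_tr]
  unfold i6 sc; ring

theorem Q4_ar (R : T4) : Q4 (fun x => ax R x * rx R x) := Q4.qq (ric R) (RR R)
theorem Q4_ab (R : T4) : Q4 (fun x => ax R x * bx R x) :=
  (Q4.qq (ric R) (Bm R)).congr fun x => by rw [bx_qf]; rfl
theorem Q4_aa (R : T4) : Q4 (fun x => ax R x * ax R x) := Q4.qq (ric R) (ric R)
theorem Q4_c (R : T4) : Q4 (cx R) := Q4.sum _ fun a => Q4.sum _ fun b => Q4.qq _ _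

/-- `J . Ric^2` -/
def e1x (R : T4) (x : Fin 6 → ℝ) : ℝ := JC R (R2 R) x
/-- `J . RR` -/
def h1x (R : T4) (x : Fin 6 → ℝ) : ℝ := JC R (RR R) x
/-- `J . Bm` -/
def g1x (R : T4) (x : Fin 6 → ℝ) : ℝ := JC R (Bm R) x

theorem Av_n2e1 {R : T4} (h : IsCurv R) : Av (fun x => nn x ^ 2 * e1x R x) = 80 * i4 R := by
  unfold e1x
  rw [Av_n2JC h]
  congr 1
  unfold R2 i4
  simp only [Finset.sum_mul]
  refine Finset.sum_congr rfl fun a _ => ?_
  rw [Finset.sum_comm]
  refine Finset.sum_congr rfl fun b _ => Finset.sum_congr rfl fun c _ => ?_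
  rw [ric_symm h a c]

theorem Av_n2h1 {R : T4} (h : IsCurv R) : Av (fun x => nn x ^ 2 * h1x R x) = 80 * i6 R := by
  unfold h1x
  rw [Av_n2JC h]
  congr 1
  unfold i6
  exact Finset.sum_congr rfl fun a _ => Finset.sum_congr rfl fun b _ => mul_comm _ _

theorem Av_n2g1 {R : T4} (h : IsCurv R) : Av (fun x => nn x ^ 2 * g1x R x) = 80 * i5 R := by
  unfold g1x
  rw [Av_n2JC h]
  congr 1
  rw [← i5_eq]
  exact Finset.sum_congr rfl fun a _ => Finset.sum_congr rfl fun b _ => mul_comm _ _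

/-- `u J u` -/
def e2x (R : T4) (x : Fin 6 → ℝ) : ℝ := ∑ a, ∑ b, Jf R a b x * (ux R x a * ux R x b)

theorem Q4_e2 (R : T4) : Q4 (e2x R) :=
  Q4.sum _ fun a => Q4.sum _ fun b => (Q4.qq _ _).congr fun x => by rw [uu_qf]; rfl


end Pool.Agent.H274R2
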