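import Pool.Agent.H274R2.Tab

/-! The remaining averages. -/

namespace Pool.Agent.H274R2

open Finset

theorem Av_e2 {R : T4} (h : IsCurv R) : Av (e2x R) = i4 R - i5 R := by
  have e : Av (e2x R) = ∑ a, ∑ b, Av (fun x => Jf R a b x *
      qf (fun p q => ric R a p * ric R b q) x) := by
    unfold e2x; rw [Av_sum]
    refine Finset.sum_congr rfl fun a _ => ?_
    rw [Av_sum]
    simp only [uu_qf]
  rw [e]
  unfold Jf
  simp only [Av_qf2, Finset.sum_add_distrib, t_e2_0 h, t_e2_1 h, t_e2_2 h]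
  ring

/-- `J . (Ric J)` -/
def f1x (R : T4) (x : Fin 6 → ℝ) : ℝ := ∑ a, ∑ b, ∑ c, ric R a c * (Jf R a b x * Jf R c b x)

theorem Q4_f1 (R : T4) : Q4 (f1x R) :=
  Q4.sum _ fun a => Q4.sum _ fun b => Q4.sum _ fun c => Q4.smul _ (Q4.qq _ _)

theorem Av_f1 {R : T4} (h : IsCurv R) : Av (f1x R) = i4 R + 3 / 2 * i6 R := by
  unfold f1x Jf
  simp only [Av_sum, Av_smul, Av_qf2, Finset.sum_add_distrib, Finset.mul_sum, mul_add,
    t_f1_0 h, t_f1_1 h, t_f1_2 h]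
  ring

/-- `Σ_e R_{axbe} u_e` -/
def P4 (R : T4) (a b : Fin 6) : (Fin 6 → ℝ) → ℝ := qf (fun p q => ∑ e, R a p b e * ric R e q)

def g2x (R : T4) (x : Fin 6 → ℝ) : ℝ := ∑ a, ∑ b, Jf R a b x * P4 R a b x

theorem Q4_g2 (R : T4) : Q4 (g2x R) :=
  Q4.sum _ fun a => Q4.sum _ fun b => Q4.qq _ _

theorem Av_g2 {R : T4} (h : IsCurv R) : Av (g2x R) = i5 R + 3 / 2 * i6 R := by
  unfold g2x Jf P4
  simp only [Av_sum, Av_qf2, Finset.sum_add_distrib, Finset.mul_sum,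
    t_g2_0 h, t_g2_1 h, t_g2_2 h]
  ring

/-- `Σ R_{xade} R_{xbde}` -/
def P1 (R : T4) (a b : Fin 6) : (Fin 6 → ℝ) → ℝ :=
  qf (fun p q => ∑ d, ∑ e, R p a d e * R q b d e)

def h2x (R : T4) (x : Fin 6 → ℝ) : ℝ := ∑ a, ∑ b, Jf R a b x * P1 R a b x

theorem Q4_h2 (R : T4) : Q4 (h2x R) :=
  Q4.sum _ fun a => Q4.sum _ fun b => Q4.qq _ _

theorem Av_h2 {R : T4} (h : IsCurv R) : Av (h2x R) = i6 R + 3 / 2 * i7 R := by
  unfold h2x Jf P1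
  simp only [Av_sum, Av_qf2, Finset.sum_add_distrib, Finset.mul_sum,
    t_h2_0 h, t_h2_1 h, t_h2_2 h]
  ring

/-- `Σ R_{xeac} R_{xebc}` -/
def P2 (R : T4) (a b : Fin 6) : (Fin 6 → ℝ) → ℝ :=
  qf (fun p q => ∑ e, ∑ c, R p e a c * R q e b c)

def h3x (R : T4) (x : Fin 6 → ℝ) : ℝ := ∑ a, ∑ b, Jf R a b x * P2 R a b x

theorem Q4_h3 (R : T4) : Q4 (h3x R) :=
  Q4.sum _ fun a => Q4.sum _ fun b => Q4.qq _ _

theorem Av_h3 {R : T4} (h : IsCurv R) : Av (h3x R) = i6 R + i7 R / 2 - i8 R := by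
  unfold h3x Jf P2
  simp only [Av_sum, Av_qf2, Finset.sum_add_distrib, Finset.mul_sum,
    t_h3_0 h, t_h3_1 h, t_h3_2 h]
  ring

/-- `Σ R_{acbe} J_{ce}` -/
def P5 (R : T4) (a b : Fin 6) : (Fin 6 → ℝ) → ℝ :=
  qf (fun p q => ∑ c, ∑ e, R a c b e * R p c q e)

def g3x (R : T4) (x : Fin 6 → ℝ) : ℝ := ∑ a, ∑ b, Jf R a b x * P5 R a b x

theorem Q4_g3 (R : T4) : Q4 (g3x R) :=
  Q4.sum _ fun a => Q4.sum _ fun b => Q4.qq _ _

theorem Av_g3 {R : T4} (h : IsCurv R) : Av (g3x R) = i5 R - i7 R / 4 + 2 * i8 R := by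
  unfold g3x Jf P5
  simp only [Av_sum, Av_qf2, Finset.sum_add_distrib, Finset.mul_sum,
    t_g3_0 h, t_g3_1 h, t_g3_2 h]
  ring

theorem Av_ac {R : T4} (h : IsCurv R) : Av (fun x => ax R x * cx R x) =
    sc R * nr R + 3 / 2 * (sc R * n4 R) + 4 * i5 R + 6 * i6 R := by
  have e : (fun x => ax R x * cx R x) = fun x => ∑ a, ∑ b, ax R x * Jf R a b x * Jf R a b x := by
    funext x
    unfold cx
    simp only [Finset.mul_sum, mul_assoc]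
  rw [e]
  simp only [Av_sum]
  unfold ax Jf
  simp only [Av_qf3, Finset.sum_add_distrib]
  simp only [mul_assoc,
    t_ac_0 h, t_ac_1 h, t_ac_2 h, t_ac_3 h, t_ac_4 h, t_ac_5 h, t_ac_6 h, t_ac_7 h,
    t_ac_8 h, t_ac_9 h, t_ac_10 h, t_ac_11 h, t_ac_12 h, t_ac_13 h, t_ac_14 h]
  ring

/-- `tr J^3` -/
def j3x (R : T4) (x : Fin 6 → ℝ) : ℝ := ∑ a, ∑ b, ∑ c, Jf R a b x * Jf R a c x * Jf R c b x

theorem Av_j3 {R : T4} (h : IsCurv R) : Av (j3x R) =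
    i4 R + 9 / 2 * i6 R + 7 / 2 * i7 R - i8 R := by
  unfold j3x
  simp only [Av_sum]
  unfold Jf
  simp only [Av_qf3]
  rw [sum6]
  simp only [mul_assoc]
  rw [t_j3_0 h, t_j3_1 h, t_j3_2 h, t_j3_3 h, t_j3_4 h, t_j3_5 h, t_j3_6 h, t_j3_7 h,
    t_j3_8 h, t_j3_9 h, t_j3_10 h, t_j3_11 h, t_j3_12 h, t_j3_13 h, t_j3_14 h]
  ring

end Pool.Agent.H274R2
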