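import Mathlib

/-!
A finitely supported probability on `ℝ^6` with independent coordinates whose moments agree with
those of the standard Gaussian up to degree six; Wick's formula up to degree six.
-/

namespace Pool.Agent.H274R2

open Finset

noncomputable def wt : Fin 7 → ℝ := ![1/180, 1/20, 1/4, 7/18, 1/4, 1/20, 1/180]
noncomputable def vl : Fin 7 → ℝ := ![-3, -2, -1, 0, 1, 2, 3]

noncomputable def Av (f : (Fin 6 → ℝ) → ℝ) : ℝ :=
  ∑ ω : Fin 6 → Fin 7, (∏ i, wt (ω i)) * f (fun i => vl (ω i))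

theorem wt_nonneg (k : Fin 7) : 0 ≤ wt k := by
  fin_cases k <;> simp [wt] <;> norm_num

theorem Av_add (f g : (Fin 6 → ℝ) → ℝ) : Av (fun x => f x + g x) = Av f + Av g := by
  simp [Av, mul_add, Finset.sum_add_distrib]

theorem Av_smul (c : ℝ) (f : (Fin 6 → ℝ) → ℝ) : Av (fun x => c * f x) = c * Av f := by
  simp only [Av, Finset.mul_sum]
  exact Finset.sum_congr rfl fun ω _ => by ring

theorem Av_sub (f g : (Fin 6 → ℝ) → ℝ) : Av (fun x => f x - g x) = Av f - Av g := by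
  simp [Av, mul_sub, Finset.sum_sub_distrib]

theorem Av_neg (f : (Fin 6 → ℝ) → ℝ) : Av (fun x => - f x) = - Av f := by
  simp [Av, Finset.sum_neg_distrib]

theorem Av_sum {ι : Type*} (s : Finset ι) (f : ι → (Fin 6 → ℝ) → ℝ) :
    Av (fun x => ∑ k ∈ s, f k x) = ∑ k ∈ s, Av (f k) := by
  simp only [Av, Finset.mul_sum]
  rw [Finset.sum_comm]

theorem Av_nonneg {f : (Fin 6 → ℝ) → ℝ} (h : ∀ x, 0 ≤ f x) : 0 ≤ Av f :=
  Finset.sum_nonneg fun _ _ => mul_nonneg (Finset.prod_nonneg fun _ _ => wt_nonneg _) (h _)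

/-- one dimensional moments -/
noncomputable def mo (k : ℕ) : ℝ := ∑ j : Fin 7, wt j * vl j ^ k

theorem mo0 : mo 0 = 1 := by simp [mo, Fin.sum_univ_succ, wt]; norm_num
theorem mo1 : mo 1 = 0 := by simp [mo, Fin.sum_univ_succ, wt, vl]
theorem mo2 : mo 2 = 1 := by simp [mo, Fin.sum_univ_succ, wt, vl]; norm_num
theorem mo3 : mo 3 = 0 := by simp [mo, Fin.sum_univ_succ, wt, vl]; norm_num
theorem mo4 : mo 4 = 3 := by simp [mo, Fin.sum_univ_succ, wt, vl]; norm_num
theorem mo5 : mo 5 = 0 := by simp [mo, Fin.sum_univ_succ, wt, vl]; norm_num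
theorem mo6 : mo 6 = 15 := by simp [mo, Fin.sum_univ_succ, wt, vl]; norm_num

theorem Av_pow (c : Fin 6 → ℕ) : Av (fun x => ∏ i, x i ^ c i) = ∏ i, mo (c i) := by
  unfold Av mo
  rw [Finset.prod_univ_sum]
  simp only [Fintype.piFinset_univ]
  refine Finset.sum_congr rfl fun ω _ => ?_
  rw [← Finset.prod_mul_distrib]

/-- value of the moment functional on a list of indices -/
noncomputable def Mo (l : List (Fin 6)) : ℝ := ∏ j, mo (l.count j)

theorem list_prod_eq (l : List (Fin 6)) (x : Fin 6 → ℝ) :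
    (l.map x).prod = ∏ j, x j ^ l.count j := by
  induction l with
  | nil => simp
  | cons a l ih =>
    rw [List.map_cons, List.prod_cons, ih]
    rw [← Finset.mul_prod_erase univ (fun j => x j ^ l.count j) (mem_univ a),
      ← Finset.mul_prod_erase univ (fun j => x j ^ (a :: l).count j) (mem_univ a), ← mul_assoc]
    congr 1
    · rw [List.count_cons_self, pow_succ']
    · refine Finset.prod_congr rfl fun j hj => ?_
      rw [List.count_cons_of_ne (Finset.ne_of_mem_erase hj).symm]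

theorem Av_list (l : List (Fin 6)) : Av (fun x => (l.map x).prod) = Mo l := by
  simp only [list_prod_eq]
  exact Av_pow _

/-- the product over the other indices -/
noncomputable def Mr (i : Fin 6) (l : List (Fin 6)) : ℝ := ∏ j ∈ univ.erase i, mo (l.count j)

theorem Mo_eq (i : Fin 6) (l : List (Fin 6)) : Mo l = mo (l.count i) * Mr i l := by
  unfold Mo Mr
  rw [Finset.mul_prod_erase univ (fun j => mo (l.count j)) (mem_univ i)]

theorem Mr_cons_self (i : Fin 6) (l : List (Fin 6)) : Mr i (i :: l) = Mr i l := by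
  unfold Mr
  refine Finset.prod_congr rfl fun j hj => ?_
  rw [List.count_cons_of_ne (Finset.ne_of_mem_erase hj).symm]

theorem Mr_perm (i : Fin 6) {l l' : List (Fin 6)} (h : l.Perm l') : Mr i l = Mr i l' := by
  unfold Mr
  exact Finset.prod_congr rfl fun j _ => by rw [h.count_eq]

theorem Mo_perm {l l' : List (Fin 6)} (h : l.Perm l') : Mo l = Mo l' := by
  unfold Mo
  exact Finset.prod_congr rfl fun j _ => by rw [h.count_eq]

/-- Kronecker delta -/
def dl (a b : Fin 6) : ℝ := if a = b then 1 else 0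

theorem Mo_nil : Mo [] = 1 := by simp [Mo, mo0]

theorem dl_Mo (i b : Fin 6) (l l' : List (Fin 6)) (h : l.Perm (b :: l')) :
    dl i b * Mo l' = if b = i then mo (l.count i - 1) * Mr i l else 0 := by
  unfold dl
  by_cases hb : b = i
  · subst hb
    simp only [if_true, one_mul]
    rw [Mo_eq b l', h.count_eq, List.count_cons_self, Mr_perm b h, Mr_cons_self]
    simp
  · rw [if_neg (fun h' => hb h'.symm), if_neg hb, zero_mul]

theorem Mo_cons_eq (i : Fin 6) (l : List (Fin 6)) :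
    Mo (i :: l) = mo (l.count i + 1) * Mr i l := by
  rw [Mo_eq i, Mr_cons_self, List.count_cons_self]

theorem Mo2 (a b : Fin 6) : Mo [a, b] = dl a b := by
  rw [Mo_cons_eq]
  have h1 := dl_Mo a b [b] [] (List.Perm.refl _)
  rw [Mo_nil, mul_one] at h1
  rw [h1]
  by_cases hb : b = a <;> simp [hb, mo1, mo2, mo0]

theorem Mo4 (a b c d : Fin 6) : Mo [a, b, c, d] =
    dl a b * Mo [c, d] + dl a c * Mo [b, d] + dl a d * Mo [b, c] := by
  rw [Mo_cons_eq]
  rw [dl_Mo a b [b, c, d] [c, d] (List.Perm.refl _),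
    dl_Mo a c [b, c, d] [b, d] (by exact List.Perm.swap _ _ _),
    dl_Mo a d [b, c, d] [b, c] (by
      exact ((List.Perm.cons b (List.Perm.swap d c [])).trans (List.Perm.swap d b [c])))]
  by_cases hb : b = a <;> by_cases hc : c = a <;> by_cases hd : d = a <;>
    simp [hb, hc, hd, mo1, mo2, mo0, mo3, mo4] <;> ring

theorem Mo6 (a b c d e f : Fin 6) : Mo [a, b, c, d, e, f] =
    dl a b * Mo [c, d, e, f] + dl a c * Mo [b, d, e, f] + dl a d * Mo [b, c, e, f]
      + dl a e * Mo [b, c, d, f] + dl a f * Mo [b, c, d, e] := by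
  rw [Mo_cons_eq]
  rw [dl_Mo a b [b, c, d, e, f] [c, d, e, f] (List.Perm.refl _),
    dl_Mo a c [b, c, d, e, f] [b, d, e, f] (by exact List.Perm.swap _ _ _),
    dl_Mo a d [b, c, d, e, f] [b, c, e, f] (by
      exact ((List.Perm.cons b (List.Perm.swap d c _)).trans (List.Perm.swap d b _))),
    dl_Mo a e [b, c, d, e, f] [b, c, d, f] (by
      exact ((List.Perm.cons b ((List.Perm.cons c (List.Perm.swap e d _)).trans
        (List.Perm.swap e c _))).trans (List.Perm.swap e b _))),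
    dl_Mo a f [b, c, d, e, f] [b, c, d, e] (by
      exact ((List.Perm.cons b ((List.Perm.cons c ((List.Perm.cons d (List.Perm.swap f e _)).trans
        (List.Perm.swap f d _))).trans
        (List.Perm.swap f c _))).trans (List.Perm.swap f b _)))]
  by_cases hb : b = a <;> by_cases hc : c = a <;> by_cases hd : d = a <;>
    by_cases he : e = a <;> by_cases hf : f = a <;>
    simp [hb, hc, hd, he, hf, mo1, mo2, mo0, mo3, mo4, mo5, mo6] <;> ring

theorem Av2 (a b : Fin 6) : Av (fun x => x a * x b) = dl a b := by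
  have := Av_list [a, b]
  rw [Mo2] at this
  simpa using this

theorem Av4 (a b c d : Fin 6) : Av (fun x => x a * x b * (x c * x d)) =
    dl a b * dl c d + dl a c * dl b d + dl a d * dl b c := by
  have := Av_list [a, b, c, d]
  rw [Mo4] at this
  simp only [Mo2] at this
  rw [← this]
  congr 1; funext x; simp; ring

theorem Av6 (a b c d e f : Fin 6) : Av (fun x => x a * x b * (x c * x d) * (x e * x f)) =
    dl a b * (dl c d * dl e f + dl c e * dl d f + dl c f * dl d e)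
    + dl a c * (dl b d * dl e f + dl b e * dl d f + dl b f * dl d e)
    + dl a d * (dl b c * dl e f + dl b e * dl c f + dl b f * dl c e)
    + dl a e * (dl b c * dl d f + dl b d * dl c f + dl b f * dl c d)
    + dl a f * (dl b c * dl d e + dl b d * dl c e + dl b e * dl c d) := by
  have := Av_list [a, b, c, d, e, f]
  rw [Mo6] at this
  simp only [Mo4, Mo2] at this
  rw [← this]
  congr 1; funext x; simp; ring




theorem coll (F : Fin 6 → ℝ) (a : Fin 6) : ∑ b, dl a b * F b = F a := by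
  simp [dl]

theorem sum4 (F0 F1 F2 : Fin 6 → Fin 6 → Fin 6 → Fin 6 → ℝ) :
    ∑ a, ∑ b, ∑ c, ∑ d, (F0 a b c d + F1 a b c d + F2 a b c d) =
      (∑ a, ∑ b, ∑ c, ∑ d, F0 a b c d) + (∑ a, ∑ b, ∑ c, ∑ d, F1 a b c d) + (∑ a, ∑ b, ∑ c, ∑ d, F2 a b c d) := by
  simp only [Finset.sum_add_distrib]

theorem sum6 (F0 F1 F2 F3 F4 F5 F6 F7 F8 F9 F10 F11 F12 F13 F14 : Fin 6 → Fin 6 → Fin 6 → Fin 6 → Fin 6 → Fin 6 → ℝ) :
    ∑ a, ∑ b, ∑ c, ∑ d, ∑ e, ∑ f, (F0 a b c d e f + F1 a b c d e f + F2 a b c d e f + F3 a b c d e f + F4 a b c d e f + F5 a b c d e f + F6 a b c d e f + F7 a b c d e f + F8 a b c d e f + F9 a b c d e f + F10 a b c d e f + F11 a b c d e f + F12 a b c d e f + F13 a b c d e f + F14 a b c d e f) =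
      (∑ a, ∑ b, ∑ c, ∑ d, ∑ e, ∑ f, F0 a b c d e f) + (∑ a, ∑ b, ∑ c, ∑ d, ∑ e, ∑ f, F1 a b c d e f) + (∑ a, ∑ b, ∑ c, ∑ d, ∑ e, ∑ f, F2 a b c d e f) + (∑ a, ∑ b, ∑ c, ∑ d, ∑ e, ∑ f, F3 a b c d e f) + (∑ a, ∑ b, ∑ c, ∑ d, ∑ e, ∑ f, F4 a b c d e f) + (∑ a, ∑ b, ∑ c, ∑ d, ∑ e, ∑ f, F5 a b c d e f) + (∑ a, ∑ b, ∑ c, ∑ d, ∑ e, ∑ f, F6 a b c d e f) + (∑ a, ∑ b, ∑ c, ∑ d, ∑ e, ∑ f, F7 a b c d e f) + (∑ a, ∑ b, ∑ c, ∑ d, ∑ e, ∑ f, F8 a b c d e f) + (∑ a, ∑ b, ∑ c, ∑ d, ∑ e, ∑ f, F9 a b c d e f) + (∑ a, ∑ b, ∑ c, ∑ d, ∑ e, ∑ f, F10 a b c d e f) + (∑ a, ∑ b, ∑ c, ∑ d, ∑ e, ∑ f, F11 a b c d e f) + (∑ a, ∑ b, ∑ c, ∑ d, ∑ e, ∑ f, F12 a b c d e f) + (∑ a, ∑ b, ∑ c, ∑ d, ∑ e, ∑ f, F13 a b c d e f) + (∑ a, ∑ b, ∑ c, ∑ d, ∑ e, ∑ f, F14 a b c d e f) := by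
  simp only [Finset.sum_add_distrib]

theorem Av_T4 (T : Fin 6 → Fin 6 → Fin 6 → Fin 6 → ℝ) :
    Av (fun x => ∑ a, ∑ b, ∑ c, ∑ d, T a b c d * (x a * x b * (x c * x d))) =
      ∑ a, ∑ b, (T a a b b
        + T a b a b
        + T a b b a) := by
  have h0 : ∑ a, ∑ b, ∑ c, ∑ d, dl a b * (dl c d * (T a b c d)) =
      ∑ a, ∑ b, T a a b b := by
    simp only [← Finset.mul_sum, coll]
  have h1 : ∑ a, ∑ b, ∑ c, ∑ d, dl a c * (dl b d * (T a b c d)) =
      ∑ a, ∑ b, T a b a b := by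
    simp only [← Finset.mul_sum, coll]
  have h2 : ∑ a, ∑ b, ∑ c, ∑ d, dl b c * (dl a d * (T a b c d)) =
      ∑ a, ∑ b, T a b b a := by
    simp only [← Finset.mul_sum, coll]
  have key : ∀ a b c d : Fin 6, T a b c d * (dl a b * dl c d + dl a c * dl b d + dl a d * dl b c) =
      dl a b * (dl c d * (T a b c d))
        + dl a c * (dl b d * (T a b c d))
        + dl b c * (dl a d * (T a b c d)) := by
    intros; ring
  simp only [Av_sum, Av_smul, Av4]
  calc _ = ∑ a, ∑ b, ∑ c, ∑ d, (dl a b * (dl c d * (T a b c d))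
        + dl a c * (dl b d * (T a b c d))
        + dl b c * (dl a d * (T a b c d))) := by
        refine Finset.sum_congr rfl fun _ _ => Finset.sum_congr rfl fun _ _ => Finset.sum_congr rfl fun _ _ => Finset.sum_congr rfl fun _ _ => ?_
        exact key _ _ _ _
    _ = _ := by
      rw [sum4, h0, h1, h2]
      simp only [Finset.sum_add_distrib]

theorem Av_T6 (T : Fin 6 → Fin 6 → Fin 6 → Fin 6 → Fin 6 → Fin 6 → ℝ) :
    Av (fun x => ∑ a, ∑ b, ∑ c, ∑ d, ∑ e, ∑ f, T a b c d e f * (x a * x b * (x c * x d) * (x e * x f))) =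
      ∑ a, ∑ b, ∑ c, (T a a b b c c
        + T a a b c b c
        + T a a b c c b
        + T a b a b c c
        + T a b a c b c
        + T a b a c c b
        + T a b b a c c
        + T a b c a b c
        + T a b c a c b
        + T a b b c a c
        + T a b c b a c
        + T a b c c a b
        + T a b b c c a
        + T a b c b c a
        + T a b c c b a) := by
  have h0 : ∑ a, ∑ b, ∑ c, ∑ d, ∑ e, ∑ f, dl a b * (dl c d * (dl e f * (T a b c d e f))) =
      ∑ a, ∑ b, ∑ c, T a a b b c c := by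
    simp only [← Finset.mul_sum, coll]
  have h1 : ∑ a, ∑ b, ∑ c, ∑ d, ∑ e, ∑ f, dl a b * (dl c e * (dl d f * (T a b c d e f))) =
      ∑ a, ∑ b, ∑ c, T a a b c b c := by
    simp only [← Finset.mul_sum, coll]
  have h2 : ∑ a, ∑ b, ∑ c, ∑ d, ∑ e, ∑ f, dl a b * (dl d e * (dl c f * (T a b c d e f))) =
      ∑ a, ∑ b, ∑ c, T a a b c c b := by
    simp only [← Finset.mul_sum, coll]
  have h3 : ∑ a, ∑ b, ∑ c, ∑ d, ∑ e, ∑ f, dl a c * (dl b d * (dl e f * (T a b c d e f))) =
      ∑ a, ∑ b, ∑ c, T a b a b c c := by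
    simp only [← Finset.mul_sum, coll]
  have h4 : ∑ a, ∑ b, ∑ c, ∑ d, ∑ e, ∑ f, dl a c * (dl b e * (dl d f * (T a b c d e f))) =
      ∑ a, ∑ b, ∑ c, T a b a c b c := by
    simp only [← Finset.mul_sum, coll]
  have h5 : ∑ a, ∑ b, ∑ c, ∑ d, ∑ e, ∑ f, dl a c * (dl d e * (dl b f * (T a b c d e f))) =
      ∑ a, ∑ b, ∑ c, T a b a c c b := by
    simp only [← Finset.mul_sum, coll]
  have h6 : ∑ a, ∑ b, ∑ c, ∑ d, ∑ e, ∑ f, dl b c * (dl a d * (dl e f * (T a b c d e f))) =
      ∑ a, ∑ b, ∑ c, T a b b a c c := by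
    simp only [← Finset.mul_sum, coll]
  have h7 : ∑ a, ∑ b, ∑ c, ∑ d, ∑ e, ∑ f, dl a d * (dl b e * (dl c f * (T a b c d e f))) =
      ∑ a, ∑ b, ∑ c, T a b c a b c := by
    simp only [← Finset.mul_sum, coll]
  have h8 : ∑ a, ∑ b, ∑ c, ∑ d, ∑ e, ∑ f, dl a d * (dl c e * (dl b f * (T a b c d e f))) =
      ∑ a, ∑ b, ∑ c, T a b c a c b := by
    simp only [← Finset.mul_sum, coll]
  have h9 : ∑ a, ∑ b, ∑ c, ∑ d, ∑ e, ∑ f, dl b c * (dl a e * (dl d f * (T a b c d e f))) =
      ∑ a, ∑ b, ∑ c, T a b b c a c := by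
    simp only [← Finset.mul_sum, coll]
  have h10 : ∑ a, ∑ b, ∑ c, ∑ d, ∑ e, ∑ f, dl b d * (dl a e * (dl c f * (T a b c d e f))) =
      ∑ a, ∑ b, ∑ c, T a b c b a c := by
    simp only [← Finset.mul_sum, coll]
  have h11 : ∑ a, ∑ b, ∑ c, ∑ d, ∑ e, ∑ f, dl c d * (dl a e * (dl b f * (T a b c d e f))) =
      ∑ a, ∑ b, ∑ c, T a b c c a b := by
    simp only [← Finset.mul_sum, coll]
  have h12 : ∑ a, ∑ b, ∑ c, ∑ d, ∑ e, ∑ f, dl b c * (dl d e * (dl a f * (T a b c d e f))) =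
      ∑ a, ∑ b, ∑ c, T a b b c c a := by
    simp only [← Finset.mul_sum, coll]
  have h13 : ∑ a, ∑ b, ∑ c, ∑ d, ∑ e, ∑ f, dl b d * (dl c e * (dl a f * (T a b c d e f))) =
      ∑ a, ∑ b, ∑ c, T a b c b c a := by
    simp only [← Finset.mul_sum, coll]
  have h14 : ∑ a, ∑ b, ∑ c, ∑ d, ∑ e, ∑ f, dl c d * (dl b e * (dl a f * (T a b c d e f))) =
      ∑ a, ∑ b, ∑ c, T a b c c b a := by
    simp only [← Finset.mul_sum, coll]
  have key : ∀ a b c d e f : Fin 6, T a b c d e f * (dl a b * (dl c d * dl e f + dl c e * dl d f + dl c f * dl d e)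
    + dl a c * (dl b d * dl e f + dl b e * dl d f + dl b f * dl d e)
    + dl a d * (dl b c * dl e f + dl b e * dl c f + dl b f * dl c e)
    + dl a e * (dl b c * dl d f + dl b d * dl c f + dl b f * dl c d)
    + dl a f * (dl b c * dl d e + dl b d * dl c e + dl b e * dl c d)) =
      dl a b * (dl c d * (dl e f * (T a b c d e f)))
        + dl a b * (dl c e * (dl d f * (T a b c d e f)))
        + dl a b * (dl d e * (dl c f * (T a b c d e f)))
        + dl a c * (dl b d * (dl e f * (T a b c d e f)))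
        + dl a c * (dl b e * (dl d f * (T a b c d e f)))
        + dl a c * (dl d e * (dl b f * (T a b c d e f)))
        + dl b c * (dl a d * (dl e f * (T a b c d e f)))
        + dl a d * (dl b e * (dl c f * (T a b c d e f)))
        + dl a d * (dl c e * (dl b f * (T a b c d e f)))
        + dl b c * (dl a e * (dl d f * (T a b c d e f)))
        + dl b d * (dl a e * (dl c f * (T a b c d e f)))
        + dl c d * (dl a e * (dl b f * (T a b c d e f)))
        + dl b c * (dl d e * (dl a f * (T a b c d e f)))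
        + dl b d * (dl c e * (dl a f * (T a b c d e f)))
        + dl c d * (dl b e * (dl a f * (T a b c d e f))) := by
    intros; ring
  simp only [Av_sum, Av_smul, Av6]
  calc _ = ∑ a, ∑ b, ∑ c, ∑ d, ∑ e, ∑ f, (dl a b * (dl c d * (dl e f * (T a b c d e f)))
        + dl a b * (dl c e * (dl d f * (T a b c d e f)))
        + dl a b * (dl d e * (dl c f * (T a b c d e f)))
        + dl a c * (dl b d * (dl e f * (T a b c d e f)))
        + dl a c * (dl b e * (dl d f * (T a b c d e f)))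
        + dl a c * (dl d e * (dl b f * (T a b c d e f)))
        + dl b c * (dl a d * (dl e f * (T a b c d e f)))
        + dl a d * (dl b e * (dl c f * (T a b c d e f)))
        + dl a d * (dl c e * (dl b f * (T a b c d e f)))
        + dl b c * (dl a e * (dl d f * (T a b c d e f)))
        + dl b d * (dl a e * (dl c f * (T a b c d e f)))
        + dl c d * (dl a e * (dl b f * (T a b c d e f)))
        + dl b c * (dl d e * (dl a f * (T a b c d e f)))
        + dl b d * (dl c e * (dl a f * (T a b c d e f)))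
        + dl c d * (dl b e * (dl a f * (T a b c d e f)))) := by
        refine Finset.sum_congr rfl fun _ _ => Finset.sum_congr rfl fun _ _ => Finset.sum_congr rfl fun _ _ => Finset.sum_congr rfl fun _ _ => Finset.sum_congr rfl fun _ _ => Finset.sum_congr rfl fun _ _ => ?_
        exact key _ _ _ _ _ _
    _ = _ := by
      rw [sum6, h0, h1, h2, h3, h4, h5, h6, h7, h8, h9, h10, h11, h12, h13, h14]
      simp only [Finset.sum_add_distrib]

/-- quadratic form of a matrix -/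
def qf (M : Fin 6 → Fin 6 → ℝ) (x : Fin 6 → ℝ) : ℝ := ∑ a, ∑ b, M a b * (x a * x b)

theorem Av_qf (M : Fin 6 → Fin 6 → ℝ) : Av (qf M) = ∑ a, M a a := by
  unfold qf
  rw [Av_sum]
  refine Finset.sum_congr rfl fun a _ => ?_
  rw [Av_sum]
  simp only [Av_smul, Av2, dl]
  simp

theorem qf_mul (M N : Fin 6 → Fin 6 → ℝ) (x : Fin 6 → ℝ) : qf M x * qf N x =
    ∑ a, ∑ b, ∑ c, ∑ d, (M a b * N c d) * (x a * x b * (x c * x d)) := by
  unfold qf
  simp only [Finset.sum_mul]
  refine Finset.sum_congr rfl fun a _ => Finset.sum_congr rfl fun b _ => ?_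
  simp only [Finset.mul_sum]
  refine Finset.sum_congr rfl fun c _ => Finset.sum_congr rfl fun d _ => by ring

theorem qf_mul3 (M N P : Fin 6 → Fin 6 → ℝ) (x : Fin 6 → ℝ) : qf M x * qf N x * qf P x =
    ∑ a, ∑ b, ∑ c, ∑ d, ∑ e, ∑ f, (M a b * N c d * P e f) *
      (x a * x b * (x c * x d) * (x e * x f)) := by
  rw [qf_mul]
  simp only [Finset.sum_mul]
  refine Finset.sum_congr rfl fun a _ => Finset.sum_congr rfl fun b _ =>
    Finset.sum_congr rfl fun c _ => Finset.sum_congr rfl fun d _ => ?_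
  unfold qf
  simp only [Finset.mul_sum]
  refine Finset.sum_congr rfl fun e _ => Finset.sum_congr rfl fun f _ => by ring

end Pool.Agent.H274R2
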