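import Pool.Agent.H274R2.Ric

/-! Evaluation of the complete contractions of three curvature tensors. -/

namespace Pool.Agent.H274R2

open Finset

abbrev T4 := Fin 6 → Fin 6 → Fin 6 → Fin 6 → ℝ

theorem g3_pos {R : T4} (h : IsCurv R) (os : List Op)
    (s t : Fin 6 → Fin 6) (l l' : Lab) (h1 : ∀ k, s (t k) = k) (h2 : ∀ k, t (s k) = k)
    (h3 : ∀ k, l' k = s (run os l k)) (h4 : rsg os = false) : g3 R l' = g3 R l := by
  rw [g3_eq h os s t l l' h1 h2 h3, h4]; simp [sgb]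

theorem g3_neg {R : T4} (h : IsCurv R) (os : List Op)
    (s t : Fin 6 → Fin 6) (l l' : Lab) (h1 : ∀ k, s (t k) = k) (h2 : ∀ k, t (s k) = k)
    (h3 : ∀ k, l' k = s (run os l k)) (h4 : rsg os = true) : g3 R l' = - g3 R l := by
  rw [g3_eq h os s t l l' h1 h2 h3, h4]; simp [sgb]

theorem g3_zero {R : T4} (h : IsCurv R) (os : List Op)
    (s t : Fin 6 → Fin 6) (l : Lab) (h1 : ∀ k, s (t k) = k) (h2 : ∀ k, t (s k) = k)
    (h3 : ∀ k, l k = s (run os l k)) (h4 : rsg os = true) : g3 R l = 0 := by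
  have := g3_neg h os s t l l h1 h2 h3 h4
  linarith


theorem g_s3 {R : T4} (_h : IsCurv R) : g3 R ![0, 1, 0, 1, 2, 3, 2, 3, 4, 5, 4, 5] = sc R ^ 3 := by
  refine (nest6 (fun a b c d e f => R a b a b * R c d c d * R e f e f)).trans ?_
  simp only [← Finset.mul_sum, ← Finset.sum_mul]
  unfold sc ric; ring


theorem g_sQ {R : T4} (_h : IsCurv R) : g3 R ![0, 1, 0, 1, 2, 4, 3, 4, 2, 5, 3, 5] = sc R * nr R := by
  refine (nest6 (fun a b c d e f => R a b a b * R c e d e * R c f d f)).trans ?_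
  simp only [mul_assoc, ← Finset.mul_sum, ← Finset.sum_mul]
  unfold sc nr ric; simp only [← Finset.mul_sum, ← Finset.sum_mul, sq]


theorem g_sN {R : T4} (_h : IsCurv R) : g3 R ![0, 1, 0, 1, 2, 3, 4, 5, 2, 3, 4, 5] = sc R * n4 R := by
  refine (nest6 (fun a b c d e f => R a b a b * R c d e f * R c d e f)).trans ?_
  simp only [mul_assoc, ← Finset.mul_sum, ← Finset.sum_mul]
  unfold sc n4 ric; simp only [← Finset.mul_sum, ← Finset.sum_mul, sq]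


theorem g_sN2 {R : T4} (h : IsCurv R) : g3 R ![0, 1, 0, 1, 2, 3, 4, 5, 2, 5, 4, 3] = sc R * n4 R / 2 := by
  refine (nest6 (fun a b c d e f => R a b a b * R c d e f * R c f e d)).trans ?_
  simp only [mul_assoc, ← Finset.mul_sum, ← Finset.sum_mul]
  have e : ∀ p, (∑ i, ∑ j, ∑ k, R p i j k * R p k j i) = RR R p p / 2 := fun p => RR_a h p p
  simp only [e, RR, sc, ric, n4, sq, ← Finset.sum_div]
  ring


theorem g_4 {R : T4} (_h : IsCurv R) : g3 R ![0, 3, 1, 3, 1, 4, 2, 4, 2, 5, 0, 5] = i4 R := by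
  refine (nest6 (fun a b c d e f => R a d b d * R b e c e * R c f a f)).trans ?_
  simp only [mul_assoc, ← Finset.mul_sum, ← Finset.sum_mul]
  unfold i4 ric; simp only [← Finset.mul_sum, ← Finset.sum_mul, mul_assoc]


theorem g_5 {R : T4} (_h : IsCurv R) : g3 R ![0, 4, 1, 4, 2, 5, 3, 5, 0, 2, 1, 3] = i5 R := by
  refine (nest6 (fun a b c d e f => R a e b e * R c f d f * R a c b d)).trans ?_
  unfold i5 ric
  refine Finset.sum_congr rfl fun a _ => Finset.sum_congr rfl fun b _ =>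
    Finset.sum_congr rfl fun c _ => Finset.sum_congr rfl fun d _ => ?_
  simp only [← Finset.mul_sum, ← Finset.sum_mul]


theorem g_6 {R : T4} (_h : IsCurv R) : g3 R ![0, 5, 1, 5, 0, 2, 3, 4, 1, 2, 3, 4] = i6 R := by
  refine (nest6 (fun a b c d e f => R a f b f * R a c d e * R b c d e)).trans ?_
  unfold i6 ric RR
  refine Finset.sum_congr rfl fun a _ => Finset.sum_congr rfl fun b _ => ?_
  simp only [Finset.mul_sum, Finset.sum_mul, mul_assoc]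


theorem g_62 {R : T4} (h : IsCurv R) : g3 R ![0, 5, 1, 5, 0, 2, 3, 4, 1, 4, 3, 2] = i6 R / 2 := by
  refine (nest6 (fun a b c d e f => R a f b f * R a c d e * R b e d c)).trans ?_
  have e : ∀ p q, (∑ i, ∑ j, ∑ k, R p i j k * R q k j i) = RR R p q / 2 := fun p q => RR_a h p q
  have e2 : i6 R / 2 = ∑ a, ∑ b, ric R a b * (RR R a b / 2) := by
    unfold i6; simp only [Finset.sum_div]
    exact Finset.sum_congr rfl fun a _ => Finset.sum_congr rfl fun b _ => by ring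
  rw [e2]; simp only [← e]; unfold ric
  refine Finset.sum_congr rfl fun a _ => Finset.sum_congr rfl fun b _ => ?_
  simp only [Finset.mul_sum, Finset.sum_mul, mul_assoc]


theorem g_7 {R : T4} (_h : IsCurv R) : g3 R ![0, 1, 2, 3, 2, 3, 4, 5, 4, 5, 0, 1] = i7 R :=
  nest6 (fun a b c d e f => R a b c d * R c d e f * R e f a b)


theorem g_8 {R : T4} (_h : IsCurv R) : g3 R ![0, 2, 1, 3, 2, 4, 3, 5, 4, 0, 5, 1] = i8 R :=
  nest6 (fun a b c d e f => R a c b d * R c e d f * R e a f b)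


theorem g_7h {R : T4} (h : IsCurv R) : g3 R ![0, 1, 2, 3, 0, 1, 4, 5, 2, 4, 3, 5] = i7 R / 2 := by
  have b := g3_bi h ![2, 4, 3, 5, 0, 1, 2, 3, 0, 1, 4, 5]
  have e0 : g3 R ![2, 4, 3, 5, 0, 1, 2, 3, 0, 1, 4, 5] =  g3 R ![0, 1, 2, 3, 0, 1, 4, 5, 2, 4, 3, 5] :=
    g3_pos h [.Y, .X] ![0, 1, 2, 3, 4, 5] ![0, 1, 2, 3, 4, 5] _ _ (by decide) (by decide) (by decide) (by decide)
  have e1 : g3 R (![2, 4, 3, 5, 0, 1, 2, 3, 0, 1, 4, 5] ∘ ![1, 2, 0, 3, 4, 5, 6, 7, 8, 9, 10, 11]) =  g3 R ![0, 1, 2, 3, 0, 1, 4, 5, 2, 4, 3, 5] :=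
    g3_pos h [.A 2, .B 0, .Y, .X] ![0, 1, 3, 2, 4, 5] ![0, 1, 3, 2, 4, 5] _ _ (by decide) (by decide) (by decide) (by decide)
  have e2 : g3 R (![2, 4, 3, 5, 0, 1, 2, 3, 0, 1, 4, 5] ∘ ![2, 0, 1, 3, 4, 5, 6, 7, 8, 9, 10, 11]) = - g3 R ![0, 1, 2, 3, 2, 3, 4, 5, 4, 5, 0, 1] :=
    g3_neg h [.A 0, .P 1, .Y] ![2, 3, 4, 5, 0, 1] ![4, 5, 0, 1, 2, 3] _ _ (by decide) (by decide) (by decide) (by decide)
  rw [e0, e1, e2, g_7 h] at b
  linarith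


theorem g_7q {R : T4} (h : IsCurv R) : g3 R ![0, 1, 2, 3, 0, 2, 4, 5, 1, 4, 3, 5] = i7 R / 4 := by
  have b := g3_bi h ![0, 1, 2, 3, 0, 2, 4, 5, 1, 4, 3, 5]
  have e0 : g3 R ![0, 1, 2, 3, 0, 2, 4, 5, 1, 4, 3, 5] =  g3 R ![0, 1, 2, 3, 0, 2, 4, 5, 1, 4, 3, 5] :=
    g3_pos h [] ![0, 1, 2, 3, 4, 5] ![0, 1, 2, 3, 4, 5] _ _ (by decide) (by decide) (by decide) (by decide)
  have e1 : g3 R (![0, 1, 2, 3, 0, 2, 4, 5, 1, 4, 3, 5] ∘ ![1, 2, 0, 3, 4, 5, 6, 7, 8, 9, 10, 11]) =  g3 R ![0, 1, 2, 3, 0, 2, 4, 5, 1, 4, 3, 5] :=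
    g3_pos h [.A 0, .A 1] ![2, 1, 0, 3, 4, 5] ![2, 1, 0, 3, 4, 5] _ _ (by decide) (by decide) (by decide) (by decide)
  have e2 : g3 R (![0, 1, 2, 3, 0, 2, 4, 5, 1, 4, 3, 5] ∘ ![2, 0, 1, 3, 4, 5, 6, 7, 8, 9, 10, 11]) = - g3 R ![0, 1, 2, 3, 0, 1, 4, 5, 2, 4, 3, 5] :=
    g3_neg h [.A 0] ![0, 2, 1, 3, 4, 5] ![0, 2, 1, 3, 4, 5] _ _ (by decide) (by decide) (by decide) (by decide)
  rw [e0, e1, e2, g_7h h] at b
  linarith


theorem g_8b {R : T4} (h : IsCurv R) : g3 R ![0, 1, 2, 3, 0, 4, 2, 5, 1, 5, 3, 4] = i8 R - i7 R / 4 := by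
  have b := g3_bi h ![0, 1, 2, 3, 0, 4, 2, 5, 1, 5, 3, 4]
  have e0 : g3 R ![0, 1, 2, 3, 0, 4, 2, 5, 1, 5, 3, 4] =  g3 R ![0, 1, 2, 3, 0, 4, 2, 5, 1, 5, 3, 4] :=
    g3_pos h [] ![0, 1, 2, 3, 4, 5] ![0, 1, 2, 3, 4, 5] _ _ (by decide) (by decide) (by decide) (by decide)
  have e1 : g3 R (![0, 1, 2, 3, 0, 4, 2, 5, 1, 5, 3, 4] ∘ ![1, 2, 0, 3, 4, 5, 6, 7, 8, 9, 10, 11]) = - g3 R ![0, 2, 1, 3, 2, 4, 3, 5, 4, 0, 5, 1] :=
    g3_neg h [.A 2, .B 0, .B 2, .P 1] ![1, 3, 2, 0, 5, 4] ![3, 0, 2, 1, 5, 4] _ _ (by decide) (by decide) (by decide) (by decide)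
  have e2 : g3 R (![0, 1, 2, 3, 0, 4, 2, 5, 1, 5, 3, 4] ∘ ![2, 0, 1, 3, 4, 5, 6, 7, 8, 9, 10, 11]) =  g3 R ![0, 1, 2, 3, 0, 2, 4, 5, 1, 4, 3, 5] :=
    g3_pos h [.A 2, .B 2, .P 0, .X] ![2, 5, 0, 4, 1, 3] ![2, 4, 0, 5, 3, 1] _ _ (by decide) (by decide) (by decide) (by decide)
  rw [e0, e1, e2, g_8 h, g_7q h] at b
  linarith


end Pool.Agent.H274R2
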