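import Mathlib

/-! Complete contractions of three curvature tensors, indexed by labelled slots. -/

namespace Pool.Agent.H274R2

open Finset

/-- Algebraic curvature tensors (components in an orthonormal basis). -/
structure IsCurv {ι : Type} (R : ι → ι → ι → ι → ℝ) : Prop where
  a1 : ∀ i j k l, R j i k l = - R i j k l
  a2 : ∀ i j k l, R i j l k = - R i j k l
  pr : ∀ i j k l, R k l i j = R i j k l
  bi : ∀ i j k l, R i j k l + R j k i l + R k i j l = 0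

abbrev Lab := Fin 12 → Fin 6

/-- the product of three components with slots labelled by `l` and labels evaluated by `i` -/
def tri (R : Fin 6 → Fin 6 → Fin 6 → Fin 6 → ℝ) (l : Lab) (i : Fin 6 → Fin 6) : ℝ :=
  R (i (l 0)) (i (l 1)) (i (l 2)) (i (l 3)) * R (i (l 4)) (i (l 5)) (i (l 6)) (i (l 7)) *
    R (i (l 8)) (i (l 9)) (i (l 10)) (i (l 11))

def g3 (R : Fin 6 → Fin 6 → Fin 6 → Fin 6 → ℝ) (l : Lab) : ℝ := ∑ i : Fin 6 → Fin 6, tri R l i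

/-- symmetry moves of the slots -/
inductive Op
  | A (k : Fin 3) | B (k : Fin 3) | P (k : Fin 3) | X | Y

def Op.pos : Op → Fin 12 → Fin 12
  | .A 0 => ![1, 0, 2, 3, 4, 5, 6, 7, 8, 9, 10, 11]
  | .A 1 => ![0, 1, 2, 3, 5, 4, 6, 7, 8, 9, 10, 11]
  | .A 2 => ![0, 1, 2, 3, 4, 5, 6, 7, 9, 8, 10, 11]
  | .B 0 => ![0, 1, 3, 2, 4, 5, 6, 7, 8, 9, 10, 11]
  | .B 1 => ![0, 1, 2, 3, 4, 5, 7, 6, 8, 9, 10, 11]
  | .B 2 => ![0, 1, 2, 3, 4, 5, 6, 7, 8, 9, 11, 10]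
  | .P 0 => ![2, 3, 0, 1, 4, 5, 6, 7, 8, 9, 10, 11]
  | .P 1 => ![0, 1, 2, 3, 6, 7, 4, 5, 8, 9, 10, 11]
  | .P 2 => ![0, 1, 2, 3, 4, 5, 6, 7, 10, 11, 8, 9]
  | .X => ![4, 5, 6, 7, 0, 1, 2, 3, 8, 9, 10, 11]
  | .Y => ![0, 1, 2, 3, 8, 9, 10, 11, 4, 5, 6, 7]

def Op.neg : Op → Bool
  | .A _ => true
  | .B _ => true
  | _ => false

def sgb (b : Bool) : ℝ := if b then -1 else 1

theorem tri_op {R : Fin 6 → Fin 6 → Fin 6 → Fin 6 → ℝ} (h : IsCurv R) (o : Op) (l : Lab)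
    (i : Fin 6 → Fin 6) : tri R (l ∘ o.pos) i = sgb o.neg * tri R l i := by
  cases o with
  | A k =>
    fin_cases k
    · show R (i (l 1)) (i (l 0)) (i (l 2)) (i (l 3)) * _ * _ = -1 * _
      rw [h.a1]; unfold tri; simp [Op.pos]
    · show _ * R (i (l 5)) (i (l 4)) (i (l 6)) (i (l 7)) * _ = -1 * _
      rw [h.a1 (i (l 4))]; unfold tri; simp [Op.pos]
    · show _ * _ * R (i (l 9)) (i (l 8)) (i (l 10)) (i (l 11)) = -1 * _
      rw [h.a1 (i (l 8))]; unfold tri; simp [Op.pos]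
  | B k =>
    fin_cases k
    · show R (i (l 0)) (i (l 1)) (i (l 3)) (i (l 2)) * _ * _ = -1 * _
      rw [h.a2]; unfold tri; simp [Op.pos]
    · show _ * R (i (l 4)) (i (l 5)) (i (l 7)) (i (l 6)) * _ = -1 * _
      rw [h.a2 (i (l 4))]; unfold tri; simp [Op.pos]
    · show _ * _ * R (i (l 8)) (i (l 9)) (i (l 11)) (i (l 10)) = -1 * _
      rw [h.a2 (i (l 8))]; unfold tri; simp [Op.pos]
  | P k =>
    fin_cases k
    · show R (i (l 2)) (i (l 3)) (i (l 0)) (i (l 1)) * _ * _ = 1 * _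
      rw [h.pr]; unfold tri; simp [Op.pos]
    · show _ * R (i (l 6)) (i (l 7)) (i (l 4)) (i (l 5)) * _ = 1 * _
      rw [h.pr (i (l 4))]; unfold tri; simp [Op.pos]
    · show _ * _ * R (i (l 10)) (i (l 11)) (i (l 8)) (i (l 9)) = 1 * _
      rw [h.pr (i (l 8))]; unfold tri; simp [Op.pos]
  | X =>
    show R (i (l 4)) (i (l 5)) (i (l 6)) (i (l 7)) * R (i (l 0)) (i (l 1)) (i (l 2)) (i (l 3)) * 
      R (i (l 8)) (i (l 9)) (i (l 10)) (i (l 11)) = 1 * _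
    unfold tri; ring
  | Y =>
    show R (i (l 0)) (i (l 1)) (i (l 2)) (i (l 3)) * R (i (l 8)) (i (l 9)) (i (l 10)) (i (l 11)) *
      R (i (l 4)) (i (l 5)) (i (l 6)) (i (l 7)) = 1 * _
    unfold tri; ring

theorem g3_op {R : Fin 6 → Fin 6 → Fin 6 → Fin 6 → ℝ} (h : IsCurv R) (o : Op) (l : Lab) :
    g3 R (l ∘ o.pos) = sgb o.neg * g3 R l := by
  unfold g3
  rw [Finset.mul_sum]
  exact Finset.sum_congr rfl fun i _ => tri_op h o l i

def run : List Op → Lab → Lab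
  | [], l => l
  | o :: os, l => run os (l ∘ o.pos)

def rsg : List Op → Bool
  | [] => false
  | o :: os => xor o.neg (rsg os)

theorem sgb_xor (a b : Bool) : sgb (xor a b) = sgb a * sgb b := by
  cases a <;> cases b <;> simp [sgb]

theorem g3_run {R : Fin 6 → Fin 6 → Fin 6 → Fin 6 → ℝ} (h : IsCurv R) (os : List Op) (l : Lab) :
    g3 R (run os l) = sgb (rsg os) * g3 R l := by
  induction os generalizing l with
  | nil => simp [run, rsg, sgb]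
  | cons o os ih => rw [run, ih, g3_op h, rsg, sgb_xor]; ring

theorem g3_rel (R : Fin 6 → Fin 6 → Fin 6 → Fin 6 → ℝ) (l : Lab) (s t : Fin 6 → Fin 6)
    (h1 : ∀ k, s (t k) = k) (h2 : ∀ k, t (s k) = k) : g3 R (s ∘ l) = g3 R l := by
  let e : Fin 6 ≃ Fin 6 := ⟨s, t, h2, h1⟩
  unfold g3
  exact Fintype.sum_equiv (Equiv.arrowCongr e.symm (Equiv.refl (Fin 6))) _ _ fun i => rfl

/-- main tool: `l'` is obtained from `l` by moves and relabelling -/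
theorem g3_eq {R : Fin 6 → Fin 6 → Fin 6 → Fin 6 → ℝ} (h : IsCurv R) (os : List Op)
    (s t : Fin 6 → Fin 6) (l l' : Lab) (h1 : ∀ k, s (t k) = k) (h2 : ∀ k, t (s k) = k)
    (h3 : ∀ k, l' k = s (run os l k)) : g3 R l' = sgb (rsg os) * g3 R l := by
  have : l' = s ∘ run os l := funext h3
  rw [this, g3_rel R _ s t h1 h2, g3_run h]

/-- first Bianchi identity in the first factor -/
theorem g3_bi {R : Fin 6 → Fin 6 → Fin 6 → Fin 6 → ℝ} (h : IsCurv R) (l : Lab) :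
    g3 R l + g3 R (l ∘ ![1, 2, 0, 3, 4, 5, 6, 7, 8, 9, 10, 11])
      + g3 R (l ∘ ![2, 0, 1, 3, 4, 5, 6, 7, 8, 9, 10, 11]) = 0 := by
  unfold g3
  rw [← Finset.sum_add_distrib, ← Finset.sum_add_distrib]
  refine Finset.sum_eq_zero fun i _ => ?_
  have := h.bi (i (l 0)) (i (l 1)) (i (l 2)) (i (l 3))
  show R (i (l 0)) (i (l 1)) (i (l 2)) (i (l 3)) * R (i (l 4)) (i (l 5)) (i (l 6)) (i (l 7)) *
    R (i (l 8)) (i (l 9)) (i (l 10)) (i (l 11)) + R (i (l 1)) (i (l 2)) (i (l 0)) (i (l 3)) *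
    R (i (l 4)) (i (l 5)) (i (l 6)) (i (l 7)) * R (i (l 8)) (i (l 9)) (i (l 10)) (i (l 11)) +
    R (i (l 2)) (i (l 0)) (i (l 1)) (i (l 3)) * R (i (l 4)) (i (l 5)) (i (l 6)) (i (l 7)) *
    R (i (l 8)) (i (l 9)) (i (l 10)) (i (l 11)) = 0
  linear_combination (R (i (l 4)) (i (l 5)) (i (l 6)) (i (l 7)) *
    R (i (l 8)) (i (l 9)) (i (l 10)) (i (l 11))) * this

theorem sum_fun_succ {n : ℕ} (F : (Fin (n + 1) → Fin 6) → ℝ) :
    ∑ i : Fin (n + 1) → Fin 6, F i = ∑ a, ∑ i : Fin n → Fin 6, F (Fin.cons a i) := by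
  rw [← Fintype.sum_prod_type']
  exact (Fintype.sum_equiv (Fin.consEquiv (fun _ => Fin 6)) _ _ fun x => rfl).symm

theorem nest6 (F : Fin 6 → Fin 6 → Fin 6 → Fin 6 → Fin 6 → Fin 6 → ℝ) :
    ∑ i : Fin 6 → Fin 6, F (i 0) (i 1) (i 2) (i 3) (i 4) (i 5) =
      ∑ a, ∑ b, ∑ c, ∑ d, ∑ e, ∑ f, F a b c d e f := by
  simp only [sum_fun_succ]
  simp
  rfl

end Pool.Agent.H274R2
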