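import Pool.Agent.H274R2.Pair

/-! The first family of nonnegative functions. -/

namespace Pool.Agent.H274R2

open Finset

/-- the rows `F_a` -/
noncomputable def Fm (R : T4) (x : V6) (φ ε ζ : ℝ) : M6 := fun a c =>
  φ * dl a c + ε * (nn x * ric R a c - ux R x a * x c) + ζ * Jf R a c x

def trn (B : M6) : M6 := fun a b => B b a

theorem pr_trn {A : M6} (hA : ∀ a b, A a b = A b a) (B : M6) : pr A (trn B) = pr A B := by
  unfold pr trn
  rw [Finset.sum_comm]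
  exact Finset.sum_congr rfl fun a _ => Finset.sum_congr rfl fun b _ => by rw [hA]

theorem dl_symm (a b : Fin 6) : dl a b = dl b a := by
  unfold dl; simp only [eq_comm]

theorem FF_eq {R : T4} (h : IsCurv R) (x : V6) (φ ε ζ : ℝ) :
    (fun a b => ∑ c, Fm R x φ ε ζ a c * Fm R x φ ε ζ b c : M6) =
      φ ^ 2 • dl + (φ * ε) • ((nn x) • ric R - uxm R x + trn ((nn x) • ric R - uxm R x))
      + (2 * φ * ζ) • Jm R x + (ε ^ 2) • ((nn x ^ 2) • R2 R - (nn x) • uum R x)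
      + (ε * ζ * nn x) • (P6m R x + trn (P6m R x)) + ζ ^ 2 • P3m R x := by
  funext a b
  simp only [Pi.add_apply, Pi.sub_apply, Pi.smul_apply, smul_eq_mul, trn]
  have e : ∀ c, Fm R x φ ε ζ a c * Fm R x φ ε ζ b c =
      φ ^ 2 * (dl a c * dl b c) + φ * ε * (dl a c * (nn x * ric R b c - ux R x b * x c))
      + φ * ε * (dl b c * (nn x * ric R a c - ux R x a * x c))
      + φ * ζ * (dl a c * Jf R b c x) + φ * ζ * (dl b c * Jf R a c x)
      + ε ^ 2 * nn x ^ 2 * (ric R a c * ric R b c) - ε ^ 2 * nn x * ux R x b * (ric R a c * x c)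
      - ε ^ 2 * nn x * ux R x a * (ric R b c * x c) + ε ^ 2 * ux R x a * ux R x b * (x c ^ 2)
      + ε * ζ * nn x * (ric R a c * Jf R b c x) + ε * ζ * nn x * (ric R b c * Jf R a c x)
      - ε * ζ * ux R x a * (x c * Jf R b c x) - ε * ζ * ux R x b * (x c * Jf R a c x)
      + ζ ^ 2 * (Jf R a c x * Jf R b c x) := by
    intro c; unfold Fm; ring
  simp only [e, Finset.sum_add_distrib, Finset.sum_sub_distrib, ← Finset.mul_sum, coll]
  have s1 : ∀ a, ∑ c, ric R a c * x c = ux R x a := fun a => rfl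
  have s2 : ∑ c, x c ^ 2 = nn x := rfl
  have s3 : ∀ a, ∑ c, x c * Jf R a c x = 0 := by
    intro a
    rw [← J_x h x a]; exact Finset.sum_congr rfl fun c _ => mul_comm _ _
  have s4 : ∑ c, ric R a c * ric R b c = R2 R a b := by
    unfold R2; exact Finset.sum_congr rfl fun c _ => by rw [ric_symm h b c]
  have s5 : ∑ c, ric R a c * Jf R b c x = P6m R x a b := by
    unfold P6m; exact Finset.sum_congr rfl fun c _ => by rw [Jf_symm h b c]
  have s6 : ∑ c, ric R b c * Jf R a c x = P6m R x b a := by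
    unfold P6m; exact Finset.sum_congr rfl fun c _ => by rw [Jf_symm h a c]
  have s7 : ∑ c, Jf R a c x * Jf R b c x = P3m R x a b := by
    unfold P3m; exact Finset.sum_congr rfl fun c _ => by rw [Jf_symm h b c]
  simp only [s1, s2, s3, s4, s5, s6, s7, uxm, uum, Jm, dl_symm b a, Jf_symm h b a]
  ring

/-- the lower curvature bound as a matrix -/
noncomputable def Xm (R : T4) (m : ℝ) (x : V6) : M6 := Jm R x - m • (nn x • dl - xx x)

/-- the value of the form -/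
noncomputable def PFv (R : T4) (m : ℝ) (x : V6) (φ ε ζ : ℝ) : ℝ :=
  pr (Xm R m x) (fun a b => ∑ c, Fm R x φ ε ζ a c * Fm R x φ ε ζ b c)

theorem PFv_eq {R : T4} (h : IsCurv R) (m : ℝ) (x : V6) (φ ε ζ : ℝ) : PFv R m x φ ε ζ =
    φ ^ 2 * (ax R x - 5 * m * nn x)
    + 2 * φ * ε * (nn x * bx R x - m * nn x * (nn x * sc R - ax R x))
    + 2 * φ * ζ * (cx R x - m * nn x * ax R x)
    + ε ^ 2 * (nn x ^ 2 * e1x R x - nn x * e2x R x
        - m * (nn x ^ 3 * nr R - 2 * nn x ^ 2 * dx R x + nn x * ax R x ^ 2))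
    + 2 * ε * ζ * nn x * (f1x R x - m * nn x * bx R x)
    + ζ ^ 2 * (j3x R x - m * nn x * cx R x) := by
  unfold PFv
  rw [FF_eq h]
  have sJ : ∀ a b, Jm R x a b = Jm R x b a := fun a b => Jf_symm h a b x
  have sx : ∀ a b, xx x a b = xx x b a := fun a b => mul_comm _ _
  unfold Xm
  simp only [pr_add_r, pr_sub_r, pr_smul_r, pr_add_l, pr_sub_l, pr_smul_l, pr_trn sJ,
    pr_trn dl_symm, pr_trn sx, pJ_dl h, pJ_P3, pJ_J, pJ_ric, pJ_R2, pJ_uu, pJ_P6, pJ_ux h,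
    pd_dl, pd_P3 h, pd_J h, pd_ric, pd_R2 h, pd_uu, pd_P6 h, pd_ux, px_dl, px_P3 h, px_J h,
    px_ric, px_R2 h, px_uu, px_P6 h, px_ux]
  ring

theorem PFv_nonneg {R : T4} {m : ℝ} {x : V6} (hX : ∀ v : V6, 0 ≤ pr (Xm R m x) (xx v))
    (φ ε ζ : ℝ) : 0 ≤ PFv R m x φ ε ζ := by
  have e : PFv R m x φ ε ζ = ∑ c, pr (Xm R m x) (xx (fun a => Fm R x φ ε ζ a c)) := by
    unfold PFv pr xx
    simp only [Finset.mul_sum]
    calc _ = ∑ a, ∑ c, ∑ b, Xm R m x a b * (Fm R x φ ε ζ a c * Fm R x φ ε ζ b c) :=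
          Finset.sum_congr rfl fun a _ => Finset.sum_comm
      _ = _ := Finset.sum_comm
  rw [e]
  exact Finset.sum_nonneg fun c _ => hX _

/-- the average of the form, with `φ = κ n + γ a` -/
noncomputable def APF (R : T4) (m κ γ ε ζ : ℝ) : ℝ :=
  κ ^ 2 * (80 * sc R) + 20 * κ * γ * (sc R ^ 2 + 2 * nr R)
    + γ ^ 2 * (sc R ^ 3 + 6 * (sc R * nr R) + 8 * i4 R)
    - 5 * m * (480 * κ ^ 2 + 160 * κ * γ * sc R + 10 * γ ^ 2 * (sc R ^ 2 + 2 * nr R))
    + 2 * ε * (80 * κ * nr R + 10 * γ * (sc R * nr R + 2 * i5 R)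
        - m * (480 * κ * sc R + 80 * γ * sc R ^ 2 - 80 * κ * sc R
          - 10 * γ * (sc R ^ 2 + 2 * nr R)))
    + 2 * ζ * (10 * κ * (nr R + 3 / 2 * n4 R)
        + γ * (sc R * nr R + 3 / 2 * (sc R * n4 R) + 4 * i5 R + 6 * i6 R)
        - m * (80 * κ * sc R + 10 * γ * (sc R ^ 2 + 2 * nr R)))
    + ε ^ 2 * (70 * i4 R + 10 * i5 R - m * (340 * nr R + 10 * sc R ^ 2))
    + 2 * ε * ζ * (10 * (i4 R + 3 / 2 * i6 R) - 80 * m * nr R)
    + ζ ^ 2 * (i4 R + 9 / 2 * i6 R + 7 / 2 * i7 R - i8 R - 10 * m * (nr R + 3 / 2 * n4 R))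



theorem Av_APF {R : T4} (h : IsCurv R) (m κ γ ε ζ : ℝ) :
    Av (fun x => PFv R m x (κ * nn x + γ * ax R x) ε ζ) = APF R m κ γ ε ζ := by
  have e : (fun x => PFv R m x (κ * nn x + γ * ax R x) ε ζ) = fun x =>
      (-5 * m * κ ^ 2 - 2 * ε * m * κ * sc R - ε ^ 2 * m * nr R) * nn x ^ 3
      + (κ ^ 2 - 10 * m * κ * γ + 2 * ε * m * κ - 2 * ε * m * γ * sc R - 2 * ζ * m * κ)
          * (nn x ^ 2 * ax R x)
      + (2 * κ * γ - 5 * m * γ ^ 2 + 2 * ε * m * γ - 2 * ζ * m * γ - ε ^ 2 * m)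
          * (nn x * (ax R x * ax R x))
      + γ ^ 2 * (ax R x * ax R x * ax R x)
      + (2 * ε * κ - 2 * ε * ζ * m) * (nn x ^ 2 * bx R x)
      + (2 * ε * γ) * (nn x * (ax R x * bx R x))
      + (2 * ζ * κ - ζ ^ 2 * m) * (nn x * cx R x)
      + (2 * ζ * γ) * (ax R x * cx R x)
      + ε ^ 2 * (nn x ^ 2 * e1x R x)
      + (-ε ^ 2) * (nn x * e2x R x)
      + (2 * ε ^ 2 * m) * (nn x ^ 2 * dx R x)
      + (2 * ε * ζ) * (nn x * f1x R x)
      + ζ ^ 2 * j3x R x := by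
    funext x; rw [PFv_eq h]; ring
  have q1 : Av (fun x => nn x * cx R x) = 10 * (nr R + 3 / 2 * n4 R) := by
    rw [← Av_c h]; exact Q4_c R
  have q2 : Av (fun x => nn x * e2x R x) = 10 * (i4 R - i5 R) := by
    rw [← Av_e2 h]; exact Q4_e2 R
  have q3 : Av (fun x => nn x * f1x R x) = 10 * (i4 R + 3 / 2 * i6 R) := by
    rw [← Av_f1 h]; exact Q4_f1 R
  have q4 : Av (fun x => j3x R x) = i4 R + 9 / 2 * i6 R + 7 / 2 * i7 R - i8 R := Av_j3 h
  rw [e]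
  simp only [Av_add, Av_smul, Av_nn3, Av_n2a, Av_na2 h, Av_a3 h, Av_n2b h, Av_nab h, q1, Av_ac h,
    Av_n2e1 h, q2, Av_n2d h, q3, q4]
  unfold APF
  ring

end Pool.Agent.H274R2
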