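import Pool.Agent.H274R2.Aver3

/-! Pointwise pairings with the Jacobi operator, the identity and `x ⊗ x`. -/

namespace Pool.Agent.H274R2

open Finset

abbrev V6 := Fin 6 → ℝ
abbrev M6 := Fin 6 → Fin 6 → ℝ

/-- pairing of matrices -/
def pr (A B : M6) : ℝ := ∑ a, ∑ b, A a b * B a b

theorem pr_add_r (A B C : M6) : pr A (B + C) = pr A B + pr A C := by
  unfold pr; simp only [Pi.add_apply, mul_add, Finset.sum_add_distrib]
theorem pr_sub_r (A B C : M6) : pr A (B - C) = pr A B - pr A C := by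
  unfold pr; simp only [Pi.sub_apply, mul_sub, Finset.sum_sub_distrib]
theorem pr_smul_r (c : ℝ) (A B : M6) : pr A (c • B) = c * pr A B := by
  unfold pr; simp only [Pi.smul_apply, smul_eq_mul, Finset.mul_sum]
  exact Finset.sum_congr rfl fun _ _ => Finset.sum_congr rfl fun _ _ => by ring
theorem pr_comm (A B : M6) : pr A B = pr B A := by
  unfold pr; exact Finset.sum_congr rfl fun _ _ => Finset.sum_congr rfl fun _ _ => mul_comm _ _
theorem pr_add_l (A B C : M6) : pr (A + B) C = pr A C + pr B C := by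
  rw [pr_comm, pr_add_r, pr_comm C A, pr_comm C B]
theorem pr_sub_l (A B C : M6) : pr (A - B) C = pr A C - pr B C := by
  rw [pr_comm, pr_sub_r, pr_comm C A, pr_comm C B]
theorem pr_smul_l (c : ℝ) (A B : M6) : pr (c • A) B = c * pr A B := by
  rw [pr_comm, pr_smul_r, pr_comm]

/-- `x ⊗ x` -/
def xx (x : V6) : M6 := fun a b => x a * x b
/-- Jacobi operator as a matrix -/
def Jm (R : T4) (x : V6) : M6 := fun a b => Jf R a b x
def P1m (R : T4) (x : V6) : M6 := fun a b => P1 R a b x
def P2m (R : T4) (x : V6) : M6 := fun a b => P2 R a b x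
def P3m (R : T4) (x : V6) : M6 := fun a b => ∑ c, Jf R a c x * Jf R c b x
def P4m (R : T4) (x : V6) : M6 := fun a b => P4 R a b x
def P5m (R : T4) (x : V6) : M6 := fun a b => P5 R a b x
def P6m (R : T4) (x : V6) : M6 := fun a b => ∑ c, ric R a c * Jf R c b x
def uum (R : T4) (x : V6) : M6 := fun a b => ux R x a * ux R x b
def uxm (R : T4) (x : V6) : M6 := fun a b => ux R x a * x b

/-- `R_{x abc}` -/
def Rx (R : T4) (x : V6) (a b c : Fin 6) : ℝ := ∑ p, x p * R p a b c

theorem Rx_a2 {R : T4} (h : IsCurv R) (x : V6) (a b c : Fin 6) : Rx R x a c b = - Rx R x a b c := by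
  unfold Rx; rw [← Finset.sum_neg_distrib]
  exact Finset.sum_congr rfl fun p _ => by rw [h.a2]; ring

theorem Rx_x {R : T4} (h : IsCurv R) (x : V6) (b c : Fin 6) : ∑ a, x a * Rx R x a b c = 0 := by
  have : ∑ a, x a * Rx R x a b c = - ∑ a, x a * Rx R x a b c := by
    conv_lhs => unfold Rx; simp only [Finset.mul_sum]; rw [Finset.sum_comm]
    unfold Rx; simp only [Finset.mul_sum, ← Finset.sum_neg_distrib]
    refine Finset.sum_congr rfl fun a _ => Finset.sum_congr rfl fun p _ => ?_
    rw [h.a1 p a]; ring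
  linarith

theorem Jf_eq (R : T4) (x : V6) (a b : Fin 6) : Jf R a b x = ∑ q, x q * Rx R x a q b := by
  unfold Jf qf Rx
  simp only [Finset.mul_sum]
  rw [Finset.sum_comm]
  exact Finset.sum_congr rfl fun q _ => Finset.sum_congr rfl fun p _ => by ring

theorem J_x {R : T4} (h : IsCurv R) (x : V6) (a : Fin 6) : ∑ b, Jf R a b x * x b = 0 := by
  have : ∀ b, Jf R a b x = Jf R b a x := fun b => Jf_symm h a b x
  simp only [this, Jf_eq, Finset.sum_mul]
  rw [Finset.sum_comm]
  refine Finset.sum_eq_zero fun q _ => ?_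
  have := Rx_x h x q a
  calc _ = x q * ∑ b, x b * Rx R x b q a := by
        rw [Finset.mul_sum]; exact Finset.sum_congr rfl fun b _ => by ring
    _ = 0 := by rw [this, mul_zero]

theorem J_x' {R : T4} (h : IsCurv R) (x : V6) (b : Fin 6) : ∑ a, x a * Jf R a b x = 0 := by
  rw [← J_x h x b]
  exact Finset.sum_congr rfl fun a _ => by rw [Jf_symm h a b]; ring

theorem P1_eq (R : T4) (x : V6) (a b : Fin 6) :
    P1 R a b x = ∑ d, ∑ e, Rx R x a d e * Rx R x b d e := by
  unfold P1
  rw [qf_sum]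
  refine Finset.sum_congr rfl fun d _ => ?_
  rw [qf_sum]
  refine Finset.sum_congr rfl fun e _ => ?_
  unfold qf Rx
  rw [Finset.sum_mul_sum]
  exact Finset.sum_congr rfl fun p _ => Finset.sum_congr rfl fun q _ => by ring

theorem P2_eq (R : T4) (x : V6) (a b : Fin 6) :
    P2 R a b x = ∑ e, ∑ c, Rx R x e a c * Rx R x e b c := by
  unfold P2
  rw [qf_sum]
  refine Finset.sum_congr rfl fun d _ => ?_
  rw [qf_sum]
  refine Finset.sum_congr rfl fun e _ => ?_
  unfold qf Rx
  rw [Finset.sum_mul_sum]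
  exact Finset.sum_congr rfl fun p _ => Finset.sum_congr rfl fun q _ => by ring

theorem P4_eq {R : T4} (h : IsCurv R) (x : V6) (a b : Fin 6) :
    P4 R a b x = - ∑ e, Rx R x a b e * ux R x e := by
  unfold P4
  rw [qf_sum, ← Finset.sum_neg_distrib]
  refine Finset.sum_congr rfl fun e _ => ?_
  unfold qf Rx ux
  rw [Finset.sum_mul_sum, ← Finset.sum_neg_distrib]
  refine Finset.sum_congr rfl fun p _ => ?_
  rw [← Finset.sum_neg_distrib]
  refine Finset.sum_congr rfl fun q _ => ?_
  show R a p b e * ric R e q * (x p * x q) = _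
  rw [h.a1 p a b e]; ring

theorem P5_eq (R : T4) (x : V6) (a b : Fin 6) :
    P5 R a b x = ∑ c, ∑ e, R a c b e * Jf R c e x := by
  unfold P5 Jf
  rw [qf_sum]
  refine Finset.sum_congr rfl fun c _ => ?_
  rw [qf_sum]
  refine Finset.sum_congr rfl fun e _ => ?_
  rw [qf_smul]

theorem J_tr {R : T4} (h : IsCurv R) (x : V6) : ∑ a, Jf R a a x = ax R x := by
  unfold Jf ax
  rw [← qf_sum]
  rfl

/-! pairings with `J` -/
theorem pJ_dl {R : T4} (h : IsCurv R) (x : V6) : pr (Jm R x) dl = ax R x := by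
  unfold pr Jm
  have : ∀ a, ∑ b, Jf R a b x * dl a b = Jf R a a x := by
    intro a
    simp [dl]
  simp only [this]
  exact J_tr h x
theorem pJ_RR (R : T4) (x : V6) : pr (Jm R x) (RR R) = h1x R x := by
  unfold h1x JC; rw [pr_comm]; rfl
theorem pJ_P1 (R : T4) (x : V6) : pr (Jm R x) (P1m R x) = h2x R x := rfl
theorem pJ_P2 (R : T4) (x : V6) : pr (Jm R x) (P2m R x) = h3x R x := rfl
theorem pJ_P3 (R : T4) (x : V6) : pr (Jm R x) (P3m R x) = j3x R x := by
  unfold pr j3x P3m Jm
  simp only [Finset.mul_sum, mul_assoc]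
theorem pJ_Bm (R : T4) (x : V6) : pr (Jm R x) (Bm R) = g1x R x := by
  unfold g1x JC; rw [pr_comm]; rfl
theorem pJ_P4 (R : T4) (x : V6) : pr (Jm R x) (P4m R x) = g2x R x := rfl
theorem pJ_J (R : T4) (x : V6) : pr (Jm R x) (Jm R x) = cx R x := rfl
theorem pJ_P5 (R : T4) (x : V6) : pr (Jm R x) (P5m R x) = g3x R x := rfl
theorem pJ_ric (R : T4) (x : V6) : pr (Jm R x) (ric R) = bx R x := by
  unfold bx JC; rw [pr_comm]; rfl
theorem pJ_R2 (R : T4) (x : V6) : pr (Jm R x) (R2 R) = e1x R x := by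
  unfold e1x JC; rw [pr_comm]; rfl
theorem pJ_uu (R : T4) (x : V6) : pr (Jm R x) (uum R x) = e2x R x := rfl
theorem pJ_P6 (R : T4) (x : V6) : pr (Jm R x) (P6m R x) = f1x R x := by
  unfold pr f1x P6m Jm
  simp only [Finset.mul_sum]
  exact Finset.sum_congr rfl fun a _ => Finset.sum_congr rfl fun b _ =>
    Finset.sum_congr rfl fun c _ => by ring
theorem pJ_ux {R : T4} (h : IsCurv R) (x : V6) : pr (Jm R x) (uxm R x) = 0 := by
  unfold pr uxm Jm
  refine Finset.sum_eq_zero fun a _ => ?_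
  have := J_x h x a
  calc _ = ux R x a * ∑ b, Jf R a b x * x b := by
        rw [Finset.mul_sum]; exact Finset.sum_congr rfl fun b _ => by ring
    _ = 0 := by rw [this, mul_zero]

/-! pairings with the identity -/
theorem pd (B : M6) : pr dl B = ∑ a, B a a := by
  unfold pr; simp only [coll]
theorem pd_dl : pr dl dl = 6 := by rw [pd]; simp [dl]
theorem pd_RR (R : T4) : pr dl (RR R) = n4 R := by rw [pd, RR_tr]
theorem pd_P1 (R : T4) (x : V6) : pr dl (P1m R x) = rx R x := by
  rw [pd]; unfold P1m P1 rx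
  rw [← qf_sum]; rfl
theorem pd_P2 (R : T4) (x : V6) : pr dl (P2m R x) = rx R x := by
  rw [pd]; unfold P2m P2 rx
  rw [← qf_sum]
  congr 1
  funext p q
  unfold RR
  rw [Finset.sum_comm]
theorem pd_P3 {R : T4} (h : IsCurv R) (x : V6) : pr dl (P3m R x) = cx R x := by
  rw [pd]; unfold P3m cx
  exact Finset.sum_congr rfl fun a _ => Finset.sum_congr rfl fun c _ => by rw [Jf_symm h c a]
theorem pd_Bm {R : T4} (h : IsCurv R) : pr dl (Bm R) = nr R := by rw [pd, Bm_tr h]
theorem pd_P4 {R : T4} (h : IsCurv R) (x : V6) : pr dl (P4m R x) = dx R x := by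
  rw [pd, dx_qf h]; unfold P4m P4
  rw [← qf_sum]
  congr 1
  funext p q
  rw [Finset.sum_comm]
  unfold R2
  refine Finset.sum_congr rfl fun e _ => ?_
  rw [← Finset.sum_mul]
  congr 1
  unfold ric
  exact Finset.sum_congr rfl fun c _ => h.sw _ _ _ _
theorem pd_J {R : T4} (h : IsCurv R) (x : V6) : pr dl (Jm R x) = ax R x := by
  rw [pd]; exact J_tr h x
theorem pd_P5 {R : T4} (h : IsCurv R) (x : V6) : pr dl (P5m R x) = bx R x := by
  rw [pd]; unfold P5m bx JC
  simp only [P5_eq]
  rw [Finset.sum_comm]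
  refine Finset.sum_congr rfl fun c _ => ?_
  rw [Finset.sum_comm]
  refine Finset.sum_congr rfl fun e _ => ?_
  rw [← Finset.sum_mul, trJ h]
theorem pd_ric (R : T4) : pr dl (ric R) = sc R := by rw [pd]; rfl
theorem pd_R2 {R : T4} (h : IsCurv R) : pr dl (R2 R) = nr R := by rw [pd, R2_tr h]
theorem pd_uu (R : T4) (x : V6) : pr dl (uum R x) = dx R x := by rw [pd]; rfl
theorem pd_P6 {R : T4} (h : IsCurv R) (x : V6) : pr dl (P6m R x) = bx R x := by
  rw [pd]; unfold P6m bx JC
  exact Finset.sum_congr rfl fun a _ => Finset.sum_congr rfl fun c _ => by rw [Jf_symm h c a]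
theorem ux_x (R : T4) (x : V6) : ∑ a, ux R x a * x a = ax R x := by
  unfold ux ax qf
  simp only [Finset.sum_mul]
  exact Finset.sum_congr rfl fun a _ => Finset.sum_congr rfl fun p _ => by ring
theorem pd_ux (R : T4) (x : V6) : pr dl (uxm R x) = ax R x := by
  rw [pd]; exact ux_x R x

/-! pairings with `x ⊗ x` -/
theorem px (x : V6) (B : M6) : pr (xx x) B = qf B x := by
  unfold pr xx qf
  exact Finset.sum_congr rfl fun a _ => Finset.sum_congr rfl fun b _ => mul_comm _ _
theorem px_dl (x : V6) : pr (xx x) dl = nn x := by rw [px, qf_dl]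
theorem px_RR (R : T4) (x : V6) : pr (xx x) (RR R) = rx R x := px _ _
theorem px_P1 {R : T4} (h : IsCurv R) (x : V6) : pr (xx x) (P1m R x) = 0 := by
  unfold pr xx P1m
  refine Finset.sum_eq_zero fun a _ => ?_
  simp only [P1_eq, Finset.mul_sum]
  rw [Finset.sum_comm]
  refine Finset.sum_eq_zero fun d _ => ?_
  rw [Finset.sum_comm]
  refine Finset.sum_eq_zero fun e _ => ?_
  have := Rx_x h x d e
  calc _ = (x a * Rx R x a d e) * ∑ b, x b * Rx R x b d e := by
        rw [Finset.mul_sum]; exact Finset.sum_congr rfl fun b _ => by ring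
    _ = 0 := by rw [this, mul_zero]
theorem px_P2 {R : T4} (h : IsCurv R) (x : V6) : pr (xx x) (P2m R x) = cx R x := by
  unfold pr xx P2m cx
  simp only [P2_eq]
  have e : ∀ e c, ∑ a, ∑ b, (x a * x b) * (Rx R x e a c * Rx R x e b c) =
      Jf R e c x * Jf R e c x := by
    intro e c
    rw [Jf_eq, Finset.sum_mul_sum]
    exact Finset.sum_congr rfl fun a _ => Finset.sum_congr rfl fun b _ => by ring
  simp only [← e, Finset.mul_sum]
  calc _ = ∑ a, ∑ e, ∑ b, ∑ c, (x a * x b) * (Rx R x e a c * Rx R x e b c) :=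
        Finset.sum_congr rfl fun a _ => Finset.sum_comm
    _ = ∑ e, ∑ a, ∑ b, ∑ c, (x a * x b) * (Rx R x e a c * Rx R x e b c) := Finset.sum_comm
    _ = _ := by
      refine Finset.sum_congr rfl fun e _ => ?_
      calc _ = ∑ a, ∑ c, ∑ b, (x a * x b) * (Rx R x e a c * Rx R x e b c) :=
            Finset.sum_congr rfl fun a _ => Finset.sum_comm
        _ = _ := Finset.sum_comm
theorem px_P3 {R : T4} (h : IsCurv R) (x : V6) : pr (xx x) (P3m R x) = 0 := by
  unfold pr xx P3m
  refine Finset.sum_eq_zero fun a _ => ?_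
  simp only [Finset.mul_sum]
  rw [Finset.sum_comm]
  refine Finset.sum_eq_zero fun c _ => ?_
  have := J_x h x c
  calc _ = (x a * Jf R a c x) * ∑ b, Jf R c b x * x b := by
        rw [Finset.mul_sum]; exact Finset.sum_congr rfl fun b _ => by ring
    _ = 0 := by rw [this, mul_zero]
theorem px_Bm (R : T4) (x : V6) : pr (xx x) (Bm R) = bx R x := by rw [px, bx_qf]
theorem px_P4 {R : T4} (h : IsCurv R) (x : V6) : pr (xx x) (P4m R x) = 0 := by
  unfold pr xx P4m
  simp only [P4_eq h]
  rw [Finset.sum_comm]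
  refine Finset.sum_eq_zero fun b _ => ?_
  calc _ = - ∑ a, ∑ e, x b * ux R x e * (x a * Rx R x a b e) := by
        rw [← Finset.sum_neg_distrib]
        refine Finset.sum_congr rfl fun a _ => ?_
        rw [mul_neg, Finset.mul_sum]
        congr 1
        exact Finset.sum_congr rfl fun e _ => by ring
    _ = - ∑ e, x b * ux R x e * ∑ a, x a * Rx R x a b e := by
        rw [Finset.sum_comm]; simp only [Finset.mul_sum]
    _ = 0 := by simp only [Rx_x h, mul_zero, Finset.sum_const_zero, neg_zero]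
theorem px_J {R : T4} (h : IsCurv R) (x : V6) : pr (xx x) (Jm R x) = 0 := by
  unfold pr xx Jm
  refine Finset.sum_eq_zero fun a _ => ?_
  calc _ = x a * ∑ b, Jf R a b x * x b := by
        rw [Finset.mul_sum]; exact Finset.sum_congr rfl fun b _ => by ring
    _ = 0 := by rw [J_x h, mul_zero]
theorem px_P5 {R : T4} (h : IsCurv R) (x : V6) : pr (xx x) (P5m R x) = cx R x := by
  unfold pr xx P5m cx
  simp only [P5_eq]
  have e : ∀ c e, ∑ a, ∑ b, (x a * x b) * (R a c b e * Jf R c e x) =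
      Jf R c e x * Jf R c e x := by
    intro c e
    conv_rhs => rw [show Jf R c e x = ∑ a, ∑ b, R a c b e * (x a * x b) from rfl]
    rw [Finset.sum_mul]
    refine Finset.sum_congr rfl fun a _ => ?_
    rw [Finset.sum_mul]
    exact Finset.sum_congr rfl fun b _ => by
      rw [show (∑ a, ∑ b, R a c b e * (x a * x b)) = Jf R c e x from rfl]; ring
  simp only [← e, Finset.mul_sum]
  calc _ = ∑ a, ∑ e, ∑ b, ∑ c, (x a * x b) * (R a e b c * Jf R e c x) :=
        Finset.sum_congr rfl fun a _ => Finset.sum_comm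
    _ = ∑ e, ∑ a, ∑ b, ∑ c, (x a * x b) * (R a e b c * Jf R e c x) := Finset.sum_comm
    _ = _ := by
      refine Finset.sum_congr rfl fun e _ => ?_
      calc _ = ∑ a, ∑ c, ∑ b, (x a * x b) * (R a e b c * Jf R e c x) :=
            Finset.sum_congr rfl fun a _ => Finset.sum_comm
        _ = _ := Finset.sum_comm
theorem px_ric (R : T4) (x : V6) : pr (xx x) (ric R) = ax R x := px _ _
theorem px_R2 {R : T4} (h : IsCurv R) (x : V6) : pr (xx x) (R2 R) = dx R x := by
  rw [px, dx_qf h]
theorem px_uu (R : T4) (x : V6) : pr (xx x) (uum R x) = ax R x ^ 2 := by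
  unfold pr xx uum
  rw [← ux_x, sq, Finset.sum_mul_sum]
  exact Finset.sum_congr rfl fun a _ => Finset.sum_congr rfl fun b _ => by ring
theorem px_P6 {R : T4} (h : IsCurv R) (x : V6) : pr (xx x) (P6m R x) = 0 := by
  unfold pr xx P6m
  refine Finset.sum_eq_zero fun a _ => ?_
  simp only [Finset.mul_sum]
  rw [Finset.sum_comm]
  refine Finset.sum_eq_zero fun c _ => ?_
  have := J_x h x c
  calc _ = (x a * ric R a c) * ∑ b, Jf R c b x * x b := by
        rw [Finset.mul_sum]; exact Finset.sum_congr rfl fun b _ => by ring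
    _ = 0 := by rw [this, mul_zero]
theorem px_ux (R : T4) (x : V6) : pr (xx x) (uxm R x) = nn x * ax R x := by
  unfold pr xx uxm
  rw [← ux_x]; unfold nn
  rw [mul_comm, Finset.sum_mul_sum]
  exact Finset.sum_congr rfl fun a _ => Finset.sum_congr rfl fun b _ => by ring

end Pool.Agent.H274R2
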