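import Pool.Agent.H274R2.Cls

/-! The alternating double sum over permutations. -/

namespace Pool.Agent.H274R2

open Finset Equiv

/-- the Gauss-Bonnet integrand in dimension six (up to a positive constant) -/
def gb (R : T4) : ℝ := ∑ σ : Perm (Fin 6), ∑ τ : Perm (Fin 6),
  ((Perm.sign σ : ℤ) : ℝ) * ((Perm.sign τ : ℤ) : ℝ) *
    (R (σ 0) (σ 1) (τ 0) (τ 1) * R (σ 2) (σ 3) (τ 2) (τ 3) * R (σ 4) (σ 5) (τ 4) (τ 5))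

def labf (f : Fin 6 → Fin 6) : Lab := ![0, 1, f 0, f 1, 2, 3, f 2, f 3, 4, 5, f 4, f 5]

def Ff (R : T4) (i j : Fin 6 → Fin 6) : ℝ :=
  R (i 0) (i 1) (j 0) (j 1) * R (i 2) (i 3) (j 2) (j 3) * R (i 4) (i 5) (j 4) (j 5)

theorem tri_lab (R : T4) (f i : Fin 6 → Fin 6) : tri R (labf f) i = Ff R i (i ∘ f) := rfl

theorem alt_zero (R : T4) (i : Fin 6 → Fin 6) (hi : ¬ Function.Bijective i) :
    ∑ π : Perm (Fin 6), ((Perm.sign π : ℤ) : ℝ) * Ff R i (i ∘ π) = 0 := by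
  obtain ⟨a, b, hab, hne⟩ : ∃ a b, i a = i b ∧ a ≠ b := by
    rw [← Finite.injective_iff_bijective, Function.Injective] at hi
    push Not at hi
    exact hi
  have hsw : i ∘ (swap a b) = i := by
    funext k
    show i (swap a b k) = i k
    rcases eq_or_ne k a with rfl | hka
    · rw [swap_apply_left, hab]
    · rcases eq_or_ne k b with rfl | hkb
      · rw [swap_apply_right, hab]
      · rw [swap_apply_of_ne_of_ne hka hkb]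
  have key : ∑ π : Perm (Fin 6), ((Perm.sign π : ℤ) : ℝ) * Ff R i (i ∘ π) =
      ∑ π : Perm (Fin 6), - (((Perm.sign π : ℤ) : ℝ) * Ff R i (i ∘ π)) := by
    refine Fintype.sum_equiv (Equiv.mulLeft (swap a b)) _ _ fun π => ?_
    rw [Equiv.coe_mulLeft, Perm.sign_mul, Perm.sign_swap hne]
    have : i ∘ ⇑(swap a b * π) = i ∘ π := by
      rw [Perm.coe_mul, ← Function.comp_assoc, hsw]
    rw [this]
    push_cast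
    ring
  rw [Finset.sum_neg_distrib] at key
  linarith

theorem gb_eq1 (R : T4) : gb R = ∑ π : Perm (Fin 6), ((Perm.sign π : ℤ) : ℝ) * g3 R (labf π) := by
  have e1 : ∑ π : Perm (Fin 6), ((Perm.sign π : ℤ) : ℝ) * g3 R (labf π) =
      ∑ i : Fin 6 → Fin 6, ∑ π : Perm (Fin 6), ((Perm.sign π : ℤ) : ℝ) * Ff R i (i ∘ π) := by
    rw [Finset.sum_comm]
    refine Finset.sum_congr rfl fun π _ => ?_
    unfold g3
    rw [Finset.mul_sum]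
    exact Finset.sum_congr rfl fun i _ => by rw [tri_lab]
  rw [e1]
  have e2 : ∑ i : Fin 6 → Fin 6, ∑ π : Perm (Fin 6), ((Perm.sign π : ℤ) : ℝ) * Ff R i (i ∘ π) =
      ∑ σ : Perm (Fin 6), ∑ π : Perm (Fin 6), ((Perm.sign π : ℤ) : ℝ) * Ff R σ (σ ∘ π) := by
    classical
    symm
    apply Finset.sum_of_injOn (fun σ : Perm (Fin 6) => (σ : Fin 6 → Fin 6))
    · intro a _ b _ hab
      exact DFunLike.coe_injective hab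
    · intro a _
      exact Finset.mem_coe.mpr (Finset.mem_univ _)
    · intro i _ hi
      apply alt_zero
      intro hb
      apply hi
      exact ⟨Equiv.ofBijective i hb, Finset.mem_coe.mpr (Finset.mem_univ _), rfl⟩
    · intro a _
      rfl
  rw [e2]
  unfold gb
  refine Finset.sum_congr rfl fun σ _ => ?_
  refine Fintype.sum_equiv (Equiv.mulLeft σ⁻¹) _ _ fun τ => ?_
  rw [Equiv.coe_mulLeft, Perm.sign_mul, Perm.sign_inv]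
  have : (σ : Fin 6 → Fin 6) ∘ ⇑(σ⁻¹ * τ) = τ := by
    funext k; simp
  rw [this]
  push_cast
  rfl

/-! moves on functions -/
def mv (m : ℕ) (f : Fin 6 → Fin 6) : Fin 6 → Fin 6 :=
  match m with
  | 0 => f ∘ ![1, 0, 2, 3, 4, 5]
  | 1 => f ∘ ![0, 1, 3, 2, 4, 5]
  | 2 => f ∘ ![0, 1, 2, 3, 5, 4]
  | 3 => ![1, 0, 2, 3, 4, 5] ∘ f
  | 4 => ![0, 1, 3, 2, 4, 5] ∘ f
  | 5 => ![0, 1, 2, 3, 5, 4] ∘ f
  | 6 => ![2, 3, 0, 1, 4, 5] ∘ f ∘ ![2, 3, 0, 1, 4, 5]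
  | _ => ![0, 1, 4, 5, 2, 3] ∘ f ∘ ![0, 1, 4, 5, 2, 3]

def mneg (m : ℕ) : Bool := decide (m < 6)

theorem g3_mv {R : T4} (h : IsCurv R) (m : ℕ) (f : Fin 6 → Fin 6) :
    g3 R (labf (mv m f)) = sgb (mneg m) * g3 R (labf f) := by
  match m with
  | 0 => exact (g3_neg h [.B 0] id id (labf f) _ (fun _ => rfl) (fun _ => rfl)
      (fun k => by fin_cases k <;> rfl) rfl).trans (by simp [sgb, mneg])
  | 1 => exact (g3_neg h [.B 1] id id (labf f) _ (fun _ => rfl) (fun _ => rfl)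
      (fun k => by fin_cases k <;> rfl) rfl).trans (by simp [sgb, mneg])
  | 2 => exact (g3_neg h [.B 2] id id (labf f) _ (fun _ => rfl) (fun _ => rfl)
      (fun k => by fin_cases k <;> rfl) rfl).trans (by simp [sgb, mneg])
  | 3 => exact (g3_neg h [.A 0] ![1, 0, 2, 3, 4, 5] ![1, 0, 2, 3, 4, 5] (labf f) _ (by decide)
      (by decide) (fun k => by fin_cases k <;> rfl) rfl).trans (by simp [sgb, mneg])
  | 4 => exact (g3_neg h [.A 1] ![0, 1, 3, 2, 4, 5] ![0, 1, 3, 2, 4, 5] (labf f) _ (by decide)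
      (by decide) (fun k => by fin_cases k <;> rfl) rfl).trans (by simp [sgb, mneg])
  | 5 => exact (g3_neg h [.A 2] ![0, 1, 2, 3, 5, 4] ![0, 1, 2, 3, 5, 4] (labf f) _ (by decide)
      (by decide) (fun k => by fin_cases k <;> rfl) rfl).trans (by simp [sgb, mneg])
  | 6 => exact (g3_pos h [.X] ![2, 3, 0, 1, 4, 5] ![2, 3, 0, 1, 4, 5] (labf f) _ (by decide)
      (by decide) (fun k => by fin_cases k <;> rfl) rfl).trans (by simp [sgb, mneg])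
  | (n + 7) => exact (g3_pos h [.Y] ![0, 1, 4, 5, 2, 3] ![0, 1, 4, 5, 2, 3] (labf f) _ (by decide)
      (by decide) (fun k => by fin_cases k <;> rfl) rfl).trans (by simp [sgb, mneg])

def mvs : List ℕ → (Fin 6 → Fin 6) → (Fin 6 → Fin 6)
  | [], f => f
  | m :: w, f => mvs w (mv m f)

def mneg' : List ℕ → Bool
  | [] => false
  | m :: w => xor (mneg m) (mneg' w)

theorem g3_mvs {R : T4} (h : IsCurv R) (w : List ℕ) (f : Fin 6 → Fin 6) :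
    g3 R (labf (mvs w f)) = sgb (mneg' w) * g3 R (labf f) := by
  induction w generalizing f with
  | nil => simp [mvs, mneg', sgb]
  | cons m w ih => rw [mvs, ih, g3_mv h, mneg', sgb_xor]; ring

/-! enumeration of the permutations -/
abbrev Z6 := Fin 6 × Fin 5 × Fin 4 × Fin 3 × Fin 2

def ext {n : ℕ} (p : Fin (n + 1)) (g : Fin n → Fin n) : Fin (n + 1) → Fin (n + 1) :=
  Fin.cases p fun k => if (g k).succ = p then 0 else (g k).succ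

def fz (z : Z6) : Fin 6 → Fin 6 := ext z.1 (ext z.2.1 (ext z.2.2.1 (ext z.2.2.2.1
  (ext z.2.2.2.2 id))))

def sz (z : Z6) : Bool := xor (decide (z.1 ≠ 0)) (xor (decide (z.2.1 ≠ 0))
  (xor (decide (z.2.2.1 ≠ 0)) (xor (decide (z.2.2.2.1 ≠ 0)) (decide (z.2.2.2.2 ≠ 0)))))

theorem ext_eq {n : ℕ} (p : Fin (n + 1)) (e : Perm (Fin n)) :
    ⇑(Perm.decomposeFin.symm (p, e)) = ext p e := by
  funext k
  refine Fin.cases ?_ (fun j => ?_) k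
  · rw [Perm.decomposeFin_symm_apply_zero]; rfl
  · rw [Perm.decomposeFin_symm_apply_succ]
    show _ = if (e j).succ = p then 0 else (e j).succ
    by_cases hp : (e j).succ = p
    · rw [if_pos hp, hp, swap_apply_right]
    · rw [if_neg hp, swap_apply_of_ne_of_ne (Fin.succ_ne_zero _) hp]

theorem sum_dec {n : ℕ} (F : Perm (Fin (n + 1)) → ℝ) :
    ∑ π, F π = ∑ p, ∑ e : Perm (Fin n), F (Perm.decomposeFin.symm (p, e)) := by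
  rw [← Fintype.sum_prod_type']
  exact Fintype.sum_equiv Perm.decomposeFin _ _ fun π => by
    rw [show (((Perm.decomposeFin π).1, (Perm.decomposeFin π).2) : Fin (n+1) × Perm (Fin n)) =
      Perm.decomposeFin π from rfl, Equiv.symm_apply_apply]

theorem sgn_dec {n : ℕ} (p : Fin (n + 1)) (e : Perm (Fin n)) :
    ((Perm.sign (Perm.decomposeFin.symm (p, e)) : ℤ) : ℝ) =
      sgb (decide (p ≠ 0)) * ((Perm.sign e : ℤ) : ℝ) := by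
  rw [Perm.decomposeFin.symm_sign]
  by_cases hp : p = 0
  · simp [hp, sgb]
  · simp [hp, sgb]

theorem sum_perm (H : (Fin 6 → Fin 6) → ℝ) :
    ∑ π : Perm (Fin 6), ((Perm.sign π : ℤ) : ℝ) * H π = ∑ z : Z6, sgb (sz z) * H (fz z) := by
  simp only [Fintype.sum_prod_type]
  rw [sum_dec]
  refine Finset.sum_congr rfl fun p _ => ?_
  rw [sum_dec]
  refine Finset.sum_congr rfl fun q _ => ?_
  rw [sum_dec]
  refine Finset.sum_congr rfl fun r _ => ?_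
  rw [sum_dec]
  refine Finset.sum_congr rfl fun s _ => ?_
  rw [sum_dec]
  refine Finset.sum_congr rfl fun t _ => ?_
  rw [Fintype.sum_unique]
  simp only [sgn_dec, ext_eq]
  have h1 : ((Perm.sign (default : Perm (Fin 1)) : ℤ) : ℝ) = 1 := by
    simp [Subsingleton.elim (default : Perm (Fin 1)) 1]
  have h2 : ⇑(default : Perm (Fin 1)) = id := by
    funext k; exact Subsingleton.elim _ _
  rw [h1, h2]
  unfold fz sz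
  simp only [sgb_xor]
  ring

def tab : List (List (List (ℕ × List ℕ))) :=
  [[[(0, []), (0, [2]), (1, []), (1, [2]),
      (1, [2, 5]), (1, [5]), (0, [1]), (0, [1, 2]),
      (1, [4]), (1, [2, 4]), (1, [2, 7]), (1, [4, 5]),
      (1, [1, 4]), (1, [4, 7]), (1, [1]), (1, [1, 2]),
      (2, []), (2, [2]), (1, [7]), (1, [1, 7]),
      (2, [1, 2]), (2, [1]), (1, [5, 7]), (1, [1, 5])],
     [(1, [6, 7]), (1, [0, 6, 7]), (3, []), (3, [2]),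
      (3, [2, 5]), (3, [5]), (1, [2, 6, 7]), (1, [0, 2, 6, 7]),
      (4, []), (4, [2]), (4, [2, 5]), (4, [5]),
      (4, [1]), (4, [1, 2]), (3, [1]), (3, [1, 2]),
      (5, []), (5, [2]), (4, [1, 2, 5]), (4, [1, 5]),
      (5, [1, 2]), (5, [1]), (3, [1, 2, 5]), (3, [1, 5])],
     [(1, [2, 5, 6, 7]), (1, [0, 2, 5, 6, 7]), (4, [4]), (4, [2, 4]),
      (4, [2, 4, 5]), (4, [4, 5]), (1, [5, 6, 7]), (1, [0, 5, 6, 7]),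
      (3, [4]), (3, [2, 4]), (3, [2, 4, 5]), (3, [4, 5]),
      (3, [1, 4]), (3, [1, 2, 4]), (4, [1, 4]), (4, [1, 2, 4]),
      (5, [2, 4]), (5, [4]), (3, [1, 2, 4, 5]), (3, [1, 4, 5]),
      (5, [1, 4]), (5, [1, 2, 4]), (4, [1, 2, 4, 5]), (4, [1, 4, 5])],
     [(1, [6]), (1, [2, 6]), (4, [4, 6]), (4, [2, 4, 6]),
      (3, [2, 5, 7]), (3, [1, 2, 5, 7]), (1, [0, 6]), (1, [0, 2, 6]),
      (4, [1, 2, 7]), (4, [2, 7]), (3, [2, 7]), (3, [1, 2, 7]),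
      (4, [1, 7]), (4, [7]), (4, [0, 4, 6]), (4, [5, 7]),
      (5, [7]), (5, [1, 7]), (3, [7]), (3, [1, 7]),
      (5, [1, 2, 7]), (5, [2, 7]), (3, [5, 7]), (3, [1, 5, 7])],
     [(1, [2, 5, 6]), (1, [5, 6]), (3, [2, 5, 7, 6]), (3, [2, 4, 5, 7]),
      (4, [2, 4, 5, 6]), (4, [4, 5, 6]), (1, [0, 2, 5, 6]), (1, [0, 5, 6]),
      (3, [1, 2, 4, 7]), (3, [2, 4, 7]), (4, [2, 4, 7]), (4, [1, 2, 4, 7]),
      (3, [1, 4, 7]), (3, [4, 7]), (3, [1, 4, 5, 7]), (3, [4, 5, 7]),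
      (5, [2, 4, 7]), (5, [1, 2, 4, 7]), (4, [4, 7]), (4, [1, 4, 7]),
      (5, [1, 4, 7]), (5, [4, 7]), (4, [4, 5, 7]), (4, [0, 4, 5, 6])]],
   [[(0, [0]), (0, [0, 2]), (1, [0]), (1, [0, 2]),
      (1, [0, 2, 5]), (1, [0, 5]), (0, [0, 1]), (0, [0, 1, 2]),
      (1, [0, 4]), (1, [0, 2, 4]), (1, [0, 2, 7]), (1, [0, 4, 5]),
      (1, [0, 1, 4]), (1, [0, 4, 7]), (1, [0, 1]), (1, [0, 1, 2]),
      (2, [0]), (2, [0, 2]), (1, [0, 7]), (1, [0, 1, 7]),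
      (2, [0, 1, 2]), (2, [0, 1]), (1, [0, 5, 7]), (1, [0, 1, 5])],
     [(1, [4, 6, 7]), (1, [0, 4, 6, 7]), (3, [3]), (3, [2, 3]),
      (3, [2, 3, 5]), (3, [3, 5]), (1, [2, 4, 6, 7]), (1, [0, 2, 4, 6, 7]),
      (4, [3]), (4, [2, 3]), (4, [2, 3, 5]), (4, [3, 5]),
      (4, [1, 3]), (4, [1, 2, 3]), (3, [1, 3]), (3, [1, 2, 3]),
      (5, [3]), (5, [2, 3]), (4, [6, 7]), (4, [0, 6, 7]),
      (5, [1, 2, 3]), (5, [1, 3]), (3, [1, 2, 3, 5]), (3, [1, 3, 5])],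
     [(1, [2, 6, 7, 6]), (1, [0, 2, 6, 7, 6]), (4, [3, 4]), (4, [2, 3, 4]),
      (4, [2, 3, 4, 5]), (4, [3, 4, 5]), (1, [4, 5, 6, 7]), (1, [0, 4, 5, 6, 7]),
      (3, [3, 4]), (3, [2, 3, 4]), (3, [2, 3, 4, 5]), (3, [3, 4, 5]),
      (3, [1, 3, 4]), (3, [1, 2, 3, 4]), (4, [1, 3, 4]), (4, [0, 2, 7, 6]),
      (5, [2, 3, 4]), (5, [3, 4]), (3, [2, 6, 7, 6]), (3, [1, 3, 4, 5]),
      (5, [1, 3, 4]), (5, [1, 2, 3, 4]), (4, [5, 6, 7]), (4, [0, 5, 6, 7])],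
     [(1, [4, 6]), (1, [2, 4, 6]), (4, [6]), (4, [2, 6]),
      (3, [2, 3, 5, 7]), (3, [2, 4, 7, 6]), (1, [0, 4, 6]), (1, [0, 2, 4, 6]),
      (4, [3, 6]), (4, [2, 3, 6]), (3, [2, 3, 7]), (3, [1, 2, 3, 7]),
      (4, [0, 3, 6]), (4, [3, 7]), (4, [0, 6]), (4, [0, 2, 6]),
      (5, [3, 7]), (5, [1, 3, 7]), (3, [3, 7]), (3, [1, 3, 7]),
      (5, [1, 2, 3, 7]), (5, [2, 3, 7]), (3, [3, 5, 7]), (3, [1, 3, 5, 7])],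
     [(1, [2, 7, 6]), (1, [4, 5, 6]), (3, [2, 7, 6]), (3, [1, 2, 7, 6]),
      (4, [2, 5, 6]), (4, [5, 6]), (1, [0, 2, 7, 6]), (1, [0, 4, 5, 6]),
      (3, [2, 3, 7, 6]), (3, [2, 3, 4, 7]), (4, [2, 3, 4, 7]), (4, [3, 5, 6]),
      (3, [1, 3, 4, 7]), (3, [3, 4, 7]), (3, [0, 2, 7, 6]), (3, [3, 4, 5, 7]),
      (5, [2, 3, 4, 7]), (5, [1, 2, 3, 4, 7]), (4, [3, 4, 7]), (4, [0, 3, 5, 6]),
      (5, [1, 3, 4, 7]), (5, [3, 4, 7]), (4, [0, 2, 5, 6]), (4, [0, 5, 6])]],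
   [[(1, [1, 4, 6, 7]), (1, [0, 1, 4, 6, 7]), (3, [0, 3]), (3, [0, 2, 3]),
      (3, [0, 2, 3, 5]), (3, [0, 3, 5]), (1, [4, 6, 7, 6]), (1, [0, 4, 6, 7, 6]),
      (4, [0, 3]), (4, [0, 2, 3]), (4, [0, 2, 3, 5]), (4, [0, 3, 5]),
      (4, [0, 1, 3]), (4, [0, 1, 2, 3]), (3, [0, 1, 3]), (3, [0, 1, 2, 3]),
      (5, [0, 3]), (5, [0, 2, 3]), (4, [1, 6, 7]), (4, [0, 1, 3, 5]),
      (5, [0, 1, 2, 3]), (5, [0, 1, 3]), (3, [4, 6, 7, 6]), (3, [0, 1, 3, 5])],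
     [(1, [1, 6, 7]), (1, [0, 1, 6, 7]), (3, [0]), (3, [0, 2]),
      (3, [0, 2, 5]), (3, [0, 5]), (1, [1, 2, 6, 7]), (1, [0, 1, 2, 6, 7]),
      (4, [0]), (4, [0, 2]), (4, [0, 2, 5]), (4, [0, 5]),
      (4, [0, 1]), (4, [0, 1, 2]), (3, [0, 1]), (3, [0, 1, 2]),
      (5, [0]), (5, [0, 2]), (4, [0, 1, 2, 5]), (4, [0, 1, 5]),
      (5, [0, 1, 2]), (5, [0, 1]), (3, [0, 1, 2, 5]), (3, [0, 1, 5])],
     [(2, [6, 7]), (2, [0, 6, 7]), (5, [0, 2, 3, 4, 6, 7]), (5, [2, 3, 4, 6, 7]),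
      (5, [2, 4, 6, 7]), (5, [0, 2, 4, 6, 7]), (2, [2, 6, 7]), (2, [0, 2, 6, 7]),
      (5, [0, 2, 3, 6, 7]), (5, [2, 3, 6, 7]), (5, [2, 6, 7]), (5, [0, 2, 6, 7]),
      (5, [0, 3, 6, 7]), (5, [3, 6, 7]), (5, [0, 3, 4, 6, 7]), (5, [3, 4, 6, 7]),
      (6, []), (6, [2]), (5, [6, 7]), (5, [0, 6, 7]),
      (6, [1, 2]), (6, [1]), (5, [4, 6, 7]), (5, [0, 4, 6, 7])],
     [(3, [0, 3, 6]), (3, [0, 2, 3, 6]), (5, [0, 2, 3, 4, 6, 7, 6]), (5, [2, 3, 4, 6, 7, 6]),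
      (7, []), (7, [2]), (3, [3, 6]), (3, [2, 3, 6]),
      (3, [3, 4, 6]), (3, [2, 3, 4, 6]), (5, [1, 3, 4, 7, 6]), (5, [3, 4, 7, 6]),
      (3, [0, 3, 4, 6]), (3, [1, 3, 6, 7]), (5, [0, 1, 2, 3, 4, 6, 7, 6]), (5, [1, 2, 3, 4, 6, 7, 6]),
      (7, [3]), (7, [2, 3]), (5, [0, 1, 3, 4, 7, 6]), (5, [0, 3, 4, 7, 6]),
      (7, [1, 2, 3]), (7, [1, 3]), (7, [1]), (7, [1, 2])],
     [(3, [1, 4, 6, 7]), (3, [0, 3, 5, 6]), (7, [6]), (7, [5]),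
      (5, [2, 4, 6, 7, 6]), (5, [0, 2, 4, 6, 7, 6]), (3, [2, 3, 5, 6]), (3, [3, 5, 6]),
      (5, [3, 7, 6]), (5, [1, 3, 7, 6]), (3, [1, 2, 6, 7]), (3, [3, 4, 5, 6]),
      (5, [0, 3, 7, 6]), (5, [0, 1, 3, 7, 6]), (7, [0, 6]), (7, [1, 5]),
      (7, [1, 3, 5]), (7, [0, 4, 6]), (3, [1, 6, 7]), (3, [0, 1, 6, 7]),
      (7, [4, 6]), (7, [3, 5]), (5, [1, 2, 4, 6, 7, 6]), (5, [0, 1, 2, 4, 6, 7, 6])]],
   [[(1, [6, 7, 6]), (1, [0, 6, 7, 6]), (4, [0, 3, 4]), (4, [7, 6]),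
      (4, [4, 7, 6]), (4, [0, 3, 4, 5]), (1, [1, 6, 7, 6]), (1, [0, 1, 6, 7, 6]),
      (3, [0, 3, 4]), (3, [0, 2, 3, 4]), (3, [1, 6, 7, 6]), (3, [0, 3, 4, 5]),
      (3, [0, 1, 3, 4]), (3, [3, 6, 7, 6]), (4, [0, 1, 3, 4]), (4, [0, 7, 6]),
      (5, [0, 2, 3, 4]), (5, [0, 3, 4]), (3, [6, 7, 6]), (3, [0, 6, 7, 6]),
      (5, [0, 1, 3, 4]), (5, [0, 1, 2, 3, 4]), (4, [0, 4, 7, 6]), (4, [0, 1, 3, 4, 5])],
     [(2, [1, 2, 6, 7]), (2, [0, 1, 2, 6, 7]), (5, [0, 1, 2, 3, 6, 7]), (5, [1, 2, 3, 6, 7]),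
      (5, [1, 2, 6, 7]), (5, [0, 1, 2, 6, 7]), (2, [1, 6, 7]), (2, [0, 1, 6, 7]),
      (5, [0, 1, 2, 3, 4, 6, 7]), (5, [1, 2, 3, 4, 6, 7]), (5, [1, 2, 4, 6, 7]), (5, [0, 1, 2, 4, 6, 7]),
      (5, [0, 1, 3, 4, 6, 7]), (5, [1, 3, 4, 6, 7]), (5, [0, 1, 3, 6, 7]), (5, [1, 3, 6, 7]),
      (6, [0, 2]), (6, [0]), (5, [1, 4, 6, 7]), (5, [0, 1, 4, 6, 7]),
      (6, [0, 1]), (6, [0, 1, 2]), (5, [1, 6, 7]), (5, [0, 1, 6, 7])],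
     [(1, [5, 6, 7, 6]), (1, [0, 5, 6, 7, 6]), (4, [0, 4]), (4, [0, 2, 4]),
      (4, [0, 2, 4, 5]), (4, [0, 4, 5]), (1, [1, 5, 6, 7]), (1, [0, 1, 5, 6, 7]),
      (3, [0, 4]), (3, [0, 2, 4]), (3, [0, 2, 4, 5]), (3, [0, 4, 5]),
      (3, [0, 1, 4]), (3, [0, 1, 2, 4]), (4, [0, 1, 4]), (4, [0, 1, 2, 4]),
      (5, [0, 2, 4]), (5, [0, 4]), (3, [5, 6, 7, 6]), (3, [0, 1, 4, 5]),
      (5, [0, 1, 4]), (5, [0, 1, 2, 4]), (4, [0, 1, 2, 4, 5]), (4, [0, 1, 4, 5])],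
     [(3, [6]), (3, [2, 6]), (3, [4, 6]), (3, [2, 4, 6]),
      (5, [1, 4, 7, 6]), (5, [4, 7, 6]), (3, [0, 6]), (3, [0, 2, 6]),
      (5, [0, 2, 3, 6, 7, 6]), (5, [2, 3, 6, 7, 6]), (7, [4]), (7, [2, 4]),
      (5, [0, 1, 2, 3, 6, 7, 6]), (5, [1, 2, 3, 6, 7, 6]), (3, [0, 4, 6]), (3, [0, 2, 4, 6]),
      (7, [2, 3, 4]), (7, [3, 4]), (7, [1, 4]), (7, [1, 2, 4]),
      (7, [1, 3, 4]), (7, [0, 1, 6, 7]), (5, [0, 1, 4, 7, 6]), (5, [0, 4, 7, 6])],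
     [(3, [2, 5, 6]), (3, [5, 6]), (5, [7, 6]), (5, [1, 7, 6]),
      (3, [2, 4, 5, 6]), (3, [4, 5, 6]), (3, [0, 2, 5, 6]), (3, [0, 5, 6]),
      (7, [3, 6]), (7, [4, 5]), (5, [2, 6, 7, 6]), (5, [0, 2, 6, 7, 6]),
      (7, [7, 6]), (7, [1, 4, 5]), (5, [0, 7, 6]), (5, [0, 1, 7, 6]),
      (7, [5, 7, 6]), (7, [1, 3, 4, 5]), (5, [1, 2, 6, 7, 6]), (5, [0, 1, 2, 6, 7, 6]),
      (7, [3, 4, 5]), (7, [3, 4, 6]), (3, [1, 5, 6, 7]), (3, [0, 4, 5, 6])]],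
   [[(1, [1, 4, 6]), (1, [4, 7, 6]), (4, [1, 6]), (4, [1, 2, 6]),
      (3, [1, 4, 7, 6]), (3, [4, 7, 6]), (1, [0, 1, 4, 6]), (1, [0, 4, 7, 6]),
      (4, [1, 3, 6]), (4, [0, 2, 3, 7]), (3, [0, 2, 3, 7]), (3, [3, 4, 7, 6]),
      (4, [0, 1, 3, 6]), (4, [0, 3, 7]), (4, [0, 1, 6]), (4, [0, 1, 2, 6]),
      (5, [0, 3, 7]), (5, [0, 1, 3, 7]), (3, [0, 3, 7]), (3, [0, 1, 3, 7]),
      (5, [0, 1, 2, 3, 7]), (5, [0, 2, 3, 7]), (3, [0, 3, 5, 7]), (3, [0, 4, 7, 6])],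
     [(3, [0, 3, 6, 7]), (3, [3, 6, 7]), (5, [0, 1, 3, 4, 6, 7, 6]), (5, [1, 3, 4, 6, 7, 6]),
      (7, [7]), (7, [1, 7]), (3, [1, 3, 4, 6]), (3, [2, 3, 6, 7]),
      (3, [1, 3, 6]), (3, [1, 2, 3, 6]), (5, [2, 3, 4, 7, 6]), (5, [1, 2, 3, 4, 7, 6]),
      (3, [0, 1, 3, 6]), (3, [3, 4, 6, 7]), (5, [0, 3, 4, 6, 7, 6]), (5, [3, 4, 6, 7, 6]),
      (7, [0]), (7, [0, 2]), (5, [0, 2, 3, 4, 7, 6]), (5, [0, 1, 2, 3, 4, 7, 6]),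
      (7, [0, 1, 2]), (7, [0, 1]), (7, [2, 7]), (7, [1, 2, 7])],
     [(3, [1, 4, 6]), (3, [1, 2, 4, 6]), (3, [1, 6]), (3, [1, 2, 6]),
      (5, [2, 4, 7, 6]), (5, [1, 2, 4, 7, 6]), (3, [0, 1, 4, 6]), (3, [3, 5, 6, 7]),
      (5, [0, 1, 3, 6, 7, 6]), (5, [1, 3, 6, 7, 6]), (7, [5, 7]), (7, [1, 5, 7]),
      (5, [0, 3, 6, 7, 6]), (5, [3, 6, 7, 6]), (3, [0, 1, 6]), (3, [0, 1, 2, 6]),
      (7, [0, 2, 4]), (7, [0, 4]), (7, [6, 7]), (7, [0, 6, 7]),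
      (7, [0, 1, 4]), (7, [0, 1, 2, 4]), (5, [0, 2, 4, 7, 6]), (5, [0, 1, 2, 4, 7, 6])],
     [(1, [1, 6]), (1, [1, 2, 6]), (4, [1, 4, 6]), (4, [0, 2, 5, 7]),
      (3, [0, 2, 5, 7]), (3, [4, 5, 7, 6]), (1, [0, 1, 6]), (1, [0, 1, 2, 6]),
      (4, [0, 1, 2, 7]), (4, [0, 2, 7]), (3, [0, 2, 7]), (3, [0, 1, 2, 7]),
      (4, [0, 1, 7]), (4, [0, 7]), (4, [0, 1, 4, 6]), (4, [0, 5, 7]),
      (5, [0, 7]), (5, [0, 1, 7]), (3, [0, 7]), (3, [0, 1, 7]),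
      (5, [0, 1, 2, 7]), (5, [0, 2, 7]), (3, [0, 5, 7]), (3, [0, 1, 5, 7])],
     [(2, [6]), (2, [2, 6]), (5, [6]), (5, [2, 6]),
      (5, [2, 4, 6]), (5, [4, 6]), (2, [0, 6]), (2, [0, 2, 6]),
      (5, [3, 6]), (5, [2, 3, 6]), (5, [2, 3, 4, 6]), (5, [3, 4, 6]),
      (5, [0, 3, 6]), (5, [0, 2, 3, 6]), (5, [0, 6]), (5, [0, 2, 6]),
      (6, [6]), (6, [1, 7]), (5, [0, 2, 3, 4, 6]), (5, [0, 3, 4, 6]),
      (6, [0, 2, 6]), (6, [0, 6]), (5, [0, 2, 4, 6]), (5, [0, 4, 6])]],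
   [[(1, [7, 6]), (1, [1, 7, 6]), (3, [7, 6]), (3, [1, 7, 6]),
      (4, [1, 2, 5, 6]), (4, [1, 5, 6]), (1, [0, 7, 6]), (1, [0, 1, 7, 6]),
      (3, [3, 7, 6]), (3, [1, 3, 7, 6]), (4, [6, 7, 6]), (4, [0, 6, 7, 6]),
      (3, [0, 3, 7, 6]), (3, [0, 3, 4, 7]), (3, [0, 7, 6]), (3, [0, 1, 7, 6]),
      (5, [0, 2, 3, 4, 7]), (5, [0, 1, 2, 3, 4, 7]), (4, [0, 3, 4, 7]), (4, [0, 1, 3, 4, 7]),
      (5, [0, 1, 3, 4, 7]), (5, [0, 3, 4, 7]), (4, [0, 1, 2, 5, 6]), (4, [0, 1, 5, 6])],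
     [(3, [6, 7]), (3, [0, 6, 7]), (7, [1, 4, 6]), (7, [4, 7]),
      (5, [1, 4, 6, 7, 6]), (5, [0, 1, 4, 6, 7, 6]), (3, [2, 6, 7]), (3, [0, 2, 6, 7]),
      (5, [1, 2, 3, 7, 6]), (5, [2, 3, 7, 6]), (3, [2, 4, 6, 7]), (3, [1, 3, 5, 6]),
      (5, [0, 1, 2, 3, 7, 6]), (5, [0, 2, 3, 7, 6]), (7, [0, 1, 4, 6]), (7, [2, 4, 7]),
      (7, [0, 1, 5]), (7, [0, 1, 6]), (3, [4, 6, 7]), (3, [0, 4, 6, 7]),
      (7, [1, 6]), (7, [0, 5]), (5, [4, 6, 7, 6]), (5, [0, 4, 6, 7, 6])],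
     [(3, [2, 5, 6, 7]), (3, [1, 4, 5, 6]), (5, [1, 2, 7, 6]), (5, [2, 7, 6]),
      (3, [1, 2, 5, 6]), (3, [1, 5, 6]), (3, [5, 6, 7]), (3, [0, 5, 6, 7]),
      (7, [1, 3, 4, 6]), (7, [4, 5, 7]), (5, [1, 6, 7, 6]), (5, [0, 1, 6, 7, 6]),
      (7, [6, 7, 6]), (7, [3, 6, 7]), (5, [0, 1, 2, 7, 6]), (5, [0, 2, 7, 6]),
      (7, [2, 7, 6]), (7, [0, 1, 4, 5]), (5, [6, 7, 6]), (5, [0, 6, 7, 6]),
      (7, [0, 4, 5]), (7, [1, 3, 6]), (3, [4, 5, 6, 7]), (3, [0, 1, 5, 6])],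
     [(2, [1, 2, 6]), (2, [1, 6]), (5, [1, 4, 6]), (5, [1, 2, 4, 6]),
      (5, [1, 2, 6]), (5, [1, 6]), (2, [0, 1, 2, 6]), (2, [0, 1, 6]),
      (5, [1, 3, 4, 6]), (5, [1, 2, 3, 4, 6]), (5, [1, 2, 3, 6]), (5, [1, 3, 6]),
      (5, [0, 1, 3, 4, 6]), (5, [0, 1, 2, 3, 4, 6]), (5, [0, 1, 4, 6]), (5, [0, 1, 2, 4, 6]),
      (6, [0, 1, 6]), (6, [0, 1, 2, 6]), (5, [0, 1, 2, 3, 6]), (5, [0, 1, 3, 6]),
      (6, [0, 1, 7]), (6, [0, 7]), (5, [0, 1, 2, 6]), (5, [0, 1, 6])],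
     [(1, [5, 7, 6]), (1, [1, 5, 6]), (3, [5, 7, 6]), (3, [1, 5, 7, 6]),
      (4, [0, 2, 4, 5, 7]), (4, [1, 4, 5, 6]), (1, [0, 5, 7, 6]), (1, [0, 1, 5, 6]),
      (3, [3, 5, 7, 6]), (3, [0, 2, 4, 7]), (4, [0, 2, 4, 7]), (4, [0, 1, 2, 4, 7]),
      (3, [0, 1, 4, 7]), (3, [0, 4, 7]), (3, [0, 5, 7, 6]), (3, [0, 4, 5, 7]),
      (5, [0, 2, 4, 7]), (5, [0, 1, 2, 4, 7]), (4, [0, 4, 7]), (4, [0, 1, 4, 7]),
      (5, [0, 1, 4, 7]), (5, [0, 4, 7]), (4, [0, 4, 5, 7]), (4, [0, 1, 4, 5, 6])]]]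

def repc (c : ℕ) : Fin 6 → Fin 6 :=
  match c with
  | 0 => ![0, 1, 2, 3, 4, 5]
  | 1 => ![0, 1, 2, 4, 3, 5]
  | 2 => ![0, 1, 4, 5, 2, 3]
  | 3 => ![0, 2, 1, 4, 3, 5]
  | 4 => ![0, 2, 3, 4, 1, 5]
  | 5 => ![0, 2, 4, 5, 1, 3]
  | 6 => ![2, 3, 4, 5, 0, 1]
  | _ => ![2, 4, 0, 5, 1, 3]

def reps (c : ℕ) : Bool :=
  match c with
  | 0 => false
  | 1 => true
  | 2 => false
  | 3 => false
  | 4 => true
  | 5 => true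
  | 6 => false
  | _ => true

def ent (z : Z6) : ℕ × List ℕ :=
  ((tab.getD z.1.val []).getD z.2.1.val []).getD
    (z.2.2.1.val * 6 + z.2.2.2.1.val * 2 + z.2.2.2.2.val) (0, [])

def chkz (z : Z6) : Bool :=
  (xor (sz z) (mneg' (ent z).2) == reps (ent z).1) &&
    (List.finRange 6).all fun k => mvs (ent z).2 (repc (ent z).1) k == fz z k

theorem chk_all : (List.finRange 6).all (fun p => (List.finRange 5).all fun q =>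
    (List.finRange 4).all fun r => (List.finRange 3).all fun s => (List.finRange 2).all fun t =>
      chkz (p, q, r, s, t)) = true := by
  decide +kernel

end Pool.Agent.H274R2
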