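import Pool.Agent.H274R2.Avg

/-! Averages of products of at most three quadratic forms. -/

namespace Pool.Agent.H274R2

open Finset

theorem Av_qf2 (M N : Fin 6 → Fin 6 → ℝ) : Av (fun x => qf M x * qf N x) =
    ∑ a, ∑ b, (M a a * N b b + M a b * N a b + M a b * N b a) := by
  have h : (fun x => qf M x * qf N x) = fun x => ∑ a, ∑ b, ∑ c, ∑ d,
      (fun a b c d => M a b * N c d) a b c d * (x a * x b * (x c * x d)) := by
    funext x
    exact qf_mul M N x
  rw [h, Av_T4]

theorem Av_qf3 (M N P : Fin 6 → Fin 6 → ℝ) : Av (fun x => qf M x * qf N x * qf P x) =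
    ∑ a, ∑ b, ∑ c, (M a a * N b b * P c c
        + M a a * N b c * P b c
        + M a a * N b c * P c b
        + M a b * N a b * P c c
        + M a b * N a c * P b c
        + M a b * N a c * P c b
        + M a b * N b a * P c c
        + M a b * N c a * P b c
        + M a b * N c a * P c b
        + M a b * N b c * P a c
        + M a b * N c b * P a c
        + M a b * N c c * P a b
        + M a b * N b c * P c a
        + M a b * N c b * P c a
        + M a b * N c c * P b a) := by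
  have h : (fun x => qf M x * qf N x * qf P x) = fun x => ∑ a, ∑ b, ∑ c, ∑ d, ∑ e, ∑ f,
      (fun a b c d e f => M a b * N c d * P e f) a b c d e f *
        (x a * x b * (x c * x d) * (x e * x f)) := by
    funext x
    exact qf_mul3 M N P x
  rw [h, Av_T6]

theorem coll' (F : Fin 6 → ℝ) (a : Fin 6) : ∑ b, dl b a * F b = F a := by
  simp [dl]

theorem dl_self (a : Fin 6) : dl a a = 1 := by simp [dl]

theorem sum_one : ∑ _a : Fin 6, (1 : ℝ) = 6 := by simp

theorem Av_n2 (M N : Fin 6 → Fin 6 → ℝ) : Av (fun x => qf dl x * qf M x * qf N x) =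
    10 * Av (fun x => qf M x * qf N x) := by
  rw [Av_qf3, Av_qf2]
  simp only [Finset.sum_add_distrib, mul_assoc, ← Finset.mul_sum, coll, dl_self, one_mul,
    Finset.sum_const, Finset.card_univ, Fintype.card_fin, nsmul_eq_mul]
  have h1 : ∑ x, ∑ y, M x y * N y x = ∑ x, ∑ y, M y x * N x y := by
    rw [Finset.sum_comm]
  have h2 : ∑ x, ∑ y, M x y * N x y = ∑ x, ∑ y, M y x * N y x := by
    rw [Finset.sum_comm]
  have h3 : ∑ x, ∑ y, M x x * N y y = ∑ x, ∑ y, M y y * N x x := by
    rw [Finset.sum_comm]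
  simp only [← Finset.mul_sum] at h3
  push_cast
  linarith [h1, h2, h3]

theorem qf_add (M N : Fin 6 → Fin 6 → ℝ) (x : Fin 6 → ℝ) :
    qf (fun a b => M a b + N a b) x = qf M x + qf N x := by
  simp [qf, add_mul, Finset.sum_add_distrib]

theorem qf_smul (c : ℝ) (M : Fin 6 → Fin 6 → ℝ) (x : Fin 6 → ℝ) :
    qf (fun a b => c * M a b) x = c * qf M x := by
  simp [qf, Finset.mul_sum, mul_assoc]

theorem qf_sum {ι : Type*} (s : Finset ι) (M : ι → Fin 6 → Fin 6 → ℝ) (x : Fin 6 → ℝ) :
    qf (fun a b => ∑ k ∈ s, M k a b) x = ∑ k ∈ s, qf (M k) x := by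
  unfold qf
  simp only [Finset.sum_mul]
  calc _ = ∑ a, ∑ k ∈ s, ∑ b, M k a b * (x a * x b) :=
        Finset.sum_congr rfl fun a _ => Finset.sum_comm
    _ = _ := Finset.sum_comm

/-- squared norm -/
noncomputable def nn (x : Fin 6 → ℝ) : ℝ := ∑ a, x a ^ 2

theorem qf_dl (x : Fin 6 → ℝ) : qf dl x = nn x := by
  unfold qf nn
  simp only [coll]
  exact Finset.sum_congr rfl fun a _ => by ring

theorem Av_nnM2 (M N : Fin 6 → Fin 6 → ℝ) : Av (fun x => nn x * qf M x * qf N x) =
    10 * Av (fun x => qf M x * qf N x) := by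
  simpa only [qf_dl] using Av_n2 M N

theorem Av_nn1 (M : Fin 6 → Fin 6 → ℝ) : Av (fun x => nn x ^ 2 * qf M x) =
    80 * ∑ a, M a a := by
  have h := Av_n2 dl M
  rw [Av_qf2] at h
  simp only [Finset.sum_add_distrib, ← Finset.mul_sum, coll, dl_self, one_mul,
    Finset.sum_const, Finset.card_univ, Fintype.card_fin, nsmul_eq_mul] at h
  have e : (fun x => qf dl x * qf dl x * qf M x) = fun x => nn x ^ 2 * qf M x := by
    funext x; rw [qf_dl]; ring
  rw [e] at h
  rw [h]
  push_cast
  ring

theorem Av_nn3 : Av (fun x => nn x ^ 3) = 480 := by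
  have h := Av_nn1 dl
  simp only [dl_self, sum_one, qf_dl] at h
  have e : (fun x => nn x ^ 3) = fun x => nn x ^ 2 * nn x := by
    funext x; ring
  rw [e, h]
  norm_num

end Pool.Agent.H274R2
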