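import Pool.Agent.H274R2.Graph
import Pool.Agent.H274R2.Qf

/-! Ricci contractions and basic identities. -/

namespace Pool.Agent.H274R2

open Finset

section gen
variable {ι : Type} [Fintype ι]

/-- Ricci tensor -/
def ric (R : ι → ι → ι → ι → ℝ) (a b : ι) : ℝ := ∑ c, R a c b c

/-- scalar curvature -/
def sc (R : ι → ι → ι → ι → ℝ) : ℝ := ∑ a, ric R a a

/-- `|Ric|^2` -/
def nr (R : ι → ι → ι → ι → ℝ) : ℝ := ∑ a, ∑ b, ric R a b ^ 2

/-- `|R|^2` -/
def n4 (R : ι → ι → ι → ι → ℝ) : ℝ := ∑ a, ∑ b, ∑ c, ∑ d, R a b c d ^ 2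

/-- `R_{p abc} R_{q abc}` -/
def RR (R : ι → ι → ι → ι → ℝ) (p q : ι) : ℝ := ∑ a, ∑ b, ∑ c, R p a b c * R q a b c

/-- `tr Ric^3` -/
def i4 (R : ι → ι → ι → ι → ℝ) : ℝ := ∑ a, ∑ b, ∑ c, ric R a b * ric R b c * ric R c a

/-- `Ric_{ab} Ric_{cd} R_{acbd}` -/
def i5 (R : ι → ι → ι → ι → ℝ) : ℝ := ∑ a, ∑ b, ∑ c, ∑ d, ric R a b * ric R c d * R a c b d

/-- `Ric_{ab} R_{acde} R_{bcde}` -/
def i6 (R : ι → ι → ι → ι → ℝ) : ℝ := ∑ a, ∑ b, ric R a b * RR R a b

/-- `R_{abcd} R_{cdef} R_{efab}` -/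
def i7 (R : ι → ι → ι → ι → ℝ) : ℝ :=
  ∑ a, ∑ b, ∑ c, ∑ d, ∑ e, ∑ f, R a b c d * R c d e f * R e f a b

/-- `R_{acbd} R_{cedf} R_{eafb}` -/
def i8 (R : ι → ι → ι → ι → ℝ) : ℝ :=
  ∑ a, ∑ b, ∑ c, ∑ d, ∑ e, ∑ f, R a c b d * R c e d f * R e a f b

variable {R : ι → ι → ι → ι → ℝ}

theorem ric_symm (h : IsCurv R) (a b : ι) : ric R a b = ric R b a := by
  unfold ric
  exact Finset.sum_congr rfl fun c _ => (h.pr _ _ _ _).symm

theorem IsCurv.sw (h : IsCurv R) (a b c d : ι) : R b a d c = R a b c d := by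
  rw [h.a1, h.a2]; ring

theorem trJ (h : IsCurv R) (a b : ι) : ∑ p, R p a p b = ric R a b := by
  unfold ric
  exact Finset.sum_congr rfl fun c _ => h.sw _ _ _ _

theorem RR_symm (p q : ι) : RR R p q = RR R q p := by
  unfold RR
  exact Finset.sum_congr rfl fun _ _ => Finset.sum_congr rfl fun _ _ =>
    Finset.sum_congr rfl fun _ _ => mul_comm _ _

theorem RR_a (h : IsCurv R) (p q : ι) : ∑ i, ∑ j, ∑ k, R p i j k * R q k j i = RR R p q / 2 := by
  have h1 : ∑ i, ∑ j, ∑ k, R p i j k * R q j k i = - ∑ i, ∑ j, ∑ k, R p i j k * R q k j i := by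
    have : ∑ i, ∑ j, ∑ k, R p i j k * R q j k i = ∑ i, ∑ j, ∑ k, R p i k j * R q k j i :=
      Finset.sum_congr rfl fun i _ => Finset.sum_comm
    rw [this]
    simp only [← Finset.sum_neg_distrib]
    refine Finset.sum_congr rfl fun i _ => Finset.sum_congr rfl fun j _ =>
      Finset.sum_congr rfl fun k _ => ?_
    rw [h.a2 p i j k]; ring
  have h2 : ∑ i, ∑ j, ∑ k, R p i j k * R q k i j = - ∑ i, ∑ j, ∑ k, R p i j k * R q k j i := by
    simp only [← Finset.sum_neg_distrib]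
    refine Finset.sum_congr rfl fun i _ => Finset.sum_congr rfl fun j _ =>
      Finset.sum_congr rfl fun k _ => ?_
    rw [h.a2 q k j i]; ring
  have h3 : RR R p q + ∑ i, ∑ j, ∑ k, R p i j k * R q j k i
      + ∑ i, ∑ j, ∑ k, R p i j k * R q k i j = 0 := by
    unfold RR
    simp only [← Finset.sum_add_distrib]
    refine Finset.sum_eq_zero fun i _ => Finset.sum_eq_zero fun j _ =>
      Finset.sum_eq_zero fun k _ => ?_
    have := h.bi i j k q
    have e1 : R q i j k = - R j k i q := by rw [h.a1, ← h.pr]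
    have e2 : R q j k i = - R k i j q := by rw [h.a1, ← h.pr]
    have e3 : R q k i j = - R i j k q := by rw [h.a1, ← h.pr]
    rw [e1, e2, e3]
    linear_combination (-R p i j k) * this
  linarith

end gen

end Pool.Agent.H274R2
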