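import Pool.Agent.H274R2.UM

/-! Change of orthonormal frame. -/

namespace Pool.Agent.H274R2

open Finset

def rot1 (O : M6) (f : V6) : V6 := fun a => ∑ p, O p a * f p
def rot2 (O : M6) (M : M6) : M6 := fun a b => ∑ p, O p a * rot1 O (M p) b
def rot3 (O : M6) (T : Fin 6 → M6) : Fin 6 → M6 := fun a b c => ∑ p, O p a * rot2 O (T p) b c
def rot4 (O : M6) (R : T4) : T4 := fun a b c d => ∑ p, O p a * rot3 O (R p) b c d

def Ort (O : M6) : Prop := ∀ p q, ∑ a, O p a * O q a = dl p q

theorem dotO {O : M6} (hO : Ort O) (f g : V6) :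
    ∑ a, (∑ p, O p a * f p) * (∑ q, O q a * g q) = ∑ p, f p * g p := by
  have e : ∀ a, (∑ p, O p a * f p) * (∑ q, O q a * g q) =
      ∑ p, ∑ q, (f p * g q) * (O p a * O q a) := by
    intro a
    rw [Finset.sum_mul_sum]
    exact Finset.sum_congr rfl fun p _ => Finset.sum_congr rfl fun q _ => by ring
  simp only [e]
  rw [Finset.sum_comm]
  refine Finset.sum_congr rfl fun p _ => ?_
  rw [Finset.sum_comm]
  simp only [← Finset.mul_sum, hO p]
  have : ∀ q, f p * g q * dl p q = dl p q * (f p * g q) := fun q => by ring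
  simp only [this, coll]

theorem pair1 {O : M6} (hO : Ort O) (f g : V6) :
    ∑ a, rot1 O f a * rot1 O g a = ∑ p, f p * g p := dotO hO f g

theorem pair2 {O : M6} (hO : Ort O) (M N : M6) :
    ∑ a, ∑ b, rot2 O M a b * rot2 O N a b = ∑ a, ∑ b, M a b * N a b := by
  rw [Finset.sum_comm]
  have e : ∀ b, ∑ a, rot2 O M a b * rot2 O N a b = ∑ p, rot1 O (M p) b * rot1 O (N p) b :=
    fun b => dotO hO (fun p => rot1 O (M p) b) (fun p => rot1 O (N p) b)
  simp only [e]
  rw [Finset.sum_comm]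
  exact Finset.sum_congr rfl fun p _ => pair1 hO _ _

theorem pair3 {O : M6} (hO : Ort O) (M N : Fin 6 → M6) :
    ∑ a, ∑ b, ∑ c, rot3 O M a b c * rot3 O N a b c = ∑ a, ∑ b, ∑ c, M a b c * N a b c := by
  have e : ∀ b c, ∑ a, rot3 O M a b c * rot3 O N a b c =
      ∑ p, rot2 O (M p) b c * rot2 O (N p) b c :=
    fun b c => dotO hO (fun p => rot2 O (M p) b c) (fun p => rot2 O (N p) b c)
  calc _ = ∑ b, ∑ a, ∑ c, rot3 O M a b c * rot3 O N a b c := Finset.sum_comm
    _ = ∑ b, ∑ c, ∑ a, rot3 O M a b c * rot3 O N a b c :=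
        Finset.sum_congr rfl fun b _ => Finset.sum_comm
    _ = ∑ b, ∑ c, ∑ p, rot2 O (M p) b c * rot2 O (N p) b c := by simp only [e]
    _ = ∑ b, ∑ p, ∑ c, rot2 O (M p) b c * rot2 O (N p) b c :=
        Finset.sum_congr rfl fun b _ => Finset.sum_comm
    _ = ∑ p, ∑ b, ∑ c, rot2 O (M p) b c * rot2 O (N p) b c := Finset.sum_comm
    _ = _ := Finset.sum_congr rfl fun p _ => pair2 hO _ _

theorem pair4 {O : M6} (hO : Ort O) (M N : T4) :
    ∑ a, ∑ b, ∑ c, ∑ d, rot4 O M a b c d * rot4 O N a b c d =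
      ∑ a, ∑ b, ∑ c, ∑ d, M a b c d * N a b c d := by
  have e : ∀ b c d, ∑ a, rot4 O M a b c d * rot4 O N a b c d =
      ∑ p, rot3 O (M p) b c d * rot3 O (N p) b c d :=
    fun b c d => dotO hO (fun p => rot3 O (M p) b c d) (fun p => rot3 O (N p) b c d)
  calc _ = ∑ b, ∑ a, ∑ c, ∑ d, rot4 O M a b c d * rot4 O N a b c d := Finset.sum_comm
    _ = ∑ b, ∑ c, ∑ a, ∑ d, rot4 O M a b c d * rot4 O N a b c d :=
        Finset.sum_congr rfl fun b _ => Finset.sum_comm
    _ = ∑ b, ∑ c, ∑ d, ∑ a, rot4 O M a b c d * rot4 O N a b c d :=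
        Finset.sum_congr rfl fun b _ => Finset.sum_congr rfl fun c _ => Finset.sum_comm
    _ = ∑ b, ∑ c, ∑ d, ∑ p, rot3 O (M p) b c d * rot3 O (N p) b c d := by simp only [e]
    _ = ∑ b, ∑ c, ∑ p, ∑ d, rot3 O (M p) b c d * rot3 O (N p) b c d :=
        Finset.sum_congr rfl fun b _ => Finset.sum_congr rfl fun c _ => Finset.sum_comm
    _ = ∑ b, ∑ p, ∑ c, ∑ d, rot3 O (M p) b c d * rot3 O (N p) b c d :=
        Finset.sum_congr rfl fun b _ => Finset.sum_comm
    _ = ∑ p, ∑ b, ∑ c, ∑ d, rot3 O (M p) b c d * rot3 O (N p) b c d := Finset.sum_comm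
    _ = _ := Finset.sum_congr rfl fun p _ => pair3 hO _ _

/-! linearity -/
theorem rot1_sum (O : M6) (v : V6) (M : M6) (b : Fin 6) :
    rot1 O (fun b => ∑ p, v p * M p b) b = ∑ p, v p * rot1 O (M p) b := by
  unfold rot1
  simp only [Finset.mul_sum]
  rw [Finset.sum_comm]
  exact Finset.sum_congr rfl fun p _ => Finset.sum_congr rfl fun q _ => by ring

theorem rot2_sum (O : M6) (v : V6) (M : Fin 6 → M6) (b c : Fin 6) :
    rot2 O (fun b c => ∑ p, v p * M p b c) b c = ∑ p, v p * rot2 O (M p) b c := by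
  have e : ∀ q, rot1 O (fun c => ∑ p, v p * M p q c) c = ∑ p, v p * rot1 O (M p q) c := fun q =>
    rot1_sum O v (fun p => M p q) c
  unfold rot2
  simp only [e, Finset.mul_sum]
  rw [Finset.sum_comm]
  exact Finset.sum_congr rfl fun p _ => Finset.sum_congr rfl fun q _ => by ring

theorem rot3_sum (O : M6) (v : V6) (M : T4) (b c d : Fin 6) :
    rot3 O (fun b c d => ∑ p, v p * M p b c d) b c d = ∑ p, v p * rot3 O (M p) b c d := by
  have e : ∀ q, rot2 O (fun c d => ∑ p, v p * M p q c d) c d = ∑ p, v p * rot2 O (M p q) c d :=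
    fun q => rot2_sum O v (fun p => M p q) c d
  unfold rot3
  simp only [e, Finset.mul_sum]
  rw [Finset.sum_comm]
  exact Finset.sum_congr rfl fun p _ => Finset.sum_congr rfl fun q _ => by ring

/-! contractions with a vector -/
theorem con2 {O : M6} (hO : Ort O) (v : V6) (M : M6) (b : Fin 6) :
    ∑ a, rot1 O v a * rot2 O M a b = rot1 O (fun b => ∑ p, v p * M p b) b := by
  rw [rot1_sum]; exact dotO hO v (fun p => rot1 O (M p) b)

theorem con3 {O : M6} (hO : Ort O) (v : V6) (M : Fin 6 → M6) (b c : Fin 6) :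
    ∑ a, rot1 O v a * rot3 O M a b c = rot2 O (fun b c => ∑ p, v p * M p b c) b c := by
  rw [rot2_sum]; exact dotO hO v (fun p => rot2 O (M p) b c)

theorem con4 {O : M6} (hO : Ort O) (v : V6) (M : T4) (b c d : Fin 6) :
    ∑ a, rot1 O v a * rot4 O M a b c d = rot3 O (fun b c d => ∑ p, v p * M p b c d) b c d := by
  rw [rot3_sum]; exact dotO hO v (fun p => rot3 O (M p) b c d)

theorem con3' {O : M6} (hO : Ort O) (v : V6) (M : Fin 6 → M6) (a c : Fin 6) :
    ∑ b, rot1 O v b * rot3 O M a b c = rot2 O (fun a c => ∑ q, v q * M a q c) a c := by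
  have e : ∀ p, ∑ b, rot1 O v b * rot2 O (M p) b c = rot1 O (fun c => ∑ q, v q * M p q c) c :=
    fun p => con2 hO v (M p) c
  have e2 : rot2 O (fun a c => ∑ q, v q * M a q c) a c =
      ∑ p, O p a * rot1 O (fun c => ∑ q, v q * M p q c) c := rfl
  rw [e2]
  simp only [← e, Finset.mul_sum]
  have e3 : ∀ b, rot1 O v b * rot3 O M a b c = ∑ p, rot1 O v b * (O p a * rot2 O (M p) b c) := by
    intro b
    rw [← Finset.mul_sum]; rfl
  simp only [e3]
  rw [Finset.sum_comm]
  exact Finset.sum_congr rfl fun p _ => Finset.sum_congr rfl fun q _ => by ring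

theorem trO {O : M6} (hO : Ort O) (K : M6) : ∑ b, rot2 O K b b = ∑ q, K q q := by
  unfold rot2 rot1
  simp only [Finset.mul_sum]
  rw [Finset.sum_comm]
  refine Finset.sum_congr rfl fun p _ => ?_
  rw [Finset.sum_comm]
  calc _ = ∑ q, dl p q * K p q := by
        refine Finset.sum_congr rfl fun q _ => ?_
        rw [← hO p q, Finset.sum_mul]
        exact Finset.sum_congr rfl fun a _ => by ring
    _ = _ := coll _ _

theorem ric_rot {O : M6} (hO : Ort O) (R : T4) (a c : Fin 6) :
    ric (rot4 O R) a c = rot2 O (ric R) a c := by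
  have e1 : ∀ b, rot4 O R a b c b =
      ∑ p, O p a * ∑ r, O r c * rot2 O (fun q s => R p q r s) b b := by
    intro b
    unfold rot4
    refine Finset.sum_congr rfl fun p _ => ?_
    congr 1
    unfold rot3 rot2 rot1
    simp only [Finset.mul_sum]
    rw [Finset.sum_comm]
    refine Finset.sum_congr rfl fun q _ => Finset.sum_congr rfl fun r _ =>
      Finset.sum_congr rfl fun s _ => by ring
  unfold ric
  simp only [e1]
  rw [Finset.sum_comm]
  unfold rot2
  refine Finset.sum_congr rfl fun p _ => ?_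
  rw [← Finset.mul_sum]
  congr 1
  rw [Finset.sum_comm]
  unfold rot1
  refine Finset.sum_congr rfl fun r _ => ?_
  rw [← Finset.mul_sum]
  congr 1
  exact trO hO (fun q s => R p q r s)

/-! symmetries -/
theorem rot1_neg (O : M6) (f : V6) (b : Fin 6) : rot1 O (fun c => - f c) b = - rot1 O f b := by
  unfold rot1; simp

theorem rot4_eq (O : M6) (R : T4) (a b c d : Fin 6) :
    rot4 O R a b c d = ∑ p, ∑ q, ∑ r, ∑ s, O p a * O q b * O r c * O s d * R p q r s := by
  unfold rot4 rot3 rot2 rot1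
  simp only [Finset.mul_sum, mul_assoc]

theorem rot4_curv {R : T4} (h : IsCurv R) (O : M6) : IsCurv (rot4 O R) := by
  refine ⟨fun i j k l => ?_, fun i j k l => ?_, fun i j k l => ?_, fun i j k l => ?_⟩
  · rw [rot4_eq, rot4_eq, Finset.sum_comm]
    simp only [← Finset.sum_neg_distrib]
    refine Finset.sum_congr rfl fun p _ => Finset.sum_congr rfl fun q _ =>
      Finset.sum_congr rfl fun r _ => Finset.sum_congr rfl fun s _ => ?_
    rw [h.a1]; ring
  · rw [rot4_eq, rot4_eq]
    simp only [← Finset.sum_neg_distrib]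
    refine Finset.sum_congr rfl fun p _ => Finset.sum_congr rfl fun q _ => ?_
    rw [Finset.sum_comm]
    refine Finset.sum_congr rfl fun r _ => Finset.sum_congr rfl fun s _ => ?_
    rw [h.a2]; ring
  · rw [rot4_eq, rot4_eq]
    calc _ = ∑ p, ∑ r, ∑ q, ∑ s, O p k * O q l * O r i * O s j * R p q r s :=
          Finset.sum_congr rfl fun p _ => Finset.sum_comm
      _ = ∑ r, ∑ p, ∑ q, ∑ s, O p k * O q l * O r i * O s j * R p q r s := Finset.sum_comm
      _ = ∑ r, ∑ p, ∑ s, ∑ q, O p k * O q l * O r i * O s j * R p q r s :=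
          Finset.sum_congr rfl fun r _ => Finset.sum_congr rfl fun p _ => Finset.sum_comm
      _ = ∑ r, ∑ s, ∑ p, ∑ q, O p k * O q l * O r i * O s j * R p q r s :=
          Finset.sum_congr rfl fun r _ => Finset.sum_comm
      _ = _ := by
        refine Finset.sum_congr rfl fun p _ => Finset.sum_congr rfl fun q _ =>
          Finset.sum_congr rfl fun r _ => Finset.sum_congr rfl fun s _ => ?_
        rw [h.pr p q r s]; ring
  · have e1 : rot4 O R j k i l =
        ∑ p, ∑ q, ∑ r, ∑ s, O p i * O q j * O r k * O s l * R q r p s := by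
      rw [rot4_eq]
      calc _ = ∑ q, ∑ p, ∑ r, ∑ s, O q j * O r k * O p i * O s l * R q r p s :=
            Finset.sum_congr rfl fun q _ => Finset.sum_comm
        _ = ∑ p, ∑ q, ∑ r, ∑ s, O q j * O r k * O p i * O s l * R q r p s := Finset.sum_comm
        _ = _ := by
          refine Finset.sum_congr rfl fun p _ => Finset.sum_congr rfl fun q _ =>
            Finset.sum_congr rfl fun r _ => Finset.sum_congr rfl fun s _ => by ring
    have e2 : rot4 O R k i j l =
        ∑ p, ∑ q, ∑ r, ∑ s, O p i * O q j * O r k * O s l * R r p q s := by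
      rw [rot4_eq]
      calc _ = ∑ p, ∑ r, ∑ q, ∑ s, O r k * O p i * O q j * O s l * R r p q s := Finset.sum_comm
        _ = ∑ p, ∑ q, ∑ r, ∑ s, O r k * O p i * O q j * O s l * R r p q s :=
            Finset.sum_congr rfl fun p _ => Finset.sum_comm
        _ = _ := by
          refine Finset.sum_congr rfl fun p _ => Finset.sum_congr rfl fun q _ =>
            Finset.sum_congr rfl fun r _ => Finset.sum_congr rfl fun s _ => by ring
    rw [e1, e2, rot4_eq]
    simp only [← Finset.sum_add_distrib]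
    refine Finset.sum_eq_zero fun p _ => Finset.sum_eq_zero fun q _ =>
      Finset.sum_eq_zero fun r _ => Finset.sum_eq_zero fun s _ => ?_
    linear_combination (O p i * O q j * O r k * O s l) * h.bi p q r s

/-! invariance of the scalars -/
section inv
variable {O : M6} (hO : Ort O) {R : T4} (h : IsCurv R) (x v : V6)
include hO

theorem nn_rot : nn (rot1 O x) = nn x := by
  have e : ∀ y : V6, nn y = ∑ a, y a * y a := fun y => by
    unfold nn; exact Finset.sum_congr rfl fun a _ => by ring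
  rw [e, e, pair1 hO]

theorem n4_rot (R : T4) : n4 (rot4 O R) = n4 R := by
  have e : ∀ S : T4, n4 S = ∑ a, ∑ b, ∑ c, ∑ d, S a b c d * S a b c d := fun S => by
    unfold n4; simp only [sq]
  rw [e, e, pair4 hO]

theorem nr_rot (R : T4) : nr (rot4 O R) = nr R := by
  have e : ∀ S : T4, nr S = ∑ a, ∑ b, ric S a b * ric S a b := fun S => nr_eq
  rw [e, e]
  simp only [ric_rot hO]
  exact pair2 hO _ _

theorem sc_rot (R : T4) : sc (rot4 O R) = sc R := by
  unfold sc
  simp only [ric_rot hO]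
  exact trO hO _

theorem Rx_rot (R : T4) (b c d : Fin 6) :
    Rx (rot4 O R) (rot1 O x) b c d = rot3 O (Rx R x) b c d := con4 hO x R b c d

theorem Jf_rot (R : T4) (a b : Fin 6) : Jf (rot4 O R) a b (rot1 O x) = rot2 O (Jm R x) a b := by
  rw [Jf_eq]
  simp only [Rx_rot hO]
  rw [con3' hO]
  congr 1
  funext a c
  unfold Jm; rw [Jf_eq]

include h in
theorem ux_rot (a : Fin 6) : ux (rot4 O R) (rot1 O x) a = rot1 O (ux R x) a := by
  have h' := rot4_curv h O
  have e : ux (rot4 O R) (rot1 O x) a = ∑ p, rot1 O x p * rot2 O (ric R) p a := by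
    unfold ux
    exact Finset.sum_congr rfl fun p _ => by rw [ric_symm h', ric_rot hO]; ring
  rw [e, con2 hO]
  congr 1
  funext b
  unfold ux
  exact Finset.sum_congr rfl fun p _ => by rw [ric_symm h]; ring

include h in
theorem ax_rot : ax (rot4 O R) (rot1 O x) = ax R x := by
  rw [← ux_x, ← ux_x]
  simp only [ux_rot hO h]
  exact pair1 hO _ _

theorem bx_rot (R : T4) : bx (rot4 O R) (rot1 O x) = bx R x := by
  unfold bx JC
  simp only [ric_rot hO, Jf_rot hO]
  exact pair2 hO _ _

theorem cx_rot (R : T4) : cx (rot4 O R) (rot1 O x) = cx R x := by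
  unfold cx
  simp only [Jf_rot hO]
  exact pair2 hO _ _

include h in
theorem dx_rot : dx (rot4 O R) (rot1 O x) = dx R x := by
  unfold dx
  simp only [ux_rot hO h]
  exact pair1 hO _ _

end inv

theorem rx_eq (R : T4) (x : V6) :
    rx R x = ∑ b, ∑ c, ∑ d, Rx R x b c d * Rx R x b c d := by
  unfold rx RR
  rw [qf_sum]
  refine Finset.sum_congr rfl fun b _ => ?_
  rw [qf_sum]
  refine Finset.sum_congr rfl fun c _ => ?_
  rw [qf_sum]
  refine Finset.sum_congr rfl fun d _ => ?_
  unfold Rx qf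
  rw [Finset.sum_mul_sum]
  exact Finset.sum_congr rfl fun p _ => Finset.sum_congr rfl fun q _ => by ring

theorem rx_rot {O : M6} (hO : Ort O) (R : T4) (x : V6) :
    rx (rot4 O R) (rot1 O x) = rx R x := by
  rw [rx_eq, rx_eq]
  simp only [Rx_rot hO]
  exact pair3 hO _ _

theorem Q0_rot {O : M6} (hO : Ort O) {R : T4} (h : IsCurv R) (x : V6) :
    Q0 (rot4 O R) (rot1 O x) = Q0 R x := by
  unfold Q0
  rw [nn_rot hO, n4_rot hO, rx_rot hO, cx_rot hO, nr_rot hO, dx_rot hO h, ax_rot hO h, bx_rot hO,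
    sc_rot hO]

end Pool.Agent.H274R2
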