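import Pool.Agent.H274R2.Aver2

/-! Tables for the remaining averages (generated). -/

namespace Pool.Agent.H274R2

open Finset

theorem t_e2_0 {R : T4} (h : IsCurv R) : ∑ a, ∑ b, ∑ i, ∑ j, R i a i b * (ric R a j * ric R b j) = i4 R := by
  have g : g3 R ![2, 0, 2, 1, 0, 4, 3, 4, 1, 5, 3, 5] = i4 R :=
    (g3_pos h [.A 0, .B 0, .P 0, .P 2] ![1, 0, 3, 2, 4, 5] ![1, 0, 3, 2, 4, 5] ![0, 3, 1, 3, 1, 4, 2, 4, 2, 5, 0, 5] ![2, 0, 2, 1, 0, 4, 3, 4, 1, 5, 3, 5] (by decide) (by decide) (by decide) (by decide)).trans (by rw [g_4 h])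
  have e : g3 R ![2, 0, 2, 1, 0, 4, 3, 4, 1, 5, 3, 5] = ∑ a, ∑ b, ∑ i, ∑ j, ∑ c0, ∑ c1, R i a i b * R a c0 j c0 * R b c1 j c1 :=
    nest6 (fun a b i j c0 c1 => R i a i b * R a c0 j c0 * R b c1 j c1)
  rw [g] at e
  rw [e]
  refine Finset.sum_congr rfl fun a _ => Finset.sum_congr rfl fun b _ => Finset.sum_congr rfl fun i _ => Finset.sum_congr rfl fun j _ => ?_
  simp only [mul_assoc, ← Finset.mul_sum, ← Finset.sum_mul]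
  rfl

theorem t_e2_1 {R : T4} (h : IsCurv R) : ∑ a, ∑ b, ∑ i, ∑ j, R i a j b * (ric R a i * ric R b j) = 0 := by
  have g : g3 R ![2, 0, 3, 1, 0, 4, 2, 4, 1, 5, 3, 5] = 0 :=
    g3_zero h [.A 0, .P 1] ![2, 1, 0, 3, 4, 5] ![2, 1, 0, 3, 4, 5] _ (by decide) (by decide) (by decide) (by decide)
  have e : g3 R ![2, 0, 3, 1, 0, 4, 2, 4, 1, 5, 3, 5] = ∑ a, ∑ b, ∑ i, ∑ j, ∑ c0, ∑ c1, R i a j b * R a c0 i c0 * R b c1 j c1 :=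
    nest6 (fun a b i j c0 c1 => R i a j b * R a c0 i c0 * R b c1 j c1)
  rw [g] at e
  rw [e]
  refine Finset.sum_congr rfl fun a _ => Finset.sum_congr rfl fun b _ => Finset.sum_congr rfl fun i _ => Finset.sum_congr rfl fun j _ => ?_
  simp only [mul_assoc, ← Finset.mul_sum, ← Finset.sum_mul]
  rfl

theorem t_e2_2 {R : T4} (h : IsCurv R) : ∑ a, ∑ b, ∑ i, ∑ j, R i a j b * (ric R a j * ric R b i) = -(i5 R) := by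
  have g : g3 R ![2, 0, 3, 1, 0, 4, 3, 4, 1, 5, 2, 5] = -(i5 R) :=
    (g3_neg h [.A 2, .P 1, .Y, .X] ![0, 3, 2, 1, 4, 5] ![0, 3, 2, 1, 4, 5] ![0, 4, 1, 4, 2, 5, 3, 5, 0, 2, 1, 3] ![2, 0, 3, 1, 0, 4, 3, 4, 1, 5, 2, 5] (by decide) (by decide) (by decide) (by decide)).trans (by rw [g_5 h])
  have e : g3 R ![2, 0, 3, 1, 0, 4, 3, 4, 1, 5, 2, 5] = ∑ a, ∑ b, ∑ i, ∑ j, ∑ c0, ∑ c1, R i a j b * R a c0 j c0 * R b c1 i c1 :=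
    nest6 (fun a b i j c0 c1 => R i a j b * R a c0 j c0 * R b c1 i c1)
  rw [g] at e
  rw [e]
  refine Finset.sum_congr rfl fun a _ => Finset.sum_congr rfl fun b _ => Finset.sum_congr rfl fun i _ => Finset.sum_congr rfl fun j _ => ?_
  simp only [mul_assoc, ← Finset.mul_sum, ← Finset.sum_mul]
  rfl

theorem t_f1_0 {R : T4} (h : IsCurv R) : ∑ a, ∑ b, ∑ c, ∑ i, ∑ j, ric R a c * (R i a i b * R j c j b) = i4 R := by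
  have g : g3 R ![0, 5, 2, 5, 3, 0, 3, 1, 4, 2, 4, 1] = i4 R :=
    (g3_pos h [.A 0, .A 2, .B 0, .B 2, .P 0, .X] ![1, 0, 2, 3, 5, 4] ![1, 0, 2, 3, 5, 4] ![0, 3, 1, 3, 1, 4, 2, 4, 2, 5, 0, 5] ![0, 5, 2, 5, 3, 0, 3, 1, 4, 2, 4, 1] (by decide) (by decide) (by decide) (by decide)).trans (by rw [g_4 h])
  have e : g3 R ![0, 5, 2, 5, 3, 0, 3, 1, 4, 2, 4, 1] = ∑ a, ∑ b, ∑ c, ∑ i, ∑ j, ∑ c0, R a c0 c c0 * R i a i b * R j c j b :=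
    nest6 (fun a b c i j c0 => R a c0 c c0 * R i a i b * R j c j b)
  rw [g] at e
  rw [e]
  refine Finset.sum_congr rfl fun a _ => Finset.sum_congr rfl fun b _ => Finset.sum_congr rfl fun c _ => Finset.sum_congr rfl fun i _ => Finset.sum_congr rfl fun j _ => ?_
  simp only [mul_assoc, ← Finset.mul_sum, ← Finset.sum_mul]
  rfl

theorem t_f1_1 {R : T4} (h : IsCurv R) : ∑ a, ∑ b, ∑ c, ∑ i, ∑ j, ric R a c * (R i a j b * R i c j b) = i6 R := by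
  have g : g3 R ![0, 5, 2, 5, 3, 0, 4, 1, 3, 2, 4, 1] = i6 R :=
    (g3_pos h [.A 1, .A 2] ![0, 2, 3, 4, 1, 5] ![0, 4, 1, 2, 3, 5] ![0, 5, 1, 5, 0, 2, 3, 4, 1, 2, 3, 4] ![0, 5, 2, 5, 3, 0, 4, 1, 3, 2, 4, 1] (by decide) (by decide) (by decide) (by decide)).trans (by rw [g_6 h])
  have e : g3 R ![0, 5, 2, 5, 3, 0, 4, 1, 3, 2, 4, 1] = ∑ a, ∑ b, ∑ c, ∑ i, ∑ j, ∑ c0, R a c0 c c0 * R i a j b * R i c j b :=
    nest6 (fun a b c i j c0 => R a c0 c c0 * R i a j b * R i c j b)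
  rw [g] at e
  rw [e]
  refine Finset.sum_congr rfl fun a _ => Finset.sum_congr rfl fun b _ => Finset.sum_congr rfl fun c _ => Finset.sum_congr rfl fun i _ => Finset.sum_congr rfl fun j _ => ?_
  simp only [mul_assoc, ← Finset.mul_sum, ← Finset.sum_mul]
  rfl

theorem t_f1_2 {R : T4} (h : IsCurv R) : ∑ a, ∑ b, ∑ c, ∑ i, ∑ j, ric R a c * (R i a j b * R j c i b) = i6 R / 2 := by
  have g : g3 R ![0, 5, 2, 5, 3, 0, 4, 1, 4, 2, 3, 1] = i6 R / 2 :=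
    (g3_pos h [.A 1, .A 2, .B 1, .B 2] ![0, 2, 3, 1, 4, 5] ![0, 3, 1, 2, 4, 5] ![0, 5, 1, 5, 0, 2, 3, 4, 1, 4, 3, 2] ![0, 5, 2, 5, 3, 0, 4, 1, 4, 2, 3, 1] (by decide) (by decide) (by decide) (by decide)).trans (by rw [g_62 h])
  have e : g3 R ![0, 5, 2, 5, 3, 0, 4, 1, 4, 2, 3, 1] = ∑ a, ∑ b, ∑ c, ∑ i, ∑ j, ∑ c0, R a c0 c c0 * R i a j b * R j c i b :=
    nest6 (fun a b c i j c0 => R a c0 c c0 * R i a j b * R j c i b)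
  rw [g] at e
  rw [e]
  refine Finset.sum_congr rfl fun a _ => Finset.sum_congr rfl fun b _ => Finset.sum_congr rfl fun c _ => Finset.sum_congr rfl fun i _ => Finset.sum_congr rfl fun j _ => ?_
  simp only [mul_assoc, ← Finset.mul_sum, ← Finset.sum_mul]
  rfl

theorem t_g2_0 {R : T4} (h : IsCurv R) : ∑ a, ∑ b, ∑ i, ∑ j, ∑ e, R i a i b * (R a j b e * ric R e j) = i5 R := by
  have g : g3 R ![2, 0, 2, 1, 0, 3, 1, 4, 4, 5, 3, 5] = i5 R :=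
    (g3_pos h [.A 0, .B 0, .P 1, .Y] ![0, 1, 3, 4, 2, 5] ![0, 1, 4, 2, 3, 5] ![0, 4, 1, 4, 2, 5, 3, 5, 0, 2, 1, 3] ![2, 0, 2, 1, 0, 3, 1, 4, 4, 5, 3, 5] (by decide) (by decide) (by decide) (by decide)).trans (by rw [g_5 h])
  have e : g3 R ![2, 0, 2, 1, 0, 3, 1, 4, 4, 5, 3, 5] = ∑ a, ∑ b, ∑ i, ∑ j, ∑ e, ∑ c0, R i a i b * R a j b e * R e c0 j c0 :=
    nest6 (fun a b i j e c0 => R i a i b * R a j b e * R e c0 j c0)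
  rw [g] at e
  rw [e]
  refine Finset.sum_congr rfl fun a _ => Finset.sum_congr rfl fun b _ => Finset.sum_congr rfl fun i _ => Finset.sum_congr rfl fun j _ => Finset.sum_congr rfl fun e _ => ?_
  simp only [mul_assoc, ← Finset.mul_sum, ← Finset.sum_mul]
  rfl

theorem t_g2_1 {R : T4} (h : IsCurv R) : ∑ a, ∑ b, ∑ i, ∑ j, ∑ e, R i a j b * (R a i b e * ric R e j) = i6 R := by
  have g : g3 R ![2, 0, 3, 1, 0, 2, 1, 4, 4, 5, 3, 5] = i6 R :=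
    (g3_pos h [.A 1, .B 1, .P 1, .P 2, .X, .Y, .X] ![4, 3, 1, 2, 0, 5] ![4, 2, 3, 1, 0, 5] ![0, 5, 1, 5, 0, 2, 3, 4, 1, 2, 3, 4] ![2, 0, 3, 1, 0, 2, 1, 4, 4, 5, 3, 5] (by decide) (by decide) (by decide) (by decide)).trans (by rw [g_6 h])
  have e : g3 R ![2, 0, 3, 1, 0, 2, 1, 4, 4, 5, 3, 5] = ∑ a, ∑ b, ∑ i, ∑ j, ∑ e, ∑ c0, R i a j b * R a i b e * R e c0 j c0 :=
    nest6 (fun a b i j e c0 => R i a j b * R a i b e * R e c0 j c0)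
  rw [g] at e
  rw [e]
  refine Finset.sum_congr rfl fun a _ => Finset.sum_congr rfl fun b _ => Finset.sum_congr rfl fun i _ => Finset.sum_congr rfl fun j _ => Finset.sum_congr rfl fun e _ => ?_
  simp only [mul_assoc, ← Finset.mul_sum, ← Finset.sum_mul]
  rfl

theorem t_g2_2 {R : T4} (h : IsCurv R) : ∑ a, ∑ b, ∑ i, ∑ j, ∑ e, R i a j b * (R a j b e * ric R e i) = i6 R / 2 := by
  have g : g3 R ![2, 0, 3, 1, 0, 3, 1, 4, 4, 5, 2, 5] = i6 R / 2 :=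
    (g3_pos h [.A 1, .B 1, .P 1, .X, .Y, .X] ![4, 2, 1, 3, 0, 5] ![4, 2, 1, 3, 0, 5] ![0, 5, 1, 5, 0, 2, 3, 4, 1, 4, 3, 2] ![2, 0, 3, 1, 0, 3, 1, 4, 4, 5, 2, 5] (by decide) (by decide) (by decide) (by decide)).trans (by rw [g_62 h])
  have e : g3 R ![2, 0, 3, 1, 0, 3, 1, 4, 4, 5, 2, 5] = ∑ a, ∑ b, ∑ i, ∑ j, ∑ e, ∑ c0, R i a j b * R a j b e * R e c0 i c0 :=
    nest6 (fun a b i j e c0 => R i a j b * R a j b e * R e c0 i c0)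
  rw [g] at e
  rw [e]
  refine Finset.sum_congr rfl fun a _ => Finset.sum_congr rfl fun b _ => Finset.sum_congr rfl fun i _ => Finset.sum_congr rfl fun j _ => Finset.sum_congr rfl fun e _ => ?_
  simp only [mul_assoc, ← Finset.mul_sum, ← Finset.sum_mul]
  rfl

theorem t_h2_0 {R : T4} (h : IsCurv R) : ∑ a, ∑ b, ∑ i, ∑ j, ∑ d, ∑ e, R i a i b * (R j a d e * R j b d e) = i6 R := by
  have g : g3 R ![2, 0, 2, 1, 3, 0, 4, 5, 3, 1, 4, 5] = i6 R :=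
    (g3_pos h [.A 0, .A 1, .A 2, .B 0] ![0, 1, 3, 4, 5, 2] ![0, 1, 5, 2, 3, 4] ![0, 5, 1, 5, 0, 2, 3, 4, 1, 2, 3, 4] ![2, 0, 2, 1, 3, 0, 4, 5, 3, 1, 4, 5] (by decide) (by decide) (by decide) (by decide)).trans (by rw [g_6 h])
  have e : g3 R ![2, 0, 2, 1, 3, 0, 4, 5, 3, 1, 4, 5] = ∑ a, ∑ b, ∑ i, ∑ j, ∑ d, ∑ e, R i a i b * R j a d e * R j b d e :=
    nest6 (fun a b i j d e => R i a i b * R j a d e * R j b d e)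
  rw [g] at e
  rw [e]
  simp only [mul_assoc]

theorem t_h2_1 {R : T4} (h : IsCurv R) : ∑ a, ∑ b, ∑ i, ∑ j, ∑ d, ∑ e, R i a j b * (R i a d e * R j b d e) = i7 R := by
  have g : g3 R ![2, 0, 3, 1, 2, 0, 4, 5, 3, 1, 4, 5] = i7 R :=
    (g3_pos h [.P 0, .P 2] ![3, 1, 2, 0, 4, 5] ![3, 1, 2, 0, 4, 5] ![0, 1, 2, 3, 2, 3, 4, 5, 4, 5, 0, 1] ![2, 0, 3, 1, 2, 0, 4, 5, 3, 1, 4, 5] (by decide) (by decide) (by decide) (by decide)).trans (by rw [g_7 h])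
  have e : g3 R ![2, 0, 3, 1, 2, 0, 4, 5, 3, 1, 4, 5] = ∑ a, ∑ b, ∑ i, ∑ j, ∑ d, ∑ e, R i a j b * R i a d e * R j b d e :=
    nest6 (fun a b i j d e => R i a j b * R i a d e * R j b d e)
  rw [g] at e
  rw [e]
  simp only [mul_assoc]

theorem t_h2_2 {R : T4} (h : IsCurv R) : ∑ a, ∑ b, ∑ i, ∑ j, ∑ d, ∑ e, R i a j b * (R j a d e * R i b d e) = i7 R / 2 := by
  have g : g3 R ![2, 0, 3, 1, 3, 0, 4, 5, 2, 1, 4, 5] = i7 R / 2 :=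
    (g3_pos h [.A 2, .B 0, .P 0, .P 1, .Y, .X] ![4, 5, 0, 3, 2, 1] ![2, 5, 4, 3, 0, 1] ![0, 1, 2, 3, 0, 1, 4, 5, 2, 4, 3, 5] ![2, 0, 3, 1, 3, 0, 4, 5, 2, 1, 4, 5] (by decide) (by decide) (by decide) (by decide)).trans (by rw [g_7h h])
  have e : g3 R ![2, 0, 3, 1, 3, 0, 4, 5, 2, 1, 4, 5] = ∑ a, ∑ b, ∑ i, ∑ j, ∑ d, ∑ e, R i a j b * R j a d e * R i b d e :=
    nest6 (fun a b i j d e => R i a j b * R j a d e * R i b d e)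
  rw [g] at e
  rw [e]
  simp only [mul_assoc]

theorem t_h3_0 {R : T4} (h : IsCurv R) : ∑ a, ∑ b, ∑ i, ∑ j, ∑ e, ∑ c, R i a i b * (R j e a c * R j e b c) = i6 R := by
  have g : g3 R ![2, 0, 2, 1, 3, 4, 0, 5, 3, 4, 1, 5] = i6 R :=
    (g3_pos h [.A 0, .B 0, .P 1, .P 2] ![0, 1, 5, 3, 4, 2] ![0, 1, 5, 3, 4, 2] ![0, 5, 1, 5, 0, 2, 3, 4, 1, 2, 3, 4] ![2, 0, 2, 1, 3, 4, 0, 5, 3, 4, 1, 5] (by decide) (by decide) (by decide) (by decide)).trans (by rw [g_6 h])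
  have e : g3 R ![2, 0, 2, 1, 3, 4, 0, 5, 3, 4, 1, 5] = ∑ a, ∑ b, ∑ i, ∑ j, ∑ e, ∑ c, R i a i b * R j e a c * R j e b c :=
    nest6 (fun a b i j e c => R i a i b * R j e a c * R j e b c)
  rw [g] at e
  rw [e]
  simp only [mul_assoc]

theorem t_h3_1 {R : T4} (h : IsCurv R) : ∑ a, ∑ b, ∑ i, ∑ j, ∑ e, ∑ c, R i a j b * (R i e a c * R j e b c) = i7 R / 4 := by
  have g : g3 R ![2, 0, 3, 1, 2, 4, 0, 5, 3, 4, 1, 5] = i7 R / 4 :=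
    (g3_pos h [.A 2, .B 2, .X] ![2, 4, 0, 5, 3, 1] ![2, 5, 0, 4, 1, 3] ![0, 1, 2, 3, 0, 2, 4, 5, 1, 4, 3, 5] ![2, 0, 3, 1, 2, 4, 0, 5, 3, 4, 1, 5] (by decide) (by decide) (by decide) (by decide)).trans (by rw [g_7q h])
  have e : g3 R ![2, 0, 3, 1, 2, 4, 0, 5, 3, 4, 1, 5] = ∑ a, ∑ b, ∑ i, ∑ j, ∑ e, ∑ c, R i a j b * R i e a c * R j e b c :=
    nest6 (fun a b i j e c => R i a j b * R i e a c * R j e b c)
  rw [g] at e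
  rw [e]
  simp only [mul_assoc]

theorem t_h3_2 {R : T4} (h : IsCurv R) : ∑ a, ∑ b, ∑ i, ∑ j, ∑ e, ∑ c, R i a j b * (R j e a c * R i e b c) = -(i8 R - i7 R / 4) := by
  have g : g3 R ![2, 0, 3, 1, 3, 4, 0, 5, 2, 4, 1, 5] = -(i8 R - i7 R / 4) :=
    (g3_neg h [.A 0, .P 1] ![0, 2, 3, 1, 5, 4] ![0, 3, 1, 2, 5, 4] ![0, 1, 2, 3, 0, 4, 2, 5, 1, 5, 3, 4] ![2, 0, 3, 1, 3, 4, 0, 5, 2, 4, 1, 5] (by decide) (by decide) (by decide) (by decide)).trans (by rw [g_8b h])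
  have e : g3 R ![2, 0, 3, 1, 3, 4, 0, 5, 2, 4, 1, 5] = ∑ a, ∑ b, ∑ i, ∑ j, ∑ e, ∑ c, R i a j b * R j e a c * R i e b c :=
    nest6 (fun a b i j e c => R i a j b * R j e a c * R i e b c)
  rw [g] at e
  rw [e]
  simp only [mul_assoc]

theorem t_g3_0 {R : T4} (h : IsCurv R) : ∑ a, ∑ b, ∑ i, ∑ j, ∑ c, ∑ e, R i a i b * (R a c b e * R j c j e) = i5 R := by
  have g : g3 R ![2, 0, 2, 1, 0, 4, 1, 5, 3, 4, 3, 5] = i5 R :=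
    (g3_pos h [.A 0, .A 1, .B 0, .B 1, .Y] ![0, 1, 4, 5, 2, 3] ![0, 1, 4, 5, 2, 3] ![0, 4, 1, 4, 2, 5, 3, 5, 0, 2, 1, 3] ![2, 0, 2, 1, 0, 4, 1, 5, 3, 4, 3, 5] (by decide) (by decide) (by decide) (by decide)).trans (by rw [g_5 h])
  have e : g3 R ![2, 0, 2, 1, 0, 4, 1, 5, 3, 4, 3, 5] = ∑ a, ∑ b, ∑ i, ∑ j, ∑ c, ∑ e, R i a i b * R a c b e * R j c j e :=
    nest6 (fun a b i j c e => R i a i b * R a c b e * R j c j e)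
  rw [g] at e
  rw [e]
  simp only [mul_assoc]

theorem t_g3_1 {R : T4} (h : IsCurv R) : ∑ a, ∑ b, ∑ i, ∑ j, ∑ c, ∑ e, R i a j b * (R a c b e * R i c j e) = i8 R := by
  have g : g3 R ![2, 0, 3, 1, 0, 4, 1, 5, 2, 4, 3, 5] = i8 R :=
    (g3_pos h [.A 2, .B 2] ![2, 3, 0, 1, 4, 5] ![2, 3, 0, 1, 4, 5] ![0, 2, 1, 3, 2, 4, 3, 5, 4, 0, 5, 1] ![2, 0, 3, 1, 0, 4, 1, 5, 2, 4, 3, 5] (by decide) (by decide) (by decide) (by decide)).trans (by rw [g_8 h])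
  have e : g3 R ![2, 0, 3, 1, 0, 4, 1, 5, 2, 4, 3, 5] = ∑ a, ∑ b, ∑ i, ∑ j, ∑ c, ∑ e, R i a j b * R a c b e * R i c j e :=
    nest6 (fun a b i j c e => R i a j b * R a c b e * R i c j e)
  rw [g] at e
  rw [e]
  simp only [mul_assoc]

theorem t_g3_2 {R : T4} (h : IsCurv R) : ∑ a, ∑ b, ∑ i, ∑ j, ∑ c, ∑ e, R i a j b * (R a c b e * R j c i e) = i8 R - i7 R / 4 := by
  have g : g3 R ![2, 0, 3, 1, 0, 4, 1, 5, 3, 4, 2, 5] = i8 R - i7 R / 4 :=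
    (g3_pos h [.P 1, .Y] ![2, 0, 3, 1, 5, 4] ![1, 3, 0, 2, 5, 4] ![0, 1, 2, 3, 0, 4, 2, 5, 1, 5, 3, 4] ![2, 0, 3, 1, 0, 4, 1, 5, 3, 4, 2, 5] (by decide) (by decide) (by decide) (by decide)).trans (by rw [g_8b h])
  have e : g3 R ![2, 0, 3, 1, 0, 4, 1, 5, 3, 4, 2, 5] = ∑ a, ∑ b, ∑ i, ∑ j, ∑ c, ∑ e, R i a j b * R a c b e * R j c i e :=
    nest6 (fun a b i j c e => R i a j b * R a c b e * R j c i e)
  rw [g] at e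
  rw [e]
  simp only [mul_assoc]

theorem t_ac_0 {R : T4} (h : IsCurv R) : ∑ a, ∑ b, ∑ i, ∑ j, ∑ k, ric R i i * (R j a j b * R k a k b) = sc R * nr R := by
  have g : g3 R ![2, 5, 2, 5, 3, 0, 3, 1, 4, 0, 4, 1] = sc R * nr R :=
    (g3_pos h [.A 1, .A 2, .B 1, .B 2] ![2, 5, 0, 1, 3, 4] ![2, 3, 0, 4, 5, 1] ![0, 1, 0, 1, 2, 4, 3, 4, 2, 5, 3, 5] ![2, 5, 2, 5, 3, 0, 3, 1, 4, 0, 4, 1] (by decide) (by decide) (by decide) (by decide)).trans (by rw [g_sQ h])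
  have e : g3 R ![2, 5, 2, 5, 3, 0, 3, 1, 4, 0, 4, 1] = ∑ a, ∑ b, ∑ i, ∑ j, ∑ k, ∑ c0, R i c0 i c0 * R j a j b * R k a k b :=
    nest6 (fun a b i j k c0 => R i c0 i c0 * R j a j b * R k a k b)
  rw [g] at e
  rw [e]
  refine Finset.sum_congr rfl fun a _ => Finset.sum_congr rfl fun b _ => Finset.sum_congr rfl fun i _ => Finset.sum_congr rfl fun j _ => Finset.sum_congr rfl fun k _ => ?_
  simp only [mul_assoc, ← Finset.mul_sum, ← Finset.sum_mul]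
  rfl

theorem t_ac_1 {R : T4} (h : IsCurv R) : ∑ a, ∑ b, ∑ i, ∑ j, ∑ k, ric R i i * (R j a k b * R j a k b) = sc R * n4 R := by
  have g : g3 R ![2, 5, 2, 5, 3, 0, 4, 1, 3, 0, 4, 1] = sc R * n4 R :=
    (g3_pos h [] ![2, 5, 3, 0, 4, 1] ![3, 5, 0, 2, 4, 1] ![0, 1, 0, 1, 2, 3, 4, 5, 2, 3, 4, 5] ![2, 5, 2, 5, 3, 0, 4, 1, 3, 0, 4, 1] (by decide) (by decide) (by decide) (by decide)).trans (by rw [g_sN h])
  have e : g3 R ![2, 5, 2, 5, 3, 0, 4, 1, 3, 0, 4, 1] = ∑ a, ∑ b, ∑ i, ∑ j, ∑ k, ∑ c0, R i c0 i c0 * R j a k b * R j a k b :=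
    nest6 (fun a b i j k c0 => R i c0 i c0 * R j a k b * R j a k b)
  rw [g] at e
  rw [e]
  refine Finset.sum_congr rfl fun a _ => Finset.sum_congr rfl fun b _ => Finset.sum_congr rfl fun i _ => Finset.sum_congr rfl fun j _ => Finset.sum_congr rfl fun k _ => ?_
  simp only [mul_assoc, ← Finset.mul_sum, ← Finset.sum_mul]
  rfl

theorem t_ac_2 {R : T4} (h : IsCurv R) : ∑ a, ∑ b, ∑ i, ∑ j, ∑ k, ric R i i * (R j a k b * R k a j b) = sc R * n4 R / 2 := by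
  have g : g3 R ![2, 5, 2, 5, 3, 0, 4, 1, 4, 0, 3, 1] = sc R * n4 R / 2 :=
    (g3_pos h [.P 1] ![2, 5, 4, 1, 3, 0] ![5, 3, 0, 4, 2, 1] ![0, 1, 0, 1, 2, 3, 4, 5, 2, 5, 4, 3] ![2, 5, 2, 5, 3, 0, 4, 1, 4, 0, 3, 1] (by decide) (by decide) (by decide) (by decide)).trans (by rw [g_sN2 h])
  have e : g3 R ![2, 5, 2, 5, 3, 0, 4, 1, 4, 0, 3, 1] = ∑ a, ∑ b, ∑ i, ∑ j, ∑ k, ∑ c0, R i c0 i c0 * R j a k b * R k a j b :=
    nest6 (fun a b i j k c0 => R i c0 i c0 * R j a k b * R k a j b)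
  rw [g] at e
  rw [e]
  refine Finset.sum_congr rfl fun a _ => Finset.sum_congr rfl fun b _ => Finset.sum_congr rfl fun i _ => Finset.sum_congr rfl fun j _ => Finset.sum_congr rfl fun k _ => ?_
  simp only [mul_assoc, ← Finset.mul_sum, ← Finset.sum_mul]
  rfl

theorem t_ac_3 {R : T4} (h : IsCurv R) : ∑ a, ∑ b, ∑ i, ∑ j, ∑ k, ric R i j * (R i a j b * R k a k b) = i5 R := by
  have g : g3 R ![2, 5, 3, 5, 2, 0, 3, 1, 4, 0, 4, 1] = i5 R :=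
    (g3_pos h [.A 1, .B 1, .Y] ![2, 3, 0, 1, 5, 4] ![2, 3, 0, 1, 5, 4] ![0, 4, 1, 4, 2, 5, 3, 5, 0, 2, 1, 3] ![2, 5, 3, 5, 2, 0, 3, 1, 4, 0, 4, 1] (by decide) (by decide) (by decide) (by decide)).trans (by rw [g_5 h])
  have e : g3 R ![2, 5, 3, 5, 2, 0, 3, 1, 4, 0, 4, 1] = ∑ a, ∑ b, ∑ i, ∑ j, ∑ k, ∑ c0, R i c0 j c0 * R i a j b * R k a k b :=
    nest6 (fun a b i j k c0 => R i c0 j c0 * R i a j b * R k a k b)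
  rw [g] at e
  rw [e]
  refine Finset.sum_congr rfl fun a _ => Finset.sum_congr rfl fun b _ => Finset.sum_congr rfl fun i _ => Finset.sum_congr rfl fun j _ => Finset.sum_congr rfl fun k _ => ?_
  simp only [mul_assoc, ← Finset.mul_sum, ← Finset.sum_mul]
  rfl

theorem t_ac_4 {R : T4} (h : IsCurv R) : ∑ a, ∑ b, ∑ i, ∑ j, ∑ k, ric R i j * (R i a k b * R j a k b) = i6 R := by
  have g : g3 R ![2, 5, 3, 5, 2, 0, 4, 1, 3, 0, 4, 1] = i6 R :=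
    (g3_pos h [] ![2, 3, 0, 4, 1, 5] ![2, 4, 0, 1, 3, 5] ![0, 5, 1, 5, 0, 2, 3, 4, 1, 2, 3, 4] ![2, 5, 3, 5, 2, 0, 4, 1, 3, 0, 4, 1] (by decide) (by decide) (by decide) (by decide)).trans (by rw [g_6 h])
  have e : g3 R ![2, 5, 3, 5, 2, 0, 4, 1, 3, 0, 4, 1] = ∑ a, ∑ b, ∑ i, ∑ j, ∑ k, ∑ c0, R i c0 j c0 * R i a k b * R j a k b :=
    nest6 (fun a b i j k c0 => R i c0 j c0 * R i a k b * R j a k b)
  rw [g] at e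
  rw [e]
  refine Finset.sum_congr rfl fun a _ => Finset.sum_congr rfl fun b _ => Finset.sum_congr rfl fun i _ => Finset.sum_congr rfl fun j _ => Finset.sum_congr rfl fun k _ => ?_
  simp only [mul_assoc, ← Finset.mul_sum, ← Finset.sum_mul]
  rfl

theorem t_ac_5 {R : T4} (h : IsCurv R) : ∑ a, ∑ b, ∑ i, ∑ j, ∑ k, ric R i j * (R i a k b * R k a j b) = i6 R / 2 := by
  have g : g3 R ![2, 5, 3, 5, 2, 0, 4, 1, 4, 0, 3, 1] = i6 R / 2 :=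
    (g3_pos h [.P 2] ![2, 3, 0, 4, 1, 5] ![2, 4, 0, 1, 3, 5] ![0, 5, 1, 5, 0, 2, 3, 4, 1, 4, 3, 2] ![2, 5, 3, 5, 2, 0, 4, 1, 4, 0, 3, 1] (by decide) (by decide) (by decide) (by decide)).trans (by rw [g_62 h])
  have e : g3 R ![2, 5, 3, 5, 2, 0, 4, 1, 4, 0, 3, 1] = ∑ a, ∑ b, ∑ i, ∑ j, ∑ k, ∑ c0, R i c0 j c0 * R i a k b * R k a j b :=
    nest6 (fun a b i j k c0 => R i c0 j c0 * R i a k b * R k a j b)
  rw [g] at e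
  rw [e]
  refine Finset.sum_congr rfl fun a _ => Finset.sum_congr rfl fun b _ => Finset.sum_congr rfl fun i _ => Finset.sum_congr rfl fun j _ => Finset.sum_congr rfl fun k _ => ?_
  simp only [mul_assoc, ← Finset.mul_sum, ← Finset.sum_mul]
  rfl

theorem t_ac_6 {R : T4} (h : IsCurv R) : ∑ a, ∑ b, ∑ i, ∑ j, ∑ k, ric R i j * (R j a i b * R k a k b) = i5 R := by
  have g : g3 R ![2, 5, 3, 5, 3, 0, 2, 1, 4, 0, 4, 1] = i5 R :=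
    (g3_pos h [.A 1, .B 1, .P 0, .Y] ![3, 2, 0, 1, 5, 4] ![2, 3, 1, 0, 5, 4] ![0, 4, 1, 4, 2, 5, 3, 5, 0, 2, 1, 3] ![2, 5, 3, 5, 3, 0, 2, 1, 4, 0, 4, 1] (by decide) (by decide) (by decide) (by decide)).trans (by rw [g_5 h])
  have e : g3 R ![2, 5, 3, 5, 3, 0, 2, 1, 4, 0, 4, 1] = ∑ a, ∑ b, ∑ i, ∑ j, ∑ k, ∑ c0, R i c0 j c0 * R j a i b * R k a k b :=
    nest6 (fun a b i j k c0 => R i c0 j c0 * R j a i b * R k a k b)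
  rw [g] at e
  rw [e]
  refine Finset.sum_congr rfl fun a _ => Finset.sum_congr rfl fun b _ => Finset.sum_congr rfl fun i _ => Finset.sum_congr rfl fun j _ => Finset.sum_congr rfl fun k _ => ?_
  simp only [mul_assoc, ← Finset.mul_sum, ← Finset.sum_mul]
  rfl

theorem t_ac_7 {R : T4} (h : IsCurv R) : ∑ a, ∑ b, ∑ i, ∑ j, ∑ k, ric R i j * (R k a i b * R j a k b) = i6 R / 2 := by
  have g : g3 R ![2, 5, 3, 5, 4, 0, 2, 1, 3, 0, 4, 1] = i6 R / 2 :=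
    (g3_pos h [.P 1] ![2, 3, 1, 4, 0, 5] ![4, 2, 0, 1, 3, 5] ![0, 5, 1, 5, 0, 2, 3, 4, 1, 4, 3, 2] ![2, 5, 3, 5, 4, 0, 2, 1, 3, 0, 4, 1] (by decide) (by decide) (by decide) (by decide)).trans (by rw [g_62 h])
  have e : g3 R ![2, 5, 3, 5, 4, 0, 2, 1, 3, 0, 4, 1] = ∑ a, ∑ b, ∑ i, ∑ j, ∑ k, ∑ c0, R i c0 j c0 * R k a i b * R j a k b :=
    nest6 (fun a b i j k c0 => R i c0 j c0 * R k a i b * R j a k b)
  rw [g] at e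
  rw [e]
  refine Finset.sum_congr rfl fun a _ => Finset.sum_congr rfl fun b _ => Finset.sum_congr rfl fun i _ => Finset.sum_congr rfl fun j _ => Finset.sum_congr rfl fun k _ => ?_
  simp only [mul_assoc, ← Finset.mul_sum, ← Finset.sum_mul]
  rfl

theorem t_ac_8 {R : T4} (h : IsCurv R) : ∑ a, ∑ b, ∑ i, ∑ j, ∑ k, ric R i j * (R k a i b * R k a j b) = i6 R := by
  have g : g3 R ![2, 5, 3, 5, 4, 0, 2, 1, 4, 0, 3, 1] = i6 R :=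
    (g3_pos h [.P 1, .P 2] ![2, 3, 1, 4, 0, 5] ![4, 2, 0, 1, 3, 5] ![0, 5, 1, 5, 0, 2, 3, 4, 1, 2, 3, 4] ![2, 5, 3, 5, 4, 0, 2, 1, 4, 0, 3, 1] (by decide) (by decide) (by decide) (by decide)).trans (by rw [g_6 h])
  have e : g3 R ![2, 5, 3, 5, 4, 0, 2, 1, 4, 0, 3, 1] = ∑ a, ∑ b, ∑ i, ∑ j, ∑ k, ∑ c0, R i c0 j c0 * R k a i b * R k a j b :=
    nest6 (fun a b i j k c0 => R i c0 j c0 * R k a i b * R k a j b)
  rw [g] at e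
  rw [e]
  refine Finset.sum_congr rfl fun a _ => Finset.sum_congr rfl fun b _ => Finset.sum_congr rfl fun i _ => Finset.sum_congr rfl fun j _ => Finset.sum_congr rfl fun k _ => ?_
  simp only [mul_assoc, ← Finset.mul_sum, ← Finset.sum_mul]
  rfl

theorem t_ac_9 {R : T4} (h : IsCurv R) : ∑ a, ∑ b, ∑ i, ∑ j, ∑ k, ric R i j * (R j a k b * R i a k b) = i6 R := by
  have g : g3 R ![2, 5, 3, 5, 3, 0, 4, 1, 2, 0, 4, 1] = i6 R :=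
    (g3_pos h [.P 0] ![3, 2, 0, 4, 1, 5] ![2, 4, 1, 0, 3, 5] ![0, 5, 1, 5, 0, 2, 3, 4, 1, 2, 3, 4] ![2, 5, 3, 5, 3, 0, 4, 1, 2, 0, 4, 1] (by decide) (by decide) (by decide) (by decide)).trans (by rw [g_6 h])
  have e : g3 R ![2, 5, 3, 5, 3, 0, 4, 1, 2, 0, 4, 1] = ∑ a, ∑ b, ∑ i, ∑ j, ∑ k, ∑ c0, R i c0 j c0 * R j a k b * R i a k b :=
    nest6 (fun a b i j k c0 => R i c0 j c0 * R j a k b * R i a k b)
  rw [g] at e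
  rw [e]
  refine Finset.sum_congr rfl fun a _ => Finset.sum_congr rfl fun b _ => Finset.sum_congr rfl fun i _ => Finset.sum_congr rfl fun j _ => Finset.sum_congr rfl fun k _ => ?_
  simp only [mul_assoc, ← Finset.mul_sum, ← Finset.sum_mul]
  rfl

theorem t_ac_10 {R : T4} (h : IsCurv R) : ∑ a, ∑ b, ∑ i, ∑ j, ∑ k, ric R i j * (R k a j b * R i a k b) = i6 R / 2 := by
  have g : g3 R ![2, 5, 3, 5, 4, 0, 3, 1, 2, 0, 4, 1] = i6 R / 2 :=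
    (g3_pos h [.P 0, .P 1] ![3, 2, 1, 4, 0, 5] ![4, 2, 1, 0, 3, 5] ![0, 5, 1, 5, 0, 2, 3, 4, 1, 4, 3, 2] ![2, 5, 3, 5, 4, 0, 3, 1, 2, 0, 4, 1] (by decide) (by decide) (by decide) (by decide)).trans (by rw [g_62 h])
  have e : g3 R ![2, 5, 3, 5, 4, 0, 3, 1, 2, 0, 4, 1] = ∑ a, ∑ b, ∑ i, ∑ j, ∑ k, ∑ c0, R i c0 j c0 * R k a j b * R i a k b :=
    nest6 (fun a b i j k c0 => R i c0 j c0 * R k a j b * R i a k b)
  rw [g] at e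
  rw [e]
  refine Finset.sum_congr rfl fun a _ => Finset.sum_congr rfl fun b _ => Finset.sum_congr rfl fun i _ => Finset.sum_congr rfl fun j _ => Finset.sum_congr rfl fun k _ => ?_
  simp only [mul_assoc, ← Finset.mul_sum, ← Finset.sum_mul]
  rfl

theorem t_ac_11 {R : T4} (h : IsCurv R) : ∑ a, ∑ b, ∑ i, ∑ j, ∑ k, ric R i j * (R k a k b * R i a j b) = i5 R := by
  have g : g3 R ![2, 5, 3, 5, 4, 0, 4, 1, 2, 0, 3, 1] = i5 R :=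
    (g3_pos h [.A 1, .B 1] ![2, 3, 0, 1, 5, 4] ![2, 3, 0, 1, 5, 4] ![0, 4, 1, 4, 2, 5, 3, 5, 0, 2, 1, 3] ![2, 5, 3, 5, 4, 0, 4, 1, 2, 0, 3, 1] (by decide) (by decide) (by decide) (by decide)).trans (by rw [g_5 h])
  have e : g3 R ![2, 5, 3, 5, 4, 0, 4, 1, 2, 0, 3, 1] = ∑ a, ∑ b, ∑ i, ∑ j, ∑ k, ∑ c0, R i c0 j c0 * R k a k b * R i a j b :=
    nest6 (fun a b i j k c0 => R i c0 j c0 * R k a k b * R i a j b)
  rw [g] at e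
  rw [e]
  refine Finset.sum_congr rfl fun a _ => Finset.sum_congr rfl fun b _ => Finset.sum_congr rfl fun i _ => Finset.sum_congr rfl fun j _ => Finset.sum_congr rfl fun k _ => ?_
  simp only [mul_assoc, ← Finset.mul_sum, ← Finset.sum_mul]
  rfl

theorem t_ac_12 {R : T4} (h : IsCurv R) : ∑ a, ∑ b, ∑ i, ∑ j, ∑ k, ric R i j * (R j a k b * R k a i b) = i6 R / 2 := by
  have g : g3 R ![2, 5, 3, 5, 3, 0, 4, 1, 4, 0, 2, 1] = i6 R / 2 :=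
    (g3_pos h [.P 0, .P 2] ![3, 2, 0, 4, 1, 5] ![2, 4, 1, 0, 3, 5] ![0, 5, 1, 5, 0, 2, 3, 4, 1, 4, 3, 2] ![2, 5, 3, 5, 3, 0, 4, 1, 4, 0, 2, 1] (by decide) (by decide) (by decide) (by decide)).trans (by rw [g_62 h])
  have e : g3 R ![2, 5, 3, 5, 3, 0, 4, 1, 4, 0, 2, 1] = ∑ a, ∑ b, ∑ i, ∑ j, ∑ k, ∑ c0, R i c0 j c0 * R j a k b * R k a i b :=
    nest6 (fun a b i j k c0 => R i c0 j c0 * R j a k b * R k a i b)
  rw [g] at e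
  rw [e]
  refine Finset.sum_congr rfl fun a _ => Finset.sum_congr rfl fun b _ => Finset.sum_congr rfl fun i _ => Finset.sum_congr rfl fun j _ => Finset.sum_congr rfl fun k _ => ?_
  simp only [mul_assoc, ← Finset.mul_sum, ← Finset.sum_mul]
  rfl

theorem t_ac_13 {R : T4} (h : IsCurv R) : ∑ a, ∑ b, ∑ i, ∑ j, ∑ k, ric R i j * (R k a j b * R k a i b) = i6 R := by
  have g : g3 R ![2, 5, 3, 5, 4, 0, 3, 1, 4, 0, 2, 1] = i6 R :=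
    (g3_pos h [.P 0, .P 1, .P 2] ![3, 2, 1, 4, 0, 5] ![4, 2, 1, 0, 3, 5] ![0, 5, 1, 5, 0, 2, 3, 4, 1, 2, 3, 4] ![2, 5, 3, 5, 4, 0, 3, 1, 4, 0, 2, 1] (by decide) (by decide) (by decide) (by decide)).trans (by rw [g_6 h])
  have e : g3 R ![2, 5, 3, 5, 4, 0, 3, 1, 4, 0, 2, 1] = ∑ a, ∑ b, ∑ i, ∑ j, ∑ k, ∑ c0, R i c0 j c0 * R k a j b * R k a i b :=
    nest6 (fun a b i j k c0 => R i c0 j c0 * R k a j b * R k a i b)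
  rw [g] at e
  rw [e]
  refine Finset.sum_congr rfl fun a _ => Finset.sum_congr rfl fun b _ => Finset.sum_congr rfl fun i _ => Finset.sum_congr rfl fun j _ => Finset.sum_congr rfl fun k _ => ?_
  simp only [mul_assoc, ← Finset.mul_sum, ← Finset.sum_mul]
  rfl

theorem t_ac_14 {R : T4} (h : IsCurv R) : ∑ a, ∑ b, ∑ i, ∑ j, ∑ k, ric R i j * (R k a k b * R j a i b) = i5 R := by
  have g : g3 R ![2, 5, 3, 5, 4, 0, 4, 1, 3, 0, 2, 1] = i5 R :=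
    (g3_pos h [.A 1, .B 1, .P 0] ![3, 2, 0, 1, 5, 4] ![2, 3, 1, 0, 5, 4] ![0, 4, 1, 4, 2, 5, 3, 5, 0, 2, 1, 3] ![2, 5, 3, 5, 4, 0, 4, 1, 3, 0, 2, 1] (by decide) (by decide) (by decide) (by decide)).trans (by rw [g_5 h])
  have e : g3 R ![2, 5, 3, 5, 4, 0, 4, 1, 3, 0, 2, 1] = ∑ a, ∑ b, ∑ i, ∑ j, ∑ k, ∑ c0, R i c0 j c0 * R k a k b * R j a i b :=
    nest6 (fun a b i j k c0 => R i c0 j c0 * R k a k b * R j a i b)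
  rw [g] at e
  rw [e]
  refine Finset.sum_congr rfl fun a _ => Finset.sum_congr rfl fun b _ => Finset.sum_congr rfl fun i _ => Finset.sum_congr rfl fun j _ => Finset.sum_congr rfl fun k _ => ?_
  simp only [mul_assoc, ← Finset.mul_sum, ← Finset.sum_mul]
  rfl

theorem t_j3_0 {R : T4} (h : IsCurv R) : ∑ a, ∑ b, ∑ c, ∑ i, ∑ j, ∑ k, R i a i b * (R j a j c * R k c k b) = i4 R := by
  have g : g3 R ![3, 0, 3, 1, 4, 0, 4, 2, 5, 2, 5, 1] = i4 R :=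
    (g3_pos h [.A 0, .A 1, .A 2, .B 0, .B 1, .B 2, .P 0] ![1, 0, 2, 3, 4, 5] ![1, 0, 2, 3, 4, 5] ![0, 3, 1, 3, 1, 4, 2, 4, 2, 5, 0, 5] ![3, 0, 3, 1, 4, 0, 4, 2, 5, 2, 5, 1] (by decide) (by decide) (by decide) (by decide)).trans (by rw [g_4 h])
  have e : g3 R ![3, 0, 3, 1, 4, 0, 4, 2, 5, 2, 5, 1] = ∑ a, ∑ b, ∑ c, ∑ i, ∑ j, ∑ k, R i a i b * R j a j c * R k c k b :=
    nest6 (fun a b c i j k => R i a i b * R j a j c * R k c k b)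
  rw [g] at e
  rw [e]
  simp only [mul_assoc]

theorem t_j3_1 {R : T4} (h : IsCurv R) : ∑ a, ∑ b, ∑ c, ∑ i, ∑ j, ∑ k, R i a i b * (R j a k c * R j c k b) = i6 R / 2 := by
  have g : g3 R ![3, 0, 3, 1, 4, 0, 5, 2, 4, 2, 5, 1] = i6 R / 2 :=
    (g3_pos h [.A 0, .A 1, .A 2, .B 0, .B 1, .B 2, .P 2] ![0, 1, 4, 2, 5, 3] ![0, 1, 3, 5, 2, 4] ![0, 5, 1, 5, 0, 2, 3, 4, 1, 4, 3, 2] ![3, 0, 3, 1, 4, 0, 5, 2, 4, 2, 5, 1] (by decide) (by decide) (by decide) (by decide)).trans (by rw [g_62 h])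
  have e : g3 R ![3, 0, 3, 1, 4, 0, 5, 2, 4, 2, 5, 1] = ∑ a, ∑ b, ∑ c, ∑ i, ∑ j, ∑ k, R i a i b * R j a k c * R j c k b :=
    nest6 (fun a b c i j k => R i a i b * R j a k c * R j c k b)
  rw [g] at e
  rw [e]
  simp only [mul_assoc]

theorem t_j3_2 {R : T4} (h : IsCurv R) : ∑ a, ∑ b, ∑ c, ∑ i, ∑ j, ∑ k, R i a i b * (R j a k c * R k c j b) = i6 R := by
  have g : g3 R ![3, 0, 3, 1, 4, 0, 5, 2, 5, 2, 4, 1] = i6 R :=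
    (g3_pos h [.A 0, .A 1, .A 2, .B 0, .P 2] ![0, 1, 4, 5, 2, 3] ![0, 1, 4, 5, 2, 3] ![0, 5, 1, 5, 0, 2, 3, 4, 1, 2, 3, 4] ![3, 0, 3, 1, 4, 0, 5, 2, 5, 2, 4, 1] (by decide) (by decide) (by decide) (by decide)).trans (by rw [g_6 h])
  have e : g3 R ![3, 0, 3, 1, 4, 0, 5, 2, 5, 2, 4, 1] = ∑ a, ∑ b, ∑ c, ∑ i, ∑ j, ∑ k, R i a i b * R j a k c * R k c j b :=
    nest6 (fun a b c i j k => R i a i b * R j a k c * R k c j b)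
  rw [g] at e
  rw [e]
  simp only [mul_assoc]

theorem t_j3_3 {R : T4} (h : IsCurv R) : ∑ a, ∑ b, ∑ c, ∑ i, ∑ j, ∑ k, R i a j b * (R i a j c * R k c k b) = i6 R := by
  have g : g3 R ![3, 0, 4, 1, 3, 0, 4, 2, 5, 2, 5, 1] = i6 R :=
    (g3_pos h [.A 0, .A 1, .A 2, .B 0, .P 0, .P 1, .P 2, .X, .Y] ![1, 2, 4, 3, 0, 5] ![4, 0, 1, 3, 2, 5] ![0, 5, 1, 5, 0, 2, 3, 4, 1, 2, 3, 4] ![3, 0, 4, 1, 3, 0, 4, 2, 5, 2, 5, 1] (by decide) (by decide) (by decide) (by decide)).trans (by rw [g_6 h])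
  have e : g3 R ![3, 0, 4, 1, 3, 0, 4, 2, 5, 2, 5, 1] = ∑ a, ∑ b, ∑ c, ∑ i, ∑ j, ∑ k, R i a j b * R i a j c * R k c k b :=
    nest6 (fun a b c i j k => R i a j b * R i a j c * R k c k b)
  rw [g] at e
  rw [e]
  simp only [mul_assoc]

theorem t_j3_4 {R : T4} (h : IsCurv R) : ∑ a, ∑ b, ∑ c, ∑ i, ∑ j, ∑ k, R i a j b * (R i a k c * R j c k b) = i7 R / 2 := by
  have g : g3 R ![3, 0, 4, 1, 3, 0, 5, 2, 4, 2, 5, 1] = i7 R / 2 :=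
    (g3_pos h [.B 1, .B 2] ![3, 0, 4, 1, 2, 5] ![1, 3, 4, 0, 2, 5] ![0, 1, 2, 3, 0, 1, 4, 5, 2, 4, 3, 5] ![3, 0, 4, 1, 3, 0, 5, 2, 4, 2, 5, 1] (by decide) (by decide) (by decide) (by decide)).trans (by rw [g_7h h])
  have e : g3 R ![3, 0, 4, 1, 3, 0, 5, 2, 4, 2, 5, 1] = ∑ a, ∑ b, ∑ c, ∑ i, ∑ j, ∑ k, R i a j b * R i a k c * R j c k b :=
    nest6 (fun a b c i j k => R i a j b * R i a k c * R j c k b)
  rw [g] at e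
  rw [e]
  simp only [mul_assoc]

theorem t_j3_5 {R : T4} (h : IsCurv R) : ∑ a, ∑ b, ∑ c, ∑ i, ∑ j, ∑ k, R i a j b * (R i a k c * R k c j b) = i7 R := by
  have g : g3 R ![3, 0, 4, 1, 3, 0, 5, 2, 5, 2, 4, 1] = i7 R :=
    (g3_pos h [.P 0] ![4, 1, 3, 0, 5, 2] ![3, 1, 5, 2, 0, 4] ![0, 1, 2, 3, 2, 3, 4, 5, 4, 5, 0, 1] ![3, 0, 4, 1, 3, 0, 5, 2, 5, 2, 4, 1] (by decide) (by decide) (by decide) (by decide)).trans (by rw [g_7 h])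
  have e : g3 R ![3, 0, 4, 1, 3, 0, 5, 2, 5, 2, 4, 1] = ∑ a, ∑ b, ∑ c, ∑ i, ∑ j, ∑ k, R i a j b * R i a k c * R k c j b :=
    nest6 (fun a b c i j k => R i a j b * R i a k c * R k c j b)
  rw [g] at e
  rw [e]
  simp only [mul_assoc]

theorem t_j3_6 {R : T4} (h : IsCurv R) : ∑ a, ∑ b, ∑ c, ∑ i, ∑ j, ∑ k, R i a j b * (R j a i c * R k c k b) = i6 R / 2 := by
  have g : g3 R ![3, 0, 4, 1, 4, 0, 3, 2, 5, 2, 5, 1] = i6 R / 2 :=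
    (g3_pos h [.A 0, .A 1, .A 2, .B 0, .B 1, .B 2, .P 0, .P 1, .P 2, .X, .Y] ![1, 2, 4, 0, 3, 5] ![3, 0, 1, 4, 2, 5] ![0, 5, 1, 5, 0, 2, 3, 4, 1, 4, 3, 2] ![3, 0, 4, 1, 4, 0, 3, 2, 5, 2, 5, 1] (by decide) (by decide) (by decide) (by decide)).trans (by rw [g_62 h])
  have e : g3 R ![3, 0, 4, 1, 4, 0, 3, 2, 5, 2, 5, 1] = ∑ a, ∑ b, ∑ c, ∑ i, ∑ j, ∑ k, R i a j b * R j a i c * R k c k b :=
    nest6 (fun a b c i j k => R i a j b * R j a i c * R k c k b)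
  rw [g] at e
  rw [e]
  simp only [mul_assoc]

theorem t_j3_7 {R : T4} (h : IsCurv R) : ∑ a, ∑ b, ∑ c, ∑ i, ∑ j, ∑ k, R i a j b * (R k a i c * R j c k b) = i7 R / 4 := by
  have g : g3 R ![3, 0, 4, 1, 5, 0, 3, 2, 4, 2, 5, 1] = i7 R / 4 :=
    (g3_pos h [.A 2, .B 0, .P 0, .X] ![3, 2, 0, 5, 4, 1] ![2, 5, 1, 0, 4, 3] ![0, 1, 2, 3, 0, 2, 4, 5, 1, 4, 3, 5] ![3, 0, 4, 1, 5, 0, 3, 2, 4, 2, 5, 1] (by decide) (by decide) (by decide) (by decide)).trans (by rw [g_7q h])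
  have e : g3 R ![3, 0, 4, 1, 5, 0, 3, 2, 4, 2, 5, 1] = ∑ a, ∑ b, ∑ c, ∑ i, ∑ j, ∑ k, R i a j b * R k a i c * R j c k b :=
    nest6 (fun a b c i j k => R i a j b * R k a i c * R j c k b)
  rw [g] at e
  rw [e]
  simp only [mul_assoc]

theorem t_j3_8 {R : T4} (h : IsCurv R) : ∑ a, ∑ b, ∑ c, ∑ i, ∑ j, ∑ k, R i a j b * (R k a i c * R k c j b) = i7 R / 2 := by
  have g : g3 R ![3, 0, 4, 1, 5, 0, 3, 2, 5, 2, 4, 1] = i7 R / 2 :=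
    (g3_pos h [.A 2, .B 0, .P 0, .P 1, .Y] ![4, 1, 0, 3, 5, 2] ![2, 1, 5, 3, 0, 4] ![0, 1, 2, 3, 0, 1, 4, 5, 2, 4, 3, 5] ![3, 0, 4, 1, 5, 0, 3, 2, 5, 2, 4, 1] (by decide) (by decide) (by decide) (by decide)).trans (by rw [g_7h h])
  have e : g3 R ![3, 0, 4, 1, 5, 0, 3, 2, 5, 2, 4, 1] = ∑ a, ∑ b, ∑ c, ∑ i, ∑ j, ∑ k, R i a j b * R k a i c * R k c j b :=
    nest6 (fun a b c i j k => R i a j b * R k a i c * R k c j b)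
  rw [g] at e
  rw [e]
  simp only [mul_assoc]

theorem t_j3_9 {R : T4} (h : IsCurv R) : ∑ a, ∑ b, ∑ c, ∑ i, ∑ j, ∑ k, R i a j b * (R j a k c * R i c k b) = i7 R / 4 := by
  have g : g3 R ![3, 0, 4, 1, 4, 0, 5, 2, 3, 2, 5, 1] = i7 R / 4 :=
    (g3_pos h [.A 0, .A 1, .B 1, .B 2] ![0, 3, 4, 1, 2, 5] ![0, 3, 4, 1, 2, 5] ![0, 1, 2, 3, 0, 2, 4, 5, 1, 4, 3, 5] ![3, 0, 4, 1, 4, 0, 5, 2, 3, 2, 5, 1] (by decide) (by decide) (by decide) (by decide)).trans (by rw [g_7q h])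
  have e : g3 R ![3, 0, 4, 1, 4, 0, 5, 2, 3, 2, 5, 1] = ∑ a, ∑ b, ∑ c, ∑ i, ∑ j, ∑ k, R i a j b * R j a k c * R i c k b :=
    nest6 (fun a b c i j k => R i a j b * R j a k c * R i c k b)
  rw [g] at e
  rw [e]
  simp only [mul_assoc]

theorem t_j3_10 {R : T4} (h : IsCurv R) : ∑ a, ∑ b, ∑ c, ∑ i, ∑ j, ∑ k, R i a j b * (R k a j c * R i c k b) = -(i8 R - i7 R / 4) := by
  have g : g3 R ![3, 0, 4, 1, 5, 0, 4, 2, 3, 2, 5, 1] = -(i8 R - i7 R / 4) :=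
    (g3_neg h [.A 0, .A 1, .B 2] ![0, 3, 4, 1, 5, 2] ![0, 3, 5, 1, 2, 4] ![0, 1, 2, 3, 0, 4, 2, 5, 1, 5, 3, 4] ![3, 0, 4, 1, 5, 0, 4, 2, 3, 2, 5, 1] (by decide) (by decide) (by decide) (by decide)).trans (by rw [g_8b h])
  have e : g3 R ![3, 0, 4, 1, 5, 0, 4, 2, 3, 2, 5, 1] = ∑ a, ∑ b, ∑ c, ∑ i, ∑ j, ∑ k, R i a j b * R k a j c * R i c k b :=
    nest6 (fun a b c i j k => R i a j b * R k a j c * R i c k b)
  rw [g] at e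
  rw [e]
  simp only [mul_assoc]

theorem t_j3_11 {R : T4} (h : IsCurv R) : ∑ a, ∑ b, ∑ c, ∑ i, ∑ j, ∑ k, R i a j b * (R k a k c * R i c j b) = i6 R := by
  have g : g3 R ![3, 0, 4, 1, 5, 0, 5, 2, 3, 2, 4, 1] = i6 R :=
    (g3_pos h [.A 0, .A 1, .A 2, .B 0, .X] ![0, 2, 3, 4, 1, 5] ![0, 4, 1, 2, 3, 5] ![0, 5, 1, 5, 0, 2, 3, 4, 1, 2, 3, 4] ![3, 0, 4, 1, 5, 0, 5, 2, 3, 2, 4, 1] (by decide) (by decide) (by decide) (by decide)).trans (by rw [g_6 h])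
  have e : g3 R ![3, 0, 4, 1, 5, 0, 5, 2, 3, 2, 4, 1] = ∑ a, ∑ b, ∑ c, ∑ i, ∑ j, ∑ k, R i a j b * R k a k c * R i c j b :=
    nest6 (fun a b c i j k => R i a j b * R k a k c * R i c j b)
  rw [g] at e
  rw [e]
  simp only [mul_assoc]

theorem t_j3_12 {R : T4} (h : IsCurv R) : ∑ a, ∑ b, ∑ c, ∑ i, ∑ j, ∑ k, R i a j b * (R j a k c * R k c i b) = i7 R / 2 := by
  have g : g3 R ![3, 0, 4, 1, 4, 0, 5, 2, 5, 2, 3, 1] = i7 R / 2 :=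
    (g3_pos h [.A 2, .B 0, .P 0, .Y, .X] ![5, 2, 0, 4, 3, 1] ![2, 5, 1, 4, 3, 0] ![0, 1, 2, 3, 0, 1, 4, 5, 2, 4, 3, 5] ![3, 0, 4, 1, 4, 0, 5, 2, 5, 2, 3, 1] (by decide) (by decide) (by decide) (by decide)).trans (by rw [g_7h h])
  have e : g3 R ![3, 0, 4, 1, 4, 0, 5, 2, 5, 2, 3, 1] = ∑ a, ∑ b, ∑ c, ∑ i, ∑ j, ∑ k, R i a j b * R j a k c * R k c i b :=
    nest6 (fun a b c i j k => R i a j b * R j a k c * R k c i b)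
  rw [g] at e
  rw [e]
  simp only [mul_assoc]

theorem t_j3_13 {R : T4} (h : IsCurv R) : ∑ a, ∑ b, ∑ c, ∑ i, ∑ j, ∑ k, R i a j b * (R k a j c * R k c i b) = i7 R / 4 := by
  have g : g3 R ![3, 0, 4, 1, 5, 0, 4, 2, 5, 2, 3, 1] = i7 R / 4 :=
    (g3_pos h [.A 2, .B 0, .P 1, .Y] ![3, 0, 1, 4, 5, 2] ![1, 2, 5, 0, 3, 4] ![0, 1, 2, 3, 0, 2, 4, 5, 1, 4, 3, 5] ![3, 0, 4, 1, 5, 0, 4, 2, 5, 2, 3, 1] (by decide) (by decide) (by decide) (by decide)).trans (by rw [g_7q h])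
  have e : g3 R ![3, 0, 4, 1, 5, 0, 4, 2, 5, 2, 3, 1] = ∑ a, ∑ b, ∑ c, ∑ i, ∑ j, ∑ k, R i a j b * R k a j c * R k c i b :=
    nest6 (fun a b c i j k => R i a j b * R k a j c * R k c i b)
  rw [g] at e
  rw [e]
  simp only [mul_assoc]

theorem t_j3_14 {R : T4} (h : IsCurv R) : ∑ a, ∑ b, ∑ c, ∑ i, ∑ j, ∑ k, R i a j b * (R k a k c * R j c i b) = i6 R / 2 := by
  have g : g3 R ![3, 0, 4, 1, 5, 0, 5, 2, 4, 2, 3, 1] = i6 R / 2 :=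
    (g3_pos h [.A 0, .A 1, .A 2, .B 0, .B 1, .B 2, .X] ![0, 2, 3, 1, 4, 5] ![0, 3, 1, 2, 4, 5] ![0, 5, 1, 5, 0, 2, 3, 4, 1, 4, 3, 2] ![3, 0, 4, 1, 5, 0, 5, 2, 4, 2, 3, 1] (by decide) (by decide) (by decide) (by decide)).trans (by rw [g_62 h])
  have e : g3 R ![3, 0, 4, 1, 5, 0, 5, 2, 4, 2, 3, 1] = ∑ a, ∑ b, ∑ c, ∑ i, ∑ j, ∑ k, R i a j b * R k a k c * R j c i b :=
    nest6 (fun a b c i j k => R i a j b * R k a k c * R j c i b)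
  rw [g] at e
  rw [e]
  simp only [mul_assoc]

end Pool.Agent.H274R2
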