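import Pool.Agent.H274R2.PF

/-! The second nonnegative function: expansion and average. -/

namespace Pool.Agent.H274R2

open Finset

noncomputable def Q0 (R : T4) (x : V6) : ℝ :=
  nn x ^ 2 * n4 R - 4 * nn x * rx R x + 4 * cx R x
    - 2 * (nn x ^ 2 * nr R - 2 * nn x * dx R x + ax R x ^ 2 - 2 * nn x * bx R x + cx R x)
    + 1 / 3 * (nn x * sc R - 2 * ax R x) ^ 2

noncomputable def Um (R : T4) (x : V6) : M6 :=
  Q0 R x • dl
    - (3 : ℝ) • ((nn x ^ 2) • RR R - nn x • P1m R x - (2 * nn x) • P2m R x + (2 : ℝ) • P3m R x)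
    + (4 : ℝ) • ((nn x ^ 2) • Bm R - (2 * nn x) • P4m R x + ax R x • Jm R x - nn x • P5m R x)
    - (4 / 3 * (nn x * sc R - 2 * ax R x)) • (nn x • ric R - Jm R x)
    + (10 / 3 : ℝ) • ((nn x ^ 2) • R2 R - nn x • uum R x - (2 * nn x) • P6m R x + P3m R x)

noncomputable def Uv (R : T4) (m : ℝ) (x : V6) : ℝ := pr (Xm R m x) (Um R x)

theorem Uv_eq {R : T4} (h : IsCurv R) (m : ℝ) (x : V6) : Uv R m x =
    (ax R x * Q0 R x
    - 3 * (nn x ^ 2 * h1x R x - nn x * h2x R x - 2 * nn x * h3x R x + 2 * j3x R x)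
    + 4 * (nn x ^ 2 * g1x R x - 2 * nn x * g2x R x + ax R x * cx R x - nn x * g3x R x)
    - 4 / 3 * (nn x * sc R - 2 * ax R x) * (nn x * bx R x - cx R x)
    + 10 / 3 * (nn x ^ 2 * e1x R x - nn x * e2x R x - 2 * nn x * f1x R x + j3x R x))
    - m * (5 * nn x * Q0 R x
    - 3 * (nn x ^ 2 * (nn x * n4 R - rx R x) - nn x * (nn x * rx R x)
        - 2 * nn x * (nn x * rx R x - cx R x) + 2 * (nn x * cx R x))
    + 4 * (nn x ^ 2 * (nn x * nr R - bx R x) - 2 * nn x * (nn x * dx R x)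
        + ax R x * (nn x * ax R x) - nn x * (nn x * bx R x - cx R x))
    - 4 / 3 * (nn x * sc R - 2 * ax R x) * (nn x * (nn x * sc R - ax R x) - nn x * ax R x)
    + 10 / 3 * (nn x ^ 2 * (nn x * nr R - dx R x) - nn x * (nn x * dx R x - ax R x ^ 2)
        - 2 * nn x * (nn x * bx R x) + nn x * cx R x)) := by
  unfold Uv Um Xm
  simp only [pr_add_r, pr_sub_r, pr_smul_r, pr_add_l, pr_sub_l, pr_smul_l,
    pJ_dl h, pJ_RR, pJ_P1, pJ_P2, pJ_P3, pJ_Bm, pJ_P4, pJ_J, pJ_P5, pJ_ric, pJ_R2, pJ_uu, pJ_P6,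
    pd_dl, pd_RR, pd_P1, pd_P2, pd_P3 h, pd_Bm h, pd_P4 h, pd_J h, pd_P5 h, pd_ric, pd_R2 h,
    pd_uu, pd_P6 h,
    px_dl, px_RR, px_P1 h, px_P2 h, px_P3 h, px_Bm, px_P4 h, px_J h, px_P5 h, px_ric, px_R2 h,
    px_uu, px_P6 h]
  ring

/-- the average -/
noncomputable def AU (R : T4) (m : ℝ) : ℝ :=
  (80 * sc R * (n4 R - 2 * nr R + sc R ^ 2 / 3) - 40 * (sc R * n4 R + 2 * i6 R)
    + 10 / 3 * (sc R * nr R + 3 / 2 * (sc R * n4 R) + 4 * i5 R + 6 * i6 R)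
    + 40 * (sc R * nr R + 2 * i4 R)
    - 2 / 3 * (sc R ^ 3 + 6 * (sc R * nr R) + 8 * i4 R)
    + 200 / 3 * (sc R * nr R + 2 * i5 R)
    - 40 / 3 * sc R * (sc R ^ 2 + 2 * nr R)
    - 240 * i6 R + 30 * (i6 R + 3 / 2 * i7 R) + 60 * (i6 R + i7 R / 2 - i8 R)
    - 8 / 3 * (i4 R + 9 / 2 * i6 R + 7 / 2 * i7 R - i8 R)
    + 320 * i5 R - 80 * (i5 R + 3 / 2 * i6 R) - 40 * (i5 R - i7 R / 4 + 2 * i8 R)
    - 320 / 3 * sc R * nr R + 40 / 3 * sc R * (nr R + 3 / 2 * n4 R)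
    + 10 / 3 * (80 * i4 R - 10 * (i4 R - i5 R) - 20 * (i4 R + 3 / 2 * i6 R)))
    - m * (5 * (480 * n4 R - 320 * n4 R + 40 * (nr R + 3 / 2 * n4 R)
        - 2 * (480 * nr R - 160 * nr R + 10 * (sc R ^ 2 + 2 * nr R) - 160 * nr R
          + 10 * (nr R + 3 / 2 * n4 R))
        + 1 / 3 * (480 * sc R ^ 2 - 320 * sc R ^ 2 + 40 * (sc R ^ 2 + 2 * nr R)))
    - 3 * (480 * n4 R - 320 * n4 R + 40 * (nr R + 3 / 2 * n4 R))
    + 4 * (480 * nr R - 320 * nr R + 10 * (sc R ^ 2 + 2 * nr R) + 10 * (nr R + 3 / 2 * n4 R))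
    - 4 / 3 * (480 * sc R ^ 2 - 320 * sc R ^ 2 + 40 * (sc R ^ 2 + 2 * nr R))
    + 10 / 3 * (480 * nr R - 320 * nr R + 10 * (sc R ^ 2 + 2 * nr R)
        + 10 * (nr R + 3 / 2 * n4 R)))

theorem Av_AU {R : T4} (h : IsCurv R) (m : ℝ) : Av (fun x => Uv R m x) = AU R m := by
  have e : (fun x => Uv R m x) = fun x =>
      (- m * (5 * (n4 R - 2 * nr R + sc R ^ 2 / 3) - 3 * n4 R + 4 * nr R - 4 / 3 * sc R ^ 2
        + 10 / 3 * nr R)) * nn x ^ 3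
      + ((n4 R - 2 * nr R + sc R ^ 2 / 3) - m * (- 20 / 3 * sc R + 16 / 3 * sc R)) *
          (nn x ^ 2 * ax R x)
      + (- 4 / 3 * sc R - m * (5 * (- 2 + 4 / 3) + 4 - 16 / 3 + 10 / 3))
          * (nn x * (ax R x * ax R x))
      + (- 2 / 3) * (ax R x * ax R x * ax R x)
      + (- 4 / 3 * sc R - m * (20 - 8 - 20 / 3)) * (nn x ^ 2 * bx R x)
      + (20 / 3) * (nn x * (ax R x * bx R x))
      + (4 / 3 * sc R - m * (5 * 2 - 12 + 4 + 10 / 3)) * (nn x * cx R x)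
      + (10 / 3) * (ax R x * cx R x)
      + (10 / 3) * (nn x ^ 2 * e1x R x)
      + (- 10 / 3) * (nn x * e2x R x)
      + (- m * (20 - 8 - 20 / 3)) * (nn x ^ 2 * dx R x)
      + 4 * (nn x * (ax R x * dx R x))
      + (- 20 / 3) * (nn x * f1x R x)
      + (- 8 / 3) * j3x R x
      + (- 4) * (nn x * (ax R x * rx R x))
      + (- m * (- 20 + 12)) * (nn x ^ 2 * rx R x)
      + (- 3) * (nn x ^ 2 * h1x R x)
      + 3 * (nn x * h2x R x)
      + 6 * (nn x * h3x R x)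
      + 4 * (nn x ^ 2 * g1x R x)
      + (- 8) * (nn x * g2x R x)
      + (- 4) * (nn x * g3x R x) := by
    funext x; rw [Uv_eq h]; unfold Q0; ring
  have q1 : Av (fun x => nn x * cx R x) = 10 * (nr R + 3 / 2 * n4 R) := by
    rw [← Av_c h]; exact Q4_c R
  have q2 : Av (fun x => nn x * e2x R x) = 10 * (i4 R - i5 R) := by
    rw [← Av_e2 h]; exact Q4_e2 R
  have q3 : Av (fun x => nn x * f1x R x) = 10 * (i4 R + 3 / 2 * i6 R) := by
    rw [← Av_f1 h]; exact Q4_f1 R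
  have q4 : Av (fun x => j3x R x) = i4 R + 9 / 2 * i6 R + 7 / 2 * i7 R - i8 R := Av_j3 h
  have q5 : Av (fun x => nn x * (ax R x * dx R x)) = 10 * (sc R * nr R + 2 * i4 R) := by
    rw [← Av_ad h]; exact Q4_ad h
  have q6 : Av (fun x => nn x * (ax R x * rx R x)) = 10 * (sc R * n4 R + 2 * i6 R) := by
    rw [← Av_ar]; exact Q4_ar R
  have q7 : Av (fun x => nn x * h2x R x) = 10 * (i6 R + 3 / 2 * i7 R) := by
    rw [← Av_h2 h]; exact Q4_h2 R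
  have q8 : Av (fun x => nn x * h3x R x) = 10 * (i6 R + i7 R / 2 - i8 R) := by
    rw [← Av_h3 h]; exact Q4_h3 R
  have q9 : Av (fun x => nn x * g2x R x) = 10 * (i5 R + 3 / 2 * i6 R) := by
    rw [← Av_g2 h]; exact Q4_g2 R
  have q10 : Av (fun x => nn x * g3x R x) = 10 * (i5 R - i7 R / 4 + 2 * i8 R) := by
    rw [← Av_g3 h]; exact Q4_g3 R
  rw [e]
  simp only [Av_add, Av_smul, Av_nn3, Av_n2a, Av_na2 h, Av_a3 h, Av_n2b h, Av_nab h, q1, Av_ac h,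
    Av_n2e1 h, q2, Av_n2d h, q3, q4, q5, q6, Av_n2r, Av_n2h1 h, q7, q8, Av_n2g1 h, q9, q10]
  unfold AU
  ring

end Pool.Agent.H274R2
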