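import Pool.Agent.H274R2.Ad

/-! Positivity of the second function. -/

namespace Pool.Agent.H274R2

open Finset

abbrev E6 := EuclideanSpace ℝ (Fin 6)

theorem exists_frame (x v : V6) (hv : ∑ a, x a * v a = 0) :
    ∃ (O : M6) (r t : ℝ), Ort O ∧ rot1 O x = ek 5 r ∧ rot1 O v = ek 0 t := by
  classical
  let X : E6 := WithLp.toLp 2 x
  let V : E6 := WithLp.toLp 2 v
  have hXV : inner ℝ X V = 0 := by
    rw [← hv]
    simp [X, V, PiLp.inner_apply, mul_comm]
  let f : Fin 6 → E6 := fun i => if i = 5 then (‖X‖⁻¹ : ℝ) • X else (‖V‖⁻¹ : ℝ) • V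
  let s : Set (Fin 6) := {i | (i = 5 ∧ X ≠ 0) ∨ (i = 0 ∧ V ≠ 0)}
  have hf : Orthonormal ℝ (s.domRestrict f) := by
    constructor
    · rintro ⟨i, hi⟩
      rcases hi with ⟨rfl, hX⟩ | ⟨rfl, hV⟩
      · show ‖f 5‖ = 1
        simp only [f, if_true]
        rw [norm_smul, norm_inv, norm_norm, inv_mul_cancel₀ (norm_ne_zero_iff.mpr hX)]
      · show ‖f 0‖ = 1
        simp only [f]
        rw [if_neg (by decide), norm_smul, norm_inv, norm_norm,
          inv_mul_cancel₀ (norm_ne_zero_iff.mpr hV)]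
    · rintro ⟨i, hi⟩ ⟨j, hj⟩ hij
      have hij' : i ≠ j := fun h => hij (Subtype.ext h)
      show inner ℝ (f i) (f j) = 0
      rcases hi with ⟨rfl, hX⟩ | ⟨rfl, hV⟩ <;> rcases hj with ⟨rfl, hX'⟩ | ⟨rfl, hV'⟩
      · exact absurd rfl hij'
      · simp only [f, if_true]
        rw [if_neg (by decide), inner_smul_left, inner_smul_right, hXV]; simp
      · simp only [f, if_true]
        rw [if_neg (by decide), inner_smul_left, inner_smul_right, real_inner_comm, hXV]; simp
      · exact absurd rfl hij'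
  obtain ⟨b, hb⟩ := hf.exists_orthonormalBasis_extension_of_card_eq (by simp)
  have hX : X = ‖X‖ • b 5 := by
    by_cases h0 : X = 0
    · simp [h0]
    · rw [hb 5 (Or.inl ⟨rfl, h0⟩)]
      simp only [f, if_true]
      rw [smul_smul, mul_inv_cancel₀ (norm_ne_zero_iff.mpr h0), one_smul]
  have hV : V = ‖V‖ • b 0 := by
    by_cases h0 : V = 0
    · simp [h0]
    · rw [hb 0 (Or.inr ⟨rfl, h0⟩)]
      simp only [f]
      rw [if_neg (by decide), smul_smul, mul_inv_cancel₀ (norm_ne_zero_iff.mpr h0), one_smul]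
  have hin : ∀ (y : V6) (a : Fin 6), ∑ p, (b a) p * y p = inner ℝ (b a) (WithLp.toLp 2 y : E6) := by
    intro y a
    simp [PiLp.inner_apply, mul_comm]
  have hob : ∀ i j, inner ℝ (b i) (b j) = dl i j := by
    intro i j
    rw [orthonormal_iff_ite.mp b.orthonormal i j]; rfl
  refine ⟨fun p a => (b a) p, ‖X‖, ‖V‖, ?_, ?_, ?_⟩
  · intro p q
    have h1 := b.sum_inner_mul_inner (EuclideanSpace.single p (1 : ℝ)) (EuclideanSpace.single q 1)
    have h2 : ∀ a, inner ℝ (EuclideanSpace.single p (1 : ℝ)) (b a) *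
        inner ℝ (b a) (EuclideanSpace.single q (1 : ℝ)) = (b a) p * (b a) q := by
      intro a
      simp [EuclideanSpace.inner_single_left, EuclideanSpace.inner_single_right]
    simp only [h2] at h1
    rw [h1]
    simp [dl, EuclideanSpace.inner_single_left, Pi.single_apply]
  · funext a
    show ∑ p, (b a) p * x p = ‖X‖ * dl 5 a
    rw [hin x a]
    show inner ℝ (b a) X = _
    conv_lhs => rw [hX]
    rw [inner_smul_right, hob, dl_symm]
  · funext a
    show ∑ p, (b a) p * v p = ‖V‖ * dl 0 a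
    rw [hin v a]
    show inner ℝ (b a) V = _
    conv_lhs => rw [hV]
    rw [inner_smul_right, hob, dl_symm]

theorem UV_nonneg {R : T4} (h : IsCurv R) (x v : V6) (hv : ∑ a, x a * v a = 0) :
    0 ≤ UV R x v := by
  obtain ⟨O, r, t, hO, hx, hv'⟩ := exists_frame x v hv
  rw [← UV_rot hO h, hx, hv']
  exact UV_ek_nonneg (rot4_curv h O) r t

open scoped MatrixOrder in
theorem gram_of_psd (A : M6) (hs : ∀ a b, A a b = A b a) (hA : ∀ v : V6, 0 ≤ pr A (xx v)) :
    ∃ B : M6, ∀ a b, A a b = ∑ k, B k a * B k b := by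
  have hP : (Matrix.of A).PosSemidef := by
    refine Matrix.PosSemidef.of_dotProduct_mulVec_nonneg ?_ ?_
    · ext a b
      simp [hs a b]
    · intro v
      have := hA v
      have e : pr A (xx v) = star v ⬝ᵥ (Matrix.of A).mulVec v := by
        unfold pr xx
        simp only [dotProduct, Matrix.mulVec, Finset.mul_sum, star_trivial, Matrix.of_apply]
        exact Finset.sum_congr rfl fun a _ => Finset.sum_congr rfl fun b _ => by ring
      rwa [e] at this
  obtain ⟨B, hB⟩ := CStarAlgebra.nonneg_iff_eq_star_mul_self.mp hP.nonneg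
  refine ⟨B, fun a b => ?_⟩
  have := congrFun (congrFun hB a) b
  simp only [Matrix.of_apply, Matrix.mul_apply, Matrix.star_eq_conjTranspose,
    Matrix.conjTranspose_apply, star_trivial] at this
  exact this

theorem Xm_symm {R : T4} (h : IsCurv R) (m : ℝ) (x : V6) (a b : Fin 6) :
    Xm R m x a b = Xm R m x b a := by
  unfold Xm Jm xx
  simp only [Pi.sub_apply, Pi.smul_apply, smul_eq_mul, Jf_symm h a b, dl_symm a b]
  ring

theorem Xm_x {R : T4} (h : IsCurv R) (m : ℝ) (x : V6) : pr (Xm R m x) (xx x) = 0 := by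
  unfold Xm
  rw [pr_sub_l, pr_smul_l, pr_sub_l, pr_smul_l, pr_comm, px_J h, pr_comm dl, px_dl]
  have : pr (xx x) (xx x) = nn x ^ 2 := by
    unfold pr xx nn
    rw [sq, Finset.sum_mul_sum]
    exact Finset.sum_congr rfl fun a _ => Finset.sum_congr rfl fun b _ => by ring
  rw [this]; ring

theorem Uv_nonneg {R : T4} (h : IsCurv R) {m : ℝ} {x : V6}
    (hX : ∀ v : V6, 0 ≤ pr (Xm R m x) (xx v)) : 0 ≤ Uv R m x := by
  obtain ⟨B, hB⟩ := gram_of_psd _ (Xm_symm h m x) hX
  have hpr : ∀ C : M6, pr (Xm R m x) C = ∑ k, pr (xx (B k)) C := by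
    intro C
    unfold pr xx
    simp only [hB, Finset.sum_mul]
    calc _ = ∑ a, ∑ k, ∑ b, B k a * B k b * C a b :=
          Finset.sum_congr rfl fun a _ => Finset.sum_comm
      _ = _ := Finset.sum_comm
  have hort : ∀ k, ∑ a, x a * B k a = 0 := by
    have h0 := Xm_x h m x
    rw [hpr] at h0
    have e : ∀ k, pr (xx (B k)) (xx x) = (∑ a, x a * B k a) ^ 2 := by
      intro k
      unfold pr xx
      rw [sq, Finset.sum_mul_sum]
      exact Finset.sum_congr rfl fun a _ => Finset.sum_congr rfl fun b _ => by ring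
    simp only [e] at h0
    intro k
    have := (Finset.sum_eq_zero_iff_of_nonneg (fun i _ => sq_nonneg _)).mp h0 k (mem_univ k)
    exact pow_eq_zero_iff (two_ne_zero) |>.mp this
  unfold Uv
  rw [hpr]
  refine Finset.sum_nonneg fun k _ => ?_
  rw [UV_eq h]
  exact UV_nonneg h x (B k) (hort k)

end Pool.Agent.H274R2
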