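import Pool.Agent.H274R2.Rot

/-! The quadratic form `v ↦ pr (xx v) (Um R x)` and its invariance. -/

namespace Pool.Agent.H274R2

open Finset

/-- `R_{x v b c}` -/
def N1 (R : T4) (x v : V6) (b c : Fin 6) : ℝ := ∑ a, v a * Rx R x a b c
/-- `R_{x b v c}` -/
def N2 (R : T4) (x v : V6) (b c : Fin 6) : ℝ := ∑ a, v a * Rx R x b a c
/-- `J_{v b}` -/
def Jv (R : T4) (x v : V6) (b : Fin 6) : ℝ := ∑ a, v a * Jf R a b x

noncomputable def UV (R : T4) (x v : V6) : ℝ :=
  Q0 R x * nn v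
    - 3 * (nn x ^ 2 * rx R v - nn x * (∑ b, ∑ c, N1 R x v b c * N1 R x v b c)
        - 2 * nn x * (∑ b, ∑ c, N2 R x v b c * N2 R x v b c) + 2 * (∑ b, Jv R x v b * Jv R x v b))
    + 4 * (nn x ^ 2 * bx R v + 2 * nn x * (∑ e, (∑ b, v b * N1 R x v b e) * ux R x e)
        + ax R x * (∑ b, Jv R x v b * v b) - nn x * (∑ c, ∑ e, Jf R c e v * Jf R c e x))
    - 4 / 3 * (nn x * sc R - 2 * ax R x) * (nn x * ax R v - ∑ b, Jv R x v b * v b)
    + 10 / 3 * (nn x ^ 2 * dx R v - nn x * (∑ b, ux R x b * v b) ^ 2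
        - 2 * nn x * (∑ c, ux R v c * Jv R x v c) + ∑ b, Jv R x v b * Jv R x v b)

theorem vP1 (R : T4) (x v : V6) :
    pr (xx v) (P1m R x) = ∑ b, ∑ c, N1 R x v b c * N1 R x v b c := by
  unfold pr xx P1m
  simp only [P1_eq]
  have e : ∀ d e, ∑ a, ∑ b, (v a * v b) * (Rx R x a d e * Rx R x b d e) =
      N1 R x v d e * N1 R x v d e := by
    intro d e
    unfold N1
    rw [Finset.sum_mul_sum]
    exact Finset.sum_congr rfl fun a _ => Finset.sum_congr rfl fun b _ => by ring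
  simp only [← e, Finset.mul_sum]
  calc _ = ∑ a, ∑ e, ∑ b, ∑ c, (v a * v b) * (Rx R x a e c * Rx R x b e c) :=
        Finset.sum_congr rfl fun a _ => Finset.sum_comm
    _ = ∑ e, ∑ a, ∑ b, ∑ c, (v a * v b) * (Rx R x a e c * Rx R x b e c) := Finset.sum_comm
    _ = _ := by
      refine Finset.sum_congr rfl fun e _ => ?_
      calc _ = ∑ a, ∑ c, ∑ b, (v a * v b) * (Rx R x a e c * Rx R x b e c) :=
            Finset.sum_congr rfl fun a _ => Finset.sum_comm
        _ = _ := Finset.sum_comm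

theorem vP2 (R : T4) (x v : V6) :
    pr (xx v) (P2m R x) = ∑ b, ∑ c, N2 R x v b c * N2 R x v b c := by
  unfold pr xx P2m
  simp only [P2_eq]
  have e : ∀ d e, ∑ a, ∑ b, (v a * v b) * (Rx R x d a e * Rx R x d b e) =
      N2 R x v d e * N2 R x v d e := by
    intro d e
    unfold N2
    rw [Finset.sum_mul_sum]
    exact Finset.sum_congr rfl fun a _ => Finset.sum_congr rfl fun b _ => by ring
  simp only [← e, Finset.mul_sum]
  calc _ = ∑ a, ∑ e, ∑ b, ∑ c, (v a * v b) * (Rx R x e a c * Rx R x e b c) :=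
        Finset.sum_congr rfl fun a _ => Finset.sum_comm
    _ = ∑ e, ∑ a, ∑ b, ∑ c, (v a * v b) * (Rx R x e a c * Rx R x e b c) := Finset.sum_comm
    _ = _ := by
      refine Finset.sum_congr rfl fun e _ => ?_
      calc _ = ∑ a, ∑ c, ∑ b, (v a * v b) * (Rx R x e a c * Rx R x e b c) :=
            Finset.sum_congr rfl fun a _ => Finset.sum_comm
        _ = _ := Finset.sum_comm

theorem vP3 {R : T4} (h : IsCurv R) (x v : V6) :
    pr (xx v) (P3m R x) = ∑ b, Jv R x v b * Jv R x v b := by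
  unfold pr xx P3m
  have e : ∀ c, ∑ a, ∑ b, (v a * v b) * (Jf R a c x * Jf R c b x) =
      Jv R x v c * Jv R x v c := by
    intro c
    unfold Jv
    rw [Finset.sum_mul_sum]
    exact Finset.sum_congr rfl fun a _ => Finset.sum_congr rfl fun b _ => by
      rw [Jf_symm h c b]; ring
  simp only [← e, Finset.mul_sum]
  calc _ = ∑ a, ∑ c, ∑ b, (v a * v b) * (Jf R a c x * Jf R c b x) :=
        Finset.sum_congr rfl fun a _ => Finset.sum_comm
    _ = _ := Finset.sum_comm

theorem vP4 {R : T4} (h : IsCurv R) (x v : V6) :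
    pr (xx v) (P4m R x) = - ∑ e, (∑ b, v b * N1 R x v b e) * ux R x e := by
  unfold pr xx P4m
  simp only [P4_eq h]
  have e : ∀ e, ∑ a, ∑ b, (v a * v b) * (Rx R x a b e * ux R x e) =
      (∑ b, v b * N1 R x v b e) * ux R x e := by
    intro e
    unfold N1
    rw [Finset.sum_mul, Finset.sum_comm]
    refine Finset.sum_congr rfl fun b _ => ?_
    rw [Finset.mul_sum, Finset.sum_mul]
    exact Finset.sum_congr rfl fun a _ => by ring
  simp only [← e, Finset.mul_sum, mul_neg, Finset.sum_neg_distrib]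
  congr 1
  calc _ = ∑ a, ∑ c, ∑ b, (v a * v b) * (Rx R x a b c * ux R x c) :=
        Finset.sum_congr rfl fun a _ => Finset.sum_comm
    _ = _ := Finset.sum_comm

theorem vJ (R : T4) (x v : V6) : pr (xx v) (Jm R x) = ∑ b, Jv R x v b * v b := by
  unfold pr xx Jm Jv
  rw [Finset.sum_comm]
  refine Finset.sum_congr rfl fun b _ => ?_
  rw [Finset.sum_mul]
  exact Finset.sum_congr rfl fun a _ => by ring

theorem vP5 (R : T4) (x v : V6) :
    pr (xx v) (P5m R x) = ∑ c, ∑ e, Jf R c e v * Jf R c e x := by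
  unfold pr xx P5m
  simp only [P5_eq]
  have e : ∀ c e, ∑ a, ∑ b, (v a * v b) * (R a c b e * Jf R c e x) =
      Jf R c e v * Jf R c e x := by
    intro c e
    rw [show Jf R c e v = ∑ a, ∑ b, R a c b e * (v a * v b) from rfl, Finset.sum_mul]
    refine Finset.sum_congr rfl fun a _ => ?_
    rw [Finset.sum_mul]
    exact Finset.sum_congr rfl fun b _ => by ring
  simp only [← e, Finset.mul_sum]
  calc _ = ∑ a, ∑ e, ∑ b, ∑ c, (v a * v b) * (R a e b c * Jf R e c x) :=
        Finset.sum_congr rfl fun a _ => Finset.sum_comm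
    _ = ∑ e, ∑ a, ∑ b, ∑ c, (v a * v b) * (R a e b c * Jf R e c x) := Finset.sum_comm
    _ = _ := by
      refine Finset.sum_congr rfl fun e _ => ?_
      calc _ = ∑ a, ∑ c, ∑ b, (v a * v b) * (R a e b c * Jf R e c x) :=
            Finset.sum_congr rfl fun a _ => Finset.sum_comm
        _ = _ := Finset.sum_comm

theorem vuu (R : T4) (x v : V6) : pr (xx v) (uum R x) = (∑ b, ux R x b * v b) ^ 2 := by
  unfold pr xx uum
  rw [sq, Finset.sum_mul_sum]
  exact Finset.sum_congr rfl fun a _ => Finset.sum_congr rfl fun b _ => by ring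

theorem vP6 {R : T4} (h : IsCurv R) (x v : V6) :
    pr (xx v) (P6m R x) = ∑ c, ux R v c * Jv R x v c := by
  unfold pr xx P6m
  have e : ∀ c, ∑ a, ∑ b, (v a * v b) * (ric R a c * Jf R c b x) =
      ux R v c * Jv R x v c := by
    intro c
    unfold Jv ux
    rw [Finset.sum_mul_sum]
    exact Finset.sum_congr rfl fun a _ => Finset.sum_congr rfl fun b _ => by
      rw [Jf_symm h c b, ric_symm h a c]; ring
  simp only [← e, Finset.mul_sum]
  calc _ = ∑ a, ∑ c, ∑ b, (v a * v b) * (ric R a c * Jf R c b x) :=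
        Finset.sum_congr rfl fun a _ => Finset.sum_comm
    _ = _ := Finset.sum_comm

theorem UV_eq {R : T4} (h : IsCurv R) (x v : V6) : pr (xx v) (Um R x) = UV R x v := by
  unfold Um UV
  simp only [pr_add_r, pr_sub_r, pr_smul_r, px_dl, px_RR, vP1, vP2, vP3 h, px_Bm, vP4 h, vJ, vP5,
    px_ric, px_R2 h, vuu, vP6 h]
  ring

section inv
variable {O : M6} (hO : Ort O) {R : T4} (h : IsCurv R) (x v : V6)
include hO

theorem N1_rot (b c : Fin 6) : N1 (rot4 O R) (rot1 O x) (rot1 O v) b c =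
    rot2 O (N1 R x v) b c := by
  unfold N1
  simp only [Rx_rot hO]
  exact con3 hO _ _ _ _

theorem N2_rot (b c : Fin 6) : N2 (rot4 O R) (rot1 O x) (rot1 O v) b c =
    rot2 O (N2 R x v) b c := by
  unfold N2
  simp only [Rx_rot hO]
  exact con3' hO _ _ _ _

theorem Jv_rot (b : Fin 6) : Jv (rot4 O R) (rot1 O x) (rot1 O v) b =
    rot1 O (Jv R x v) b := by
  unfold Jv
  simp only [Jf_rot hO]
  exact con2 hO _ _ _

include h in
theorem UV_rot : UV (rot4 O R) (rot1 O x) (rot1 O v) = UV R x v := by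
  unfold UV
  simp only [Q0_rot hO h, nn_rot hO, rx_rot hO, N1_rot hO, N2_rot hO, Jv_rot hO, bx_rot hO,
    ux_rot hO h, ax_rot hO h, Jf_rot hO, sc_rot hO, dx_rot hO h, pair2 hO, pair1 hO, con2 hO]
  rfl

end inv

end Pool.Agent.H274R2
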